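import Mathlib
import Pool.Agent.ETU.Defs
import Pool.Agent.ISI.Base
import Pool.Agent.CST.Red
import Pool.Agent.EVT.Tame

/-!
# Definitions (part B of EveryTuple)

The curve `w + w⁻¹ = c ∏ (x - a i) + κ`, `i ≤ g`, over the line with coordinate `w`. Paper proof: /team-store/tuple_iso84.md.
-/

open scoped BigOperators Polynomial
open Polynomial

namespace Pool.Agent.ETI

open Pool.Agent.ETU Pool.Agent.CST Pool.Agent.Helper11 Pool.Agent.ISI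

/-- `T² - κ T + 1` -/
noncomputable def Dq (κ : ℤ) : ℤ[X] := X ^ 2 - C κ * X + 1

/-- the equation of `y = w x` over `ℚ(w)`: `∏ (Y - a i T) - c⁻¹ T ^ g (T² - κ T + 1)` -/
noncomputable def Ey {g : ℕ} (a : Fin (g + 1) → ℤ) (c κ : ℤ) : ℚ[X][X] :=
  ∏ i, (X - C (C (a i : ℚ) * X)) - C (C ((c : ℚ)⁻¹) * X ^ g * (Dq κ).map (Int.castRingHom ℚ))

/-- a field of `p`-adic numbers, henselian, unramified at the primes which divide `m` -/
structure Tm (p m : ℕ) [Fact p.Prime] (F : IntermediateField ℚ_[p] (PadicAlgCl p)) : Prop where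
  tame : Pool.Agent.EVT.IsTame p m F
  cop : m.Coprime (p * (p - 1))
  val : ∀ t ∈ F, t ≠ 0 → ∃ N : ℕ, N.Coprime m ∧ ∃ k : ℤ, ‖t‖ ^ N = ‖((p : ℕ) : PadicAlgCl p)‖ ^ k
  root : ∀ (t : PadicAlgCl p) (n : ℕ), 0 < n → t ^ n = 1 → t ∈ F
  hens : ∀ Q : (PadicAlgCl p)[X], (∀ i, Q.coeff i ∈ F) → (∀ i, ‖Q.coeff i‖ ≤ 1) →
    ∀ α : PadicAlgCl p, Q.IsRoot α → ‖α‖ ≤ 1 → ‖Q.derivative.eval α‖ = 1 → α ∈ F
  deg : ∀ (w : PadicAlgCl p) (h : ℤ), ‖w‖ ^ m = ‖((p : ℕ) : PadicAlgCl p)‖ ^ h →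
    IsCoprime h (m : ℤ) → ∀ R : (PadicAlgCl p)[X], R ≠ 0 → (∀ i, R.coeff i ∈ F) → R.IsRoot w →
      m ≤ R.natDegree

/-- good points -/
def GoodD (κ : ℤ) {r : ℕ} (f : Fin r → ℤ[X]) (a : Fin r → ℤ) {M : Type} [NormedField M]
    (α : M) : Prop :=
  Good f a α ∧ ‖aeval α (Dq κ)‖ = 1

/-- the bound for the degree of the exceptional points -/
noncomputable def Bd {r : ℕ} (f : Fin r → ℤ[X]) : ℕ :=
  (2 * (∑ i, (f i).natDegree + 3)).factorial *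
    ((∑ i, (f i).natDegree + 3) * ∑ i, (f i).natDegree)

/-- the zeros of `P` in the field of `p`-adic numbers are simple, `α` and `D(α)` are units there -/
def Nice (p : ℕ) [Fact p.Prime] (κ : ℤ) (P : ℚ[X]) : Prop :=
  (∀ i, ‖((P.coeff i : ℚ) : PadicAlgCl p)‖ ≤ 1) ∧ ∀ α : PadicAlgCl p, aeval α P = 0 →
    ‖α‖ = 1 ∧ ‖aeval α (Dq κ)‖ = 1 ∧ ‖aeval α (derivative P)‖ = 1

/-- the conditions on the primes -/
structure Prm (p : ℕ) [Fact p.Prime] {g : ℕ} (a : Fin (g + 1) → ℤ) (c κ : ℤ) {r : ℕ}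
    (f : Fin r → ℤ[X]) : Prop where
  cop : (g + 1).Coprime (p * (p - 1))
  val : (g + 1).Coprime (padicValInt p c)
  fam : Fam p f
  dis : ∀ i j, i ≠ j → ¬ (p : ℤ) ∣ a i - a j
  big : ∑ i, (f i).natDegree + 5 < p
  nice : ∀ P : ℚ[X], P.Monic → Irreducible P → ¬ P ∣ X →
    ¬ P ∣ (Dq κ).map (Int.castRingHom ℚ) →
    ((∃ j, P ∣ (f j).map (Int.castRingHom ℚ)) ∨
      (P.natDegree ≤ Bd f ∧ ∃ b : Fin r → ℤ, b ≠ 0 ∧ Rel f b P)) → Nice p κ P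

/-- the curve; `v` is the unit `w` -/
structure Crv {g : ℕ} (a : Fin (g + 1) → ℤ) (c κ : ℤ) {K : Type} [Field K] [CharZero K]
    (x : K) (v : Kˣ) : Prop where
  inj : Function.Injective a
  g0 : 0 < g
  c0 : c ≠ 0
  κ2 : |κ| ≤ 2
  tr : Transcendental ℚ x
  top : IntermediateField.adjoin ℚ {x, (v : K)} = ⊤
  eq : (v : K) + (v : K)⁻¹ = c * ∏ i, (x - a i) + κ

/-- `x - a l` as a unit -/
noncomputable def xa {g : ℕ} {K : Type} [Field K] [CharZero K] (x : K) (a : Fin (g + 1) → ℤ)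
    (l : Fin (g + 1)) : Kˣ := pz x (X - C (a l))

theorem xa_val {g : ℕ} {K : Type} [Field K] [CharZero K] {x : K} (hx : Transcendental ℚ x)
    (a : Fin (g + 1) → ℤ) (l : Fin (g + 1)) : (xa x a l : K) = x - a l := by
  unfold xa
  rw [pz_val hx (X_sub_C_ne_zero _)]
  simp

/-- `∏ (x - a l) ^ e l` -/
noncomputable def Hf {g : ℕ} {K : Type} [Field K] [CharZero K] (x : K) (a : Fin (g + 1) → ℤ)
    (e : Fin (g + 1) → ℤ) : Kˣ := ∏ l, xa x a l ^ e l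

end Pool.Agent.ETI
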