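import Pool.Agent.ETI.Defs
import Pool.Agent.EVT.Roots

/-!
# Existence of the field `F`

A maximal subfield all of whose values have a power prime to `m` which is a power of `|p|` (`EVT.exists_tame`).
-/

open scoped BigOperators Polynomial
open Polynomial

namespace Pool.Agent.ETI

open Pool.Agent.ETU

private def Tam_O (p : ℕ) [Fact p.Prime] : Subring (PadicAlgCl p) where
  carrier := {t | ‖t‖ ≤ 1}
  mul_mem' := by
    intro a b ha hb
    simp only [Set.mem_ofPred_eq, norm_mul] at *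
    exact mul_le_one₀ ha (norm_nonneg _) hb
  one_mem' := by simp
  add_mem' := by
    intro a b ha hb
    simp only [Set.mem_ofPred_eq] at *
    exact (IsUltrametricDist.norm_add_le_max a b).trans (max_le ha hb)
  zero_mem' := by simp
  neg_mem' := by
    intro a ha
    simp only [Set.mem_ofPred_eq, norm_neg] at *
    exact ha

private theorem Tam_tay {p : ℕ} [Fact p.Prime] {Q : (PadicAlgCl p)[X]}
    (hQ : ∀ i, ‖Q.coeff i‖ ≤ 1) {α β : PadicAlgCl p} (hα : ‖α‖ ≤ 1) (hβ : ‖β - α‖ < 1)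
    (h0 : Q.IsRoot α) (h1 : Q.IsRoot β) (h2 : ‖Q.derivative.eval α‖ = 1) : β = α := by
  have hc : (↑Q.coeffs : Set (PadicAlgCl p)) ⊆ Tam_O p := by
    intro t ht
    obtain ⟨i, _, rfl⟩ := Polynomial.mem_coeffs_iff.1 (Finset.mem_coe.1 ht)
    exact hQ i
  set H : (Tam_O p)[X] := Q.toSubring (Tam_O p) hc with hH
  have hmap : H.map (Subring.subtype (Tam_O p)) = Q := Q.map_toSubring (Tam_O p) hc
  let x : Tam_O p := ⟨α, hα⟩
  let y : Tam_O p := ⟨β - α, hβ.le⟩
  have hev : ∀ (G : (Tam_O p)[X]) (z : Tam_O p), ((G.eval z : Tam_O p) : PadicAlgCl p) =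
      (G.map (Subring.subtype (Tam_O p))).eval (z : PadicAlgCl p) := by
    intro G z
    rw [eval_map]
    exact (Polynomial.eval₂_at_apply (Subring.subtype (Tam_O p)) z).symm
  obtain ⟨k, hk⟩ := H.binomExpansion x y
  have h3 := congrArg (fun t : Tam_O p => (t : PadicAlgCl p)) hk
  simp only [Subring.coe_add, Subring.coe_mul, Subring.coe_pow] at h3
  rw [hev, hev, hev, ← derivative_map, hmap] at h3
  have hxy : ((x + y : Tam_O p) : PadicAlgCl p) = β := by
    change α + (β - α) = β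
    ring
  rw [hxy, h1.eq_zero] at h3
  change (0 : PadicAlgCl p) = Q.eval α + Q.derivative.eval α * (β - α) +
    (k : PadicAlgCl p) * (β - α) ^ 2 at h3
  rw [h0.eq_zero, zero_add] at h3
  by_contra hne
  have hne' : β - α ≠ 0 := sub_ne_zero.2 hne
  have h4 : Q.derivative.eval α = -((k : PadicAlgCl p) * (β - α)) := by
    have h5 : (Q.derivative.eval α + (k : PadicAlgCl p) * (β - α)) * (β - α) = 0 := by
      rw [h3]
      ring
    have h6 := (mul_eq_zero.1 h5).resolve_right hne'
    exact eq_neg_of_add_eq_zero_left h6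
  rw [h4, norm_neg, norm_mul] at h2
  have h7 : ‖(k : PadicAlgCl p)‖ * ‖β - α‖ < 1 :=
    (mul_le_of_le_one_left (norm_nonneg _) k.2).trans_lt hβ
  rw [h2] at h7
  exact lt_irrefl _ h7

theorem exists_tm {p m : ℕ} [Fact p.Prime] (hm : 1 < m) (hc : m.Coprime (p * (p - 1))) :
    ∃ F : IntermediateField ℚ_[p] (PadicAlgCl p), Tm p m F := by
  obtain ⟨F, hF⟩ := Pool.Agent.EVT.exists_tame p m
  have hpp : ‖((p : ℕ) : PadicAlgCl p)‖ = (p : ℝ)⁻¹ := Pool.Agent.EVT.norm_pp
  refine ⟨F, hF, hc, ?_, ?_, ?_, ?_⟩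
  · intro t ht ht0
    rcases hF.tm t ht with h | ⟨d, k, hd, hk⟩
    · exact absurd h ht0
    · refine ⟨d, hd, -k, ?_⟩
      rw [hk, hpp, inv_zpow, zpow_neg, inv_inv]
  · intro t n hn h
    exact hF.root hc hn h
  · intro Q hQ hQ1 α h0 hα h2
    refine Pool.Agent.EVT.mem_of_fixed α fun σ => ?_
    refine Tam_tay hQ1 hα (hF.iner σ α hα) h0 ?_ h2
    have h3 : Q.map ((σ : PadicAlgCl p →+* PadicAlgCl p)) = Q := by
      ext i
      rw [coeff_map]
      exact σ.commutes ⟨Q.coeff i, hQ i⟩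
    have h4 : (Q.map ((σ : PadicAlgCl p →+* PadicAlgCl p))).eval
        ((σ : PadicAlgCl p →+* PadicAlgCl p) α) = (σ : PadicAlgCl p →+* PadicAlgCl p) (Q.eval α) := by
      rw [eval_map, Polynomial.eval₂_at_apply]
    rw [h3, h0.eq_zero, map_zero] at h4
    exact h4
  · intro w h hw hh R hR hRF hr
    have h1 : m ∣ (minpoly F w).natDegree := by
      refine hF.wdeg (by omega) w (-h) hh.neg_left ?_
      rw [hw, hpp, inv_zpow, zpow_neg]
    have h2 : R ∈ Polynomial.lifts (algebraMap F (PadicAlgCl p)) := by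
      rw [Polynomial.lifts_iff_coeff_lifts]
      intro n
      exact ⟨⟨R.coeff n, hRF n⟩, rfl⟩
    obtain ⟨R', hR'⟩ := (Polynomial.mem_lifts _).1 h2
    have h3 : aeval w R' = 0 := by
      rw [aeval_def, ← eval_map, hR']
      exact hr
    have h4 : R' ≠ 0 := by
      rintro rfl
      rw [Polynomial.map_zero] at hR'
      exact hR hR'.symm
    have h5 : (minpoly F w).natDegree ≤ R'.natDegree :=
      natDegree_le_of_dvd (minpoly.dvd F w h3) h4
    have h6 : R'.natDegree = R.natDegree := by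
      rw [← hR']
      exact (natDegree_map_eq_of_injective (algebraMap F (PadicAlgCl p)).injective R').symm
    have h7 : 0 < (minpoly F w).natDegree := minpoly.natDegree_pos (Pool.Agent.EVT.isInt w)
    have h8 := Nat.le_of_dvd h7 h1
    omega

end Pool.Agent.ETI
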