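import Pool.Agent.ETI.Defs

/-!
# The tame symbol of an element of `LP x` and of the sum

Let `O` be a place over the zeros of `P` (where `x` is finite). Polynomials in `x` prime to `P` are units at `O`, and a
multiple of the tame symbol of a combination of symbols of polynomials in `x` is the symbol of a quotient `A / B` of
two polynomials prime to `P` (`vant_lp`). If the sum of the symbols `{u i, h i}` and of such a combination is unramified,
all `h i` are units and `u j` is the only `u i` which is not a unit, a power of `h j` has the same residue as `A / B`.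
-/

open scoped BigOperators Polynomial
open Polynomial

namespace Pool.Agent.ETI

open Pool.Agent.ETU Pool.Agent.CST Pool.Agent.Helper11 Pool.Agent.ISI

private theorem vant_le {K : Type} [Field K] [CharZero K] {x : K} {O : ValuationSubring K}
    (hO : IsPl O) (hxO : x ∈ O) (Q : ℚ[X]) : O.valuation (aeval x Q) ≤ 1 := by
  rw [O.valuation_le_one_iff, aeval_eq_sum_range]
  refine sum_mem fun i _ => ?_
  rw [Rat.smul_def]
  exact mul_mem (hO.2 _) (pow_mem hxO i)

private theorem vant_unit {K : Type} [Field K] [CharZero K] {x : K} {P : ℚ[X]}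
    (hP' : Irreducible P) {O : ValuationSubring K} (hO : IsPl O) (hxO : x ∈ O)
    (hv : O.valuation (aeval x P) < 1) {A : ℚ[X]} (hA : ¬ P ∣ A) :
    O.valuation (aeval x A) = 1 := by
  obtain ⟨c, b, hcb⟩ := (hP'.coprime_iff_not_dvd).2 hA
  have h1 : aeval x c * aeval x P + aeval x b * aeval x A = 1 := by
    rw [← map_mul, ← map_mul, ← map_add, hcb, map_one]
  have h2 : O.valuation (aeval x c * aeval x P) < 1 := by
    rw [map_mul]
    calc O.valuation (aeval x c) * O.valuation (aeval x P)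
        ≤ 1 * O.valuation (aeval x P) := mul_le_mul' (vant_le hO hxO c) le_rfl
      _ = O.valuation (aeval x P) := one_mul _
      _ < 1 := hv
  have h3 : aeval x b * aeval x A = 1 - aeval x c * aeval x P := by
    rw [← h1]
    ring
  have h4 : O.valuation (aeval x b * aeval x A) = 1 := by
    rw [h3]
    exact Valuation.map_one_sub_of_lt O.valuation h2
  refine le_antisymm (vant_le hO hxO A) ?_
  calc (1 : _) = O.valuation (aeval x b) * O.valuation (aeval x A) := by rw [← map_mul, h4]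
    _ ≤ 1 * O.valuation (aeval x A) := mul_le_mul' (vant_le hO hxO b) le_rfl
    _ = O.valuation (aeval x A) := one_mul _

private theorem vant_ne {P A : ℚ[X]} (hA : ¬ P ∣ A) : A ≠ 0 := by
  rintro rfl
  exact hA (dvd_zero P)

private theorem vant_pow {P A : ℚ[X]} (hP' : Irreducible P) (hA : ¬ P ∣ A) (n : ℕ) :
    ¬ P ∣ A ^ n := fun h => hA (hP'.prime.dvd_of_dvd_pow h)

private theorem vant_mul {P A B : ℚ[X]} (hP' : Irreducible P) (hA : ¬ P ∣ A) (hB : ¬ P ∣ B) :
    ¬ P ∣ A * B := fun h => (hP'.prime.dvd_or_dvd h).elim hA hB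

private theorem vant_sypow {K : Type} [Field K] (p u : Kˣ) (n : ℕ) :
    sy p (u ^ n) = (n : ℚ) • sy p u := by
  rw [← zpow_natCast, sy_zpow_right]
  norm_cast

private theorem vant_syM {K : Type} [Field K] [CharZero K] {x : K} (hx : Transcendental ℚ x)
    {V : Type} [AddCommGroup V] [Module ℚ V] (τ : KMQ K 2 →ₗ[ℚ] V) (p : Kˣ) {A B : ℚ[X]}
    (hA : A ≠ 0) (hB : B ≠ 0) :
    τ (sy p (pq x (A * B))) = τ (sy p (pq x A)) + τ (sy p (pq x B)) := by
  rw [pq_mul hx hA hB, sy_mul_right, map_add]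

private theorem vant_syP {K : Type} [Field K] [CharZero K] {x : K} (hx : Transcendental ℚ x)
    {V : Type} [AddCommGroup V] [Module ℚ V] (τ : KMQ K 2 →ₗ[ℚ] V) (p : Kˣ) {A : ℚ[X]}
    (hA : A ≠ 0) (n : ℕ) :
    τ (sy p (pq x (A ^ n))) = (n : ℚ) • τ (sy p (pq x A)) := by
  rw [pq_pow hx hA, vant_sypow, map_smul]

private theorem vant_lp {K : Type} [Field K] [CharZero K] {x : K} (hx : Transcendental ℚ x)
    {P : ℚ[X]} (hP' : Irreducible P) {O : ValuationSubring K} (hO : IsPl O)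
    (hxO : x ∈ O) (hv : O.valuation (aeval x P) < 1) {V : Type} [AddCommGroup V] [Module ℚ V]
    {χ : Kˣ → V} {τ : KMQ K 2 →ₗ[ℚ] V} {ord : Kˣ → ℤ} {p : Kˣ} (hord : IsOrd O p ord)
    (h1 : ∀ y : Kˣ, ∀ u ∈ O.unitGroup, τ (sy y u) = (ord y : ℚ) • χ u) {β : KMQ K 2}
    (hβ : β ∈ LP x) :
    ∃ (M : ℕ) (A B : ℚ[X]), 0 < M ∧ ¬ P ∣ A ∧ ¬ P ∣ B ∧
      (M : ℚ) • τ β = τ (sy p (pq x A)) - τ (sy p (pq x B)) := by
  have hun : ∀ A : ℚ[X], ¬ P ∣ A → pq x A ∈ O.unitGroup := by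
    intro A hA
    rw [O.mem_unitGroup_iff, pq_val hx (vant_ne hA)]
    exact vant_unit hP' hO hxO hv hA
  have hone : ¬ P ∣ (1 : ℚ[X]) := fun h => hP'.not_isUnit (isUnit_of_dvd_one h)
  have hχ : ∀ u ∈ O.unitGroup, χ u = τ (sy p u) := by
    intro u hu
    rw [h1 p u hu, hord.uniformizer, Int.cast_one, one_smul]
  unfold LP at hβ
  induction hβ using Submodule.span_induction with
  | mem z hz =>
    obtain ⟨a, b, ha, hb, rfl⟩ := hz
    obtain ⟨m, a', ha', rfl⟩ := WfDvdMonoid.max_power_factor ha hP'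
    obtain ⟨n, b', hb', rfl⟩ := WfDvdMonoid.max_power_factor hb hP'
    have hP0 := hP'.ne_zero
    have ha0 := vant_ne ha'
    have hb0 := vant_ne hb'
    have he : 0 < ord (pq x P) := by
      rw [← hord.lt_one_iff, pq_val hx hP0]
      exact hv
    obtain ⟨e, he'⟩ : ∃ e : ℕ, ord (pq x P) = e := ⟨(ord (pq x P)).toNat, by omega⟩
    refine ⟨1, b' ^ (m * e), a' ^ (n * e), one_pos, vant_pow hP' hb' _, vant_pow hP' ha' _, ?_⟩
    have e1 : τ (sy (pq x P ^ m) (pq x b')) = ((m * e : ℕ) : ℚ) • τ (sy p (pq x b')) := by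
      rw [h1 _ _ (hun _ hb'), hord.pow, he', hχ _ (hun _ hb')]
      push_cast
      rfl
    have e2 : τ (sy (pq x a') (pq x P ^ n)) = -(((n * e : ℕ) : ℚ) • τ (sy p (pq x a'))) := by
      rw [sy_anti, map_neg, h1 _ _ (hun _ ha'), hord.pow, he', hχ _ (hun _ ha')]
      push_cast
      rfl
    have e3 : τ (sy (pq x a') (pq x b')) = 0 := by
      rw [h1 _ _ (hun _ hb'), (hord.eq_one_iff _).1 ((O.mem_unitGroup_iff _).1 (hun _ ha')),
        Int.cast_zero, zero_smul]
    have e4 : sy (pq x P ^ m) (pq x P ^ n) = 0 := by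
      rw [vant_sypow, sy_anti, vant_sypow, sy_self, smul_zero, neg_zero, smul_zero]
    rw [pq_mul hx (pow_ne_zero m hP0) ha0, pq_mul hx (pow_ne_zero n hP0) hb0, pq_pow hx hP0,
      pq_pow hx hP0, sy_mul_left, sy_mul_right, sy_mul_right, e4, zero_add, map_add, map_add, e1,
      e2, e3, add_zero, vant_syP hx τ p hb0, vant_syP hx τ p ha0, Nat.cast_one, one_smul,
      sub_eq_add_neg]
  | zero => exact ⟨1, 1, 1, one_pos, hone, hone, by rw [map_zero, smul_zero, sub_self]⟩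
  | add y z _ _ hy hz =>
    obtain ⟨M, A, B, hM, hA, hB, h⟩ := hy
    obtain ⟨M', A', B', hM', hA', hB', h'⟩ := hz
    refine ⟨M * M', A ^ M' * A' ^ M, B ^ M' * B' ^ M, Nat.mul_pos hM hM',
      vant_mul hP' (vant_pow hP' hA _) (vant_pow hP' hA' _),
      vant_mul hP' (vant_pow hP' hB _) (vant_pow hP' hB' _), ?_⟩
    have h2 : ((M * M' : ℕ) : ℚ) • τ (y + z) =
        (M' : ℚ) • ((M : ℚ) • τ y) + (M : ℚ) • ((M' : ℚ) • τ z) := by
      rw [map_add, smul_add, smul_smul, smul_smul]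
      push_cast
      rw [mul_comm (M' : ℚ) (M : ℚ)]
    rw [h2, h, h', vant_syM hx τ p (pow_ne_zero _ (vant_ne hA)) (pow_ne_zero _ (vant_ne hA')),
      vant_syM hx τ p (pow_ne_zero _ (vant_ne hB)) (pow_ne_zero _ (vant_ne hB')),
      vant_syP hx τ p (vant_ne hA), vant_syP hx τ p (vant_ne hA'),
      vant_syP hx τ p (vant_ne hB), vant_syP hx τ p (vant_ne hB'), smul_sub, smul_sub]
    abel
  | smul q y _ hy =>
    obtain ⟨M, A, B, hM, hA, hB, h⟩ := hy
    have hq : (q.den : ℚ) ≠ 0 := by exact_mod_cast q.den_nz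
    have h2 : ((M * q.den : ℕ) : ℚ) • τ (q • y) = (q.num : ℚ) • ((M : ℚ) • τ y) := by
      rw [map_smul, smul_smul, smul_smul]
      congr 1
      push_cast
      have h3 : (q.num : ℚ) = q * q.den := (Rat.mul_den_eq_num q).symm
      rw [h3]
      ring
    rcases Int.eq_nat_or_neg q.num with ⟨k, hk | hk⟩
    · refine ⟨M * q.den, A ^ k, B ^ k, Nat.mul_pos hM q.den_pos, vant_pow hP' hA _,
        vant_pow hP' hB _, ?_⟩
      rw [h2, h, hk, vant_syP hx τ p (vant_ne hA), vant_syP hx τ p (vant_ne hB), smul_sub]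
      norm_cast
    · refine ⟨M * q.den, B ^ k, A ^ k, Nat.mul_pos hM q.den_pos, vant_pow hP' hB _,
        vant_pow hP' hA _, ?_⟩
      rw [h2, h, hk, vant_syP hx τ p (vant_ne hA), vant_syP hx τ p (vant_ne hB), Int.cast_neg,
        neg_smul, smul_sub, neg_sub]
      norm_cast

private theorem vant_fin {K : Type} [Field K] [CharZero K] {x : K} (hx : Transcendental ℚ x)
    {P : ℚ[X]} (hP' : Irreducible P) {O : ValuationSubring K} (hO : IsPl O)
    (hxO : x ∈ O) (hv : O.valuation (aeval x P) < 1) {V : Type} [AddCommGroup V] [Module ℚ V]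
    {χ : Kˣ → V} {τ : KMQ K 2 →ₗ[ℚ] V} {ord : Kˣ → ℤ} {p : Kˣ} (hord : IsOrd O p ord)
    (h1 : ∀ y : Kˣ, ∀ u ∈ O.unitGroup, τ (sy y u) = (ord y : ℚ) • χ u)
    (h3 : ∀ u ∈ O.unitGroup, χ u = 0 → ∃ m : ℕ, m ≠ 0 ∧ O.valuation ((u : K) ^ m - 1) < 1)
    {h : Kˣ} (hh : O.valuation (h : K) = 1) {k : ℕ} (hk : 0 < k) {A B : ℚ[X]} (hA : ¬ P ∣ A)
    (hB : ¬ P ∣ B) (hs : (k : ℚ) • τ (sy p h) + τ (sy p (pq x A)) - τ (sy p (pq x B)) = 0) :
    ∃ (M : ℕ) (A B : ℚ[X]), 0 < M ∧ ¬ P ∣ A ∧ ¬ P ∣ B ∧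
      O.valuation ((h : K) ^ M * aeval x B - aeval x A) < 1 := by
  have hun : ∀ A : ℚ[X], ¬ P ∣ A → pq x A ∈ O.unitGroup := by
    intro A hA
    rw [O.mem_unitGroup_iff, pq_val hx (vant_ne hA)]
    exact vant_unit hP' hO hxO hv hA
  have hhu : h ∈ O.unitGroup := (O.mem_unitGroup_iff h).2 hh
  set u : Kˣ := h ^ k * pq x A / pq x B with hu
  have huu : u ∈ O.unitGroup := div_mem (mul_mem (pow_mem hhu k) (hun _ hA)) (hun _ hB)
  have h4 : χ u = 0 := by
    have h5 : τ (sy p u) = χ u := by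
      rw [h1 p u huu, hord.uniformizer, Int.cast_one, one_smul]
    rw [← h5, hu, sy_div_right, sy_mul_right, vant_sypow, map_sub, map_add, map_smul, hs]
  obtain ⟨m, hm, h5⟩ := h3 u huu h4
  refine ⟨k * m, B ^ m, A ^ m, Nat.mul_pos hk (Nat.pos_of_ne_zero hm), vant_pow hP' hB _,
    vant_pow hP' hA _, ?_⟩
  have hB1 : O.valuation (aeval x B) = 1 := vant_unit hP' hO hxO hv hB
  have hB0 : aeval x B ≠ 0 := aeval_ne hx (vant_ne hB)
  have h6 : (h : K) ^ (k * m) * aeval x (A ^ m) - aeval x (B ^ m) =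
      ((u : K) ^ m - 1) * aeval x B ^ m := by
    rw [hu, Units.val_div_eq_div_val, Units.val_mul, Units.val_pow_eq_pow_val,
      pq_val hx (vant_ne hA), pq_val hx (vant_ne hB), map_pow, map_pow, div_pow, mul_pow,
      sub_mul, div_mul_cancel₀ _ (pow_ne_zero m hB0), one_mul, pow_mul]
  rw [h6, map_mul, map_pow, hB1, one_pow, mul_one]
  exact h5

theorem van_tame {K : Type} [Field K] [CharZero K] {x : K} (hx : Transcendental ℚ x)
    {P : ℚ[X]} (hP : P.Monic) (hP' : Irreducible P) {O : ValuationSubring K} (hO : IsPl O)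
    (hxO : x ∈ O) (hv : O.valuation (aeval x P) < 1) {r : ℕ} {u h : Fin r → Kˣ} {j : Fin r}
    (huj : O.valuation (u j : K) ≠ 1) (hui : ∀ i, i ≠ j → O.valuation (u i : K) = 1)
    (hh : ∀ i, O.valuation (h i : K) = 1) {z β : KMQ K 2} {N : ℕ} (hβ : β ∈ LP x)
    (hz : (N : ℚ) • z = ∑ i, sy (u i) (h i) + β) (hzO : z ∈ unrM O 2) :
    ∃ (M : ℕ) (A B : ℚ[X]), 0 < M ∧ ¬ P ∣ A ∧ ¬ P ∣ B ∧
      O.valuation ((h j : K) ^ M * aeval x B - aeval x A) < 1 := by
  have _ := hP
  have hdvr := hO.1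
  obtain ⟨V, _, _, χ, τ, ord, p, hord, h1, h2, h3⟩ := exists_tameT O
  obtain ⟨M, A, B, hM, hA, hB, hβ'⟩ := vant_lp hx hP' hO hxO hv hord h1 hβ
  have hsum : ∑ i, τ (sy (u i) (h i)) = (ord (u j) : ℚ) • τ (sy p (h j)) := by
    rw [Finset.sum_eq_single j]
    · have hj := (O.mem_unitGroup_iff (h j)).2 (hh j)
      rw [h1 _ _ hj, h1 _ _ hj, hord.uniformizer, Int.cast_one, one_smul]
    · intro i _ hij
      rw [h1 _ _ ((O.mem_unitGroup_iff (h i)).2 (hh i)), (hord.eq_one_iff _).1 (hui i hij),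
        Int.cast_zero, zero_smul]
    · intro hj
      exact absurd (Finset.mem_univ j) hj
  have h4 : (ord (u j) : ℚ) • τ (sy p (h j)) + τ β = 0 := by
    have h5 := congrArg τ hz
    rw [map_smul, h2 z hzO, smul_zero, map_add, map_sum, hsum] at h5
    exact h5.symm
  have h5 : ((M : ℚ) * (ord (u j) : ℚ)) • τ (sy p (h j)) + τ (sy p (pq x A)) -
      τ (sy p (pq x B)) = 0 := by
    have h6 := congrArg (fun y => (M : ℚ) • y) h4
    simp only [smul_add, smul_zero, smul_smul] at h6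
    rw [hβ'] at h6
    rw [← h6]
    abel
  have hne : ord (u j) ≠ 0 := fun h0 => huj ((hord.eq_one_iff _).2 h0)
  rcases Int.eq_nat_or_neg (ord (u j)) with ⟨k, hk | hk⟩
  · have hk0 : 0 < k := by omega
    refine vant_fin hx hP' hO hxO hv hord h1 h3 (hh j) (Nat.mul_pos hM hk0) hA hB ?_
    rw [← h5, hk]
    push_cast
    rfl
  · have hk0 : 0 < k := by omega
    refine vant_fin hx hP' hO hxO hv hord h1 h3 (hh j) (Nat.mul_pos hM hk0) hB hA ?_
    have h6 : ((M * k : ℕ) : ℚ) • τ (sy p (h j)) + τ (sy p (pq x B)) - τ (sy p (pq x A)) =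
        -(((M : ℚ) * (ord (u j) : ℚ)) • τ (sy p (h j)) + τ (sy p (pq x A)) -
          τ (sy p (pq x B))) := by
      rw [hk]
      push_cast
      rw [mul_neg, neg_smul]
      abel
    rw [h6, h5, neg_zero]

end Pool.Agent.ETI
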