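import Pool.Agent.CS2.Stm
import Pool.Agent.Helper11.Defs

/-! # Definitions for the statement of TupleIso -/

namespace Pool.Agent.ETI

open Polynomial Pool.Agent.ISG Pool.Agent.CST Pool.Agent.CS2

/-- `{w, K*} + {f_1(w), K*} + … + {f_s(w), K*} + K_2(ℚ(w))` in `K_2(K) ⊗ ℚ`: the span of the
symbols `{u, h}` of elements `u, h` of `K*` such that `u` is `w` or one of the `f_j(w)`, or both `u`
and `h` are in `ℚ(w)`. -/
noncomputable def wSlices {K : Type} [Field K] [CharZero K] (w : K) {s : ℕ} (f : Fin s → ℤ[X]) :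
    Submodule ℚ (K2Q K) :=
  Submodule.span ℚ {z | ∃ u h : Kˣ, ((u : K) = w ∨ (∃ j, (u : K) = aeval w (f j)) ∨
    ((u : K) ∈ IntermediateField.adjoin ℚ {w} ∧ (h : K) ∈ IntermediateField.adjoin ℚ {w})) ∧
    z = sb u h}

/-- `p` is a prime number, and `(p - 1) v_p(c)` is prime to `g + 1`. -/
def GoodPrime (g : ℕ) (c : ℤ) (p : ℕ) : Prop :=
  p.Prime ∧ (g + 1).Coprime ((p - 1) * padicValInt p c)

/-- The vectors of the regulators of the `z i` along finitely many loops are linearly independent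
over `ℝ`. -/
def IndependentRegulators {K : Type} [Field K] {g : ℕ} (z : Fin g → K2Q K) : Prop :=
  ∃ (n : ℕ) (R : Fin n → (K2Q K →ₗ[ℚ] ℝ)),
    (∀ j, ∃ γ : K →+* Helper11.LoopRing, ∀ s t : Kˣ,
      R j (sb s t) = Helper11.regInt (γ (s : K) : ℝ → ℂ) (γ (t : K) : ℝ → ℂ)) ∧
    LinearIndependent ℝ fun (i : Fin g) (j : Fin n) => R j (z i)

theorem wSlices_eq {K : Type} [Field K] [CharZero K] {s : ℕ} (f : Fin s → ℤ[X]) (v : Kˣ)
    (u : Fin s → Kˣ) (hu : ∀ j, (u j : K) = aeval (v : K) (f j)) :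
    wSlices (v : K) f = slice v ⊔ (⨆ j, slice (u j)) ⊔ ratSlice v := by
  apply le_antisymm
  · refine Submodule.span_le.2 ?_
    rintro z ⟨a, h, h1 | ⟨j, h1⟩ | ⟨h1, h2⟩, rfl⟩
    · have h3 : a = v := Units.ext h1
      rw [h3]
      exact Submodule.mem_sup_left (Submodule.mem_sup_left (Submodule.subset_span ⟨h, rfl⟩))
    · have h3 : a = u j := Units.ext (by rw [h1, hu j])
      rw [h3]
      exact Submodule.mem_sup_left (Submodule.mem_sup_right
        (Submodule.mem_iSup_of_mem j (Submodule.subset_span ⟨h, rfl⟩)))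
    · exact Submodule.mem_sup_right (Submodule.subset_span ⟨a, h, h1, h2, rfl⟩)
  · refine sup_le (sup_le (Submodule.span_le.2 ?_) (iSup_le fun j => Submodule.span_le.2 ?_))
      (Submodule.span_le.2 ?_)
    · rintro z ⟨h, rfl⟩
      exact Submodule.subset_span ⟨v, h, Or.inl rfl, rfl⟩
    · rintro z ⟨h, rfl⟩
      exact Submodule.subset_span ⟨u j, h, Or.inr (Or.inl ⟨j, hu j⟩), rfl⟩
    · rintro z ⟨a, h, h1, h2, rfl⟩
      exact Submodule.subset_span ⟨a, h, Or.inr (Or.inr ⟨h1, h2⟩), rfl⟩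

end Pool.Agent.ETI
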