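import Pool.Agent.ETI.Defs
import Pool.Agent.ETU.Deg

/-!
# MODULE ETI-CnD : the number of bad points with a given root of unity

The same proof as that of `count_bad` in `ETU/Deg.lean` (with `count_inf`, `count_fin`), for the
polynomial `X * Np f b * Dq κ` of degree at most `S + 2`: `S + (S + 2) S = (S + 3) S`.
-/

open scoped BigOperators Polynomial
open Polynomial

namespace Pool.Agent.ETI

open Pool.Agent.ETU

private theorem CnD_monic (κ : ℤ) : (Dq κ).Monic := by
  unfold Dq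
  monicity!

private theorem CnD_deg (κ : ℤ) : (Dq κ).natDegree ≤ 2 := by
  unfold Dq
  compute_degree

private theorem CnD_pos {p r : ℕ} {f : Fin r → ℤ[X]} (hf : Fam p f) {b : Fin r → ℤ}
    (hb : ∃ i, ¬ (p : ℤ) ∣ b i) : 0 < ∑ i, (f i).natDegree := by
  obtain ⟨i, -⟩ := hb
  exact (hf.pos i).trans_le
    (Finset.single_le_sum (f := fun i => (f i).natDegree) (fun _ _ => Nat.zero_le _)
      (Finset.mem_univ i))

/-- the residue of a bad point -/
private theorem CnD_root {p r : ℕ} [Fact p.Prime] {M : Type} [NormedField M] {R : Subring M}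
    {κ : Type} [Field κ] [CharP κ p] (φ : R →+* κ) (h0 : ∀ x : R, φ x = 0 ↔ ‖(x : M)‖ < 1)
    (hR : ∀ x : M, x ∈ R ↔ ‖x‖ ≤ 1) {k : ℤ} {f : Fin r → ℤ[X]} {b : Fin r → ℤ} (t : R)
    (ht : ¬ GoodD k f b (t : M)) :
    (((X * Np f b * Dq k).map (Int.castRingHom (ZMod p))).map
      (ZMod.castHom (dvd_refl p) κ)).eval (φ t) = 0 := by
  rw [eval_map, Polynomial.map_mul, Polynomial.map_mul, Polynomial.map_X, eval₂_mul, eval₂_mul,
    eval₂_X]
  obtain ⟨y, hy, hy'⟩ := aeval_residue φ t (Np f b)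
  obtain ⟨z, hz, hz'⟩ := aeval_residue φ t (Dq k)
  rw [← hy', ← hz', mul_eq_zero, mul_eq_zero]
  by_cases h1 : ‖(t : M)‖ < 1
  · exact Or.inl (Or.inl ((h0 t).2 h1))
  · have h2 : ‖(t : M)‖ = 1 := le_antisymm ((hR _).1 t.2) (not_lt.1 h1)
    by_cases h3 : ‖(y : M)‖ = 1
    · right
      refine (h0 z).2 (lt_of_le_of_ne ((hR _).1 z.2) fun h4 => ht ⟨⟨h2, ?_⟩, ?_⟩)
      · rw [← hy]
        exact h3
      · rw [← hz]
        exact h4
    · exact Or.inl (Or.inr ((h0 y).2 (lt_of_le_of_ne ((hR _).1 y.2) h3)))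

theorem count_badD {p : ℕ} (hp : p.Prime) {M : Type} [NormedField M] [CharZero M] (hna : NA p M)
    {r : ℕ} {f : Fin r → ℤ[X]} (hf : Fam p f) {b : Fin r → ℤ} (hb : ∃ i, ¬ (p : ℤ) ∣ b i)
    (κ : ℤ) {ζ : M} (hζ : ‖ζ‖ = 1) (T : Finset M) (h1 : ∀ t ∈ T, ¬ GoodD κ f b t)
    (h2 : ∀ t ∈ T, aeval t (Ap f b) = ζ * aeval t (Ap f (-b))) :
    T.card ≤ (∑ i, (f i).natDegree + 3) * ∑ i, (f i).natDegree := by
  classical
  have : Fact p.Prime := ⟨hp⟩
  set D := ∑ i, (f i).natDegree with hD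
  have hD0 : 0 < D := CnD_pos hf hb
  obtain ⟨R, k, _, _, φ, hR, h0, -⟩ := exists_residue hp hna
  have hinf : (T.filter fun t => 1 < ‖t‖).card ≤ D :=
    count_inf hp hna hf hb hζ _ (fun t ht => (Finset.mem_filter.1 ht).2)
      fun t ht => h2 t (Finset.mem_filter.1 ht).1
  let q : k[X] :=
    ((X * Np f b * Dq κ).map (Int.castRingHom (ZMod p))).map (ZMod.castHom (dvd_refl p) k)
  have hq0 : q ≠ 0 := by
    have h3 : (X * Np f b * Dq κ).map (Int.castRingHom (ZMod p)) ≠ 0 := by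
      rw [Polynomial.map_mul, Polynomial.map_mul, Polynomial.map_X]
      exact mul_ne_zero (mul_ne_zero X_ne_zero (Np_ne hp hf hb))
        ((CnD_monic κ).map _).ne_zero
    exact (Polynomial.map_ne_zero_iff (RingHom.injective _)).2 h3
  have hqd : q.natDegree ≤ D + 2 := by
    refine natDegree_map_le.trans (natDegree_map_le.trans ?_)
    refine natDegree_mul_le.trans ?_
    refine Nat.add_le_add ?_ (CnD_deg κ)
    refine natDegree_mul_le.trans ?_
    rw [natDegree_X]
    have := Np_natDegree f b hD0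
    omega
  let ρ : M → k := fun t => if h : ‖t‖ ≤ 1 then φ ⟨t, (hR t).2 h⟩ else 0
  have hρ : ∀ (t : M) (h : ‖t‖ ≤ 1), ρ t = φ ⟨t, (hR t).2 h⟩ := fun t h => dif_pos h
  have hfin : (T.filter fun t => ¬ 1 < ‖t‖).card ≤ D * (D + 2) := by
    have h3 : (T.filter fun t => ¬ 1 < ‖t‖).card ≤
        D * ((T.filter fun t => ¬ 1 < ‖t‖).image ρ).card := by
      refine Finset.card_le_mul_card_image _ _ fun z _ => ?_
      refine count_fin hp hna hf hb hζ _ (fun t ht => ?_) (fun t ht => ?_) fun t ht t' ht' => ?_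
      · exact not_lt.1 (Finset.mem_filter.1 (Finset.mem_filter.1 ht).1).2
      · exact h2 t (Finset.mem_filter.1 (Finset.mem_filter.1 ht).1).1
      · have h4 := not_lt.1 (Finset.mem_filter.1 (Finset.mem_filter.1 ht).1).2
        have h5 := not_lt.1 (Finset.mem_filter.1 (Finset.mem_filter.1 ht').1).2
        have h6 := (Finset.mem_filter.1 ht).2
        have h7 := (Finset.mem_filter.1 ht').2
        rw [hρ t h4] at h6
        rw [hρ t' h5] at h7
        have h8 : φ (⟨t, (hR t).2 h4⟩ - ⟨t', (hR t').2 h5⟩) = 0 := by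
          rw [map_sub, h6, h7, sub_self]
        exact (h0 _).1 h8
    refine h3.trans (Nat.mul_le_mul_left _ ?_)
    have h4 : (T.filter fun t => ¬ 1 < ‖t‖).image ρ ⊆ q.roots.toFinset := by
      intro z hz
      obtain ⟨t, ht, rfl⟩ := Finset.mem_image.1 hz
      have h5 := not_lt.1 (Finset.mem_filter.1 ht).2
      rw [Multiset.mem_toFinset, mem_roots hq0, hρ t h5]
      exact CnD_root φ h0 hR ⟨t, (hR t).2 h5⟩ (h1 t (Finset.mem_filter.1 ht).1)
    exact ((Finset.card_le_card h4).trans (Multiset.toFinset_card_le _)).trans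
      ((card_roots' q).trans hqd)
  have h3 := Finset.card_filter_add_card_filter_not (s := T) fun t => 1 < ‖t‖
  calc T.card = (T.filter fun t => 1 < ‖t‖).card + (T.filter fun t => ¬ 1 < ‖t‖).card := h3.symm
    _ ≤ D + D * (D + 2) := Nat.add_le_add hinf hfin
    _ = (D + 3) * D := by ring

end Pool.Agent.ETI
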