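import Mathlib

/-!
# All primitive roots of unity occur

`ζ = A(α)/B(α)` has as minimal polynomial over `ℚ` the cyclotomic polynomial, so there is an embedding of
`ℚ(α)` into `M` which maps `ζ` to `ξ`; `α'` is the image of `α`.
-/

open scoped BigOperators Polynomial
open Polynomial

namespace Pool.Agent.ETI

theorem conj_root {M : Type} [Field M] [CharZero M] [IsAlgClosed M] {P : ℚ[X]} (hP : P ≠ 0)
    {α : M} (hα : aeval α P = 0) {A B : ℤ[X]} (hB : aeval α B ≠ 0) {n : ℕ} (hn : 0 < n)
    (hζ : IsPrimitiveRoot (aeval α A / aeval α B) n) {ξ : M} (hξ : IsPrimitiveRoot ξ n) :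
    ∃ α' : M, aeval α' P = 0 ∧ aeval α' B ≠ 0 ∧ aeval α' A = ξ * aeval α' B := by
  have hint : IsIntegral ℚ α := (isAlgebraic_iff_isIntegral).1 ⟨P, hP, hα⟩
  let L : IntermediateField ℚ M := IntermediateField.adjoin ℚ {α}
  have hαL : α ∈ L := IntermediateField.mem_adjoin_simple_self ℚ α
  let a : L := ⟨α, hαL⟩
  have hval : ∀ Q : ℤ[X], ((aeval a Q : L) : M) = aeval α Q := fun Q =>
    (aeval_algebraMap_apply M a Q).symm
  have hx : aeval α A / aeval α B ∈ L := by
    rw [← hval A, ← hval B]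
    exact div_mem (aeval a A).2 (aeval a B).2
  have hy : aeval ξ (minpoly ℚ (aeval α A / aeval α B)) = 0 := by
    rw [← cyclotomic_eq_minpoly_rat hζ hn, aeval_def, eval₂_eq_eval_map, map_cyclotomic]
    exact hξ.isRoot_cyclotomic hn
  obtain ⟨φ, hφ⟩ := IntermediateField.exists_algHom_adjoin_of_splits_of_aeval
    (F := ℚ) (E := M) (K := M) (S := {α}) (fun s hs => by
      rw [Set.mem_singleton_iff] at hs
      subst hs
      exact ⟨hint, IsAlgClosed.splits _⟩) hx hy
  have hφi : Function.Injective φ := φ.toRingHom.injective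
  have hφv : ∀ Q : ℤ[X], aeval (φ a) Q = φ (aeval a Q) := fun Q => by
    have h1 := Polynomial.hom_eval₂ Q (algebraMap ℤ L) (φ : L →+* M) a
    have h2 : (φ : L →+* M).comp (algebraMap ℤ L) = algebraMap ℤ M := RingHom.ext_int _ _
    rw [h2] at h1
    exact h1.symm
  refine ⟨φ a, ?_, ?_, ?_⟩
  · rw [aeval_algHom_apply]
    have h1 : ((aeval a P : L) : M) = 0 := by
      rw [← hα]
      exact (aeval_algebraMap_apply M a P).symm
    have h2 : (aeval a P : L) = 0 := Subtype.ext h1
    rw [h2, map_zero]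
  · rw [hφv]
    intro h0
    have h1 : aeval a B = 0 := hφi (h0.trans (map_zero φ).symm)
    apply hB
    rw [← hval B, h1]
    rfl
  · rw [hφv, hφv, ← hφ, ← map_mul]
    congr 1
    apply Subtype.ext
    change ((aeval a A : L) : M) = (aeval α A / aeval α B) * ((aeval a B : L) : M)
    rw [hval, hval, div_mul_cancel₀ _ hB]

end Pool.Agent.ETI
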