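import Pool.Agent.ETI.Defs
import Pool.Agent.ETU.Deg
import Pool.Agent.ETU.Rts

/-!
# Few residues, few roots of unity

For a primitive `n'`-th root of unity `η` the product of `η` and of a primitive `p ^ k`-th root of unity has the same
residue as `η`; it is the value at a point which is not good. The class of this point (infinity, or its residue)
determines the residue of `η`, hence `η`, and the residue is a zero of `X * Np f b * D`.
-/

open scoped BigOperators Polynomial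
open Polynomial

namespace Pool.Agent.ETI

open Pool.Agent.ETU

private noncomputable def totR {p : ℕ} {κ : Type} [Field κ] [CharP κ p] (q : ℤ[X]) : κ[X] :=
  (q.map (Int.castRingHom (ZMod p))).map (ZMod.castHom (dvd_refl p) κ)

private theorem tot_pole {p : ℕ} {M : Type} [NormedField M] {R : Subring M} {κ : Type}
    [Field κ] [CharP κ p] (φ : R →+* κ) (hR : ∀ x : M, x ∈ R ↔ ‖x‖ ≤ 1)
    (hφ : ∀ x : R, φ x = 0 ↔ ‖(x : M)‖ < 1) (A : ℤ[X]) (hA : A.Monic) (t : M) (ht : 1 < ‖t‖) :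
    ∃ y : R, φ y = 1 ∧ aeval t A = (y : M) * t ^ A.natDegree := by
  have ht0 : t ≠ 0 := by
    rintro rfl
    simp at ht
    exact absurd ht (by norm_num)
  have hs : t⁻¹ ∈ R := by
    rw [hR, norm_inv]
    exact inv_le_one_of_one_le₀ ht.le
  have hs0 : φ ⟨t⁻¹, hs⟩ = 0 := by
    rw [hφ]
    change ‖t⁻¹‖ < 1
    rw [norm_inv]
    exact inv_lt_one_of_one_lt₀ ht
  obtain ⟨y, hy1, hy2⟩ := aeval_residue (p := p) φ ⟨t⁻¹, hs⟩ A.reverse
  rw [hs0] at hy2
  have hy3 : φ y = 1 := by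
    rw [hy2, Polynomial.eval₂_at_zero, Polynomial.coeff_map, Polynomial.coeff_zero_reverse,
      hA.leadingCoeff]
    simp
  refine ⟨y, hy3, ?_⟩
  have : Invertible t := invertibleOfNonzero ht0
  have h5 := Polynomial.eval₂_reverse_mul_pow (algebraMap ℤ M) t A
  have h6 : (⅟t : M) = t⁻¹ := invOf_eq_inv t
  rw [h6] at h5
  rw [hy1]
  exact h5.symm

private theorem tot_unit {M : Type} [NormedField M] {R : Subring M} {κ : Type}
    [Field κ] (φ : R →+* κ) (hR : ∀ x : M, x ∈ R ↔ ‖x‖ ≤ 1)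
    (hφ : ∀ x : R, φ x = 0 ↔ ‖(x : M)‖ < 1) {y : R} (hy : φ y ≠ 0) : ‖(y : M)‖ = 1 :=
  le_antisymm ((hR _).1 y.2) (not_lt.1 fun h => hy ((hφ y).2 h))

private theorem tot_ev {p : ℕ} {M : Type} [NormedField M] {R : Subring M} {κ : Type}
    [Field κ] [CharP κ p] (φ : R →+* κ) (t : R) (q : ℤ[X]) :
    ∃ y : R, (y : M) = aeval (t : M) q ∧ φ y = (totR (p := p) (κ := κ) q).eval (φ t) := by
  obtain ⟨y, h1, h2⟩ := aeval_residue (p := p) φ t q
  refine ⟨y, h1, ?_⟩
  rw [h2, totR, eval_map]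

private theorem tot_fin {r p : ℕ} (hp : p.Prime) {M : Type} [NormedField M] {R : Subring M}
    {κ : Type} [Field κ] [CharP κ p] (φ : R →+* κ) {f : Fin r → ℤ[X]} (hf : Fam p f)
    (b : Fin r → ℤ) (x t : R)
    (h : aeval (t : M) (Ap f b) = (x : M) * aeval (t : M) (Ap f (-b))) :
    φ x = (totR (p := p) (κ := κ) (Ap f b)).eval (φ t) /
      (totR (p := p) (κ := κ) (Ap f (-b))).eval (φ t) := by
  obtain ⟨y, hy, hy'⟩ := tot_ev (p := p) φ t (Ap f b)
  obtain ⟨z, hz, hz'⟩ := tot_ev (p := p) φ t (Ap f (-b))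
  rw [← hy, ← hz] at h
  have h1 : y = x * z := Subtype.ext h
  have h2 : φ y = φ x * φ z := by rw [h1, map_mul]
  rw [← hy', ← hz']
  have h3 : φ z ≠ 0 := by
    intro h0
    rw [h0, mul_zero] at h2
    obtain ⟨u, v, huv⟩ := Ap_coprime hp hf b
    have h4 := congrArg (Polynomial.map (ZMod.castHom (dvd_refl p) κ)) huv
    rw [Polynomial.map_add, Polynomial.map_mul, Polynomial.map_mul, Polynomial.map_one] at h4
    have h5 := congrArg (Polynomial.eval (φ t)) h4
    rw [eval_add, eval_mul, eval_mul, eval_one] at h5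
    change _ * (totR (p := p) (κ := κ) (Ap f b)).eval (φ t) +
      _ * (totR (p := p) (κ := κ) (Ap f (-b))).eval (φ t) = 1 at h5
    rw [← hy', ← hz', h0, h2, mul_zero, mul_zero, add_zero] at h5
    exact zero_ne_one h5
  rw [h2, mul_div_cancel_right₀ _ h3]

private theorem tot_inf {r p : ℕ} {M : Type} [NormedField M] {R : Subring M}
    {κ : Type} [Field κ] [CharP κ p] (φ : R →+* κ) (hR : ∀ x : M, x ∈ R ↔ ‖x‖ ≤ 1)
    (hφ : ∀ x : R, φ x = 0 ↔ ‖(x : M)‖ < 1) {f : Fin r → ℤ[X]} (hf : Fam p f)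
    (b : Fin r → ℤ) (x : R) (hx : ‖(x : M)‖ = 1) (t : M) (ht : 1 < ‖t‖)
    (h : aeval t (Ap f b) = (x : M) * aeval t (Ap f (-b))) : φ x = 1 := by
  obtain ⟨y, hy, hy'⟩ := tot_pole (p := p) φ hR hφ _ (Ap_monic hf b) t ht
  obtain ⟨z, hz, hz'⟩ := tot_pole (p := p) φ hR hφ _ (Ap_monic hf (-b)) t ht
  have hyn := tot_unit φ hR hφ (y := y) (by rw [hy]; exact one_ne_zero)
  have hzn := tot_unit φ hR hφ (y := z) (by rw [hz]; exact one_ne_zero)
  have ht0 : t ≠ 0 := by
    rintro rfl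
    rw [norm_zero] at ht
    exact absurd ht (by norm_num)
  have hdeg : (Ap f b).natDegree = (Ap f (-b)).natDegree := by
    have e3 := congrArg norm h
    rw [hy', hz', norm_mul, norm_mul, norm_mul, hyn, hzn, hx, norm_pow, norm_pow, one_mul,
      one_mul, one_mul] at e3
    exact (pow_right_injective₀ (zero_lt_one.trans ht) ht.ne') e3
  rw [hy', hz', hdeg, ← mul_assoc] at h
  have h1 := mul_right_cancel₀ (pow_ne_zero _ ht0) h
  have h2 : y = x * z := Subtype.ext h1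
  have h3 : φ y = φ x * φ z := by rw [h2, map_mul]
  rw [hy, hz, mul_one] at h3
  exact h3.symm

private theorem tot_root {r p : ℕ} {M : Type} [NormedField M] {R : Subring M}
    {κ : Type} [Field κ] [CharP κ p] (φ : R →+* κ) (hR : ∀ x : M, x ∈ R ↔ ‖x‖ ≤ 1)
    (hφ : ∀ x : R, φ x = 0 ↔ ‖(x : M)‖ < 1) {f : Fin r → ℤ[X]} {b : Fin r → ℤ} (κ' : ℤ) (t : R)
    (ht : ¬ GoodD κ' f b (t : M)) :
    (totR (p := p) (κ := κ) (X * Np f b * Dq κ')).eval (φ t) = 0 := by
  have e : totR (p := p) (κ := κ) (X * Np f b * Dq κ') =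
      X * totR (p := p) (κ := κ) (Np f b) * totR (p := p) (κ := κ) (Dq κ') := by
    unfold totR
    rw [Polynomial.map_mul, Polynomial.map_mul, Polynomial.map_mul, Polynomial.map_mul,
      Polynomial.map_X, Polynomial.map_X]
  rw [e, eval_mul, eval_mul, eval_X]
  obtain ⟨y, hy, hy'⟩ := tot_ev (p := p) φ t (Np f b)
  obtain ⟨z, hz, hz'⟩ := tot_ev (p := p) φ t (Dq κ')
  rw [← hy', ← hz']
  by_contra hne
  have h1 : φ z ≠ 0 := fun h => hne (by rw [h, mul_zero])
  have h2 : φ y ≠ 0 := fun h => hne (by rw [h, mul_zero, zero_mul])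
  have h3 : φ t ≠ 0 := fun h => hne (by rw [h, zero_mul, zero_mul])
  refine ht ⟨⟨tot_unit φ hR hφ h3, ?_⟩, ?_⟩
  · rw [← hy]
    exact tot_unit φ hR hφ h2
  · rw [← hz]
    exact tot_unit φ hR hφ h1

theorem tot_bound {p : ℕ} (hp : p.Prime) {M : Type} [NormedField M] [CharZero M] [IsAlgClosed M]
    (hna : NA p M) {r : ℕ} {f : Fin r → ℤ[X]} (hf : Fam p f) {b : Fin r → ℤ}
    (hb : ∃ i, ¬ (p : ℤ) ∣ b i) (κ : ℤ) {n' k : ℕ} (hn' : ¬ p ∣ n')
    (h : ∀ ξ : M, IsPrimitiveRoot ξ (n' * p ^ k) → ∃ α : M, ¬ GoodD κ f b α ∧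
      aeval α (Ap f b) = ξ * aeval α (Ap f (-b)) ∧ aeval α (Ap f (-b)) ≠ 0) :
    n'.totient ≤ ∑ i, (f i).natDegree + 3 := by
  classical
  have : Fact p.Prime := ⟨hp⟩
  have hn0 : n' ≠ 0 := by
    rintro rfl
    exact hn' (dvd_zero p)
  set D := ∑ i, (f i).natDegree with hD
  have hD0 : 0 < D := by
    obtain ⟨i, -⟩ := hb
    exact (hf.pos i).trans_le
      (Finset.single_le_sum (f := fun i => (f i).natDegree) (fun _ _ => Nat.zero_le _)
        (Finset.mem_univ i))
  obtain ⟨R, κf, _, _, φ, hR, h0, -⟩ := exists_residue hp hna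
  have hnz : NeZero (n' : M) := ⟨Nat.cast_ne_zero.2 hn0⟩
  have hpz : NeZero ((p ^ k : ℕ) : M) := ⟨Nat.cast_ne_zero.2 (pow_ne_zero _ hp.ne_zero)⟩
  obtain ⟨η₀, hη₀⟩ := HasEnoughRootsOfUnity.exists_primitiveRoot M n'
  obtain ⟨ρ, hρ⟩ := HasEnoughRootsOfUnity.exists_primitiveRoot M (p ^ k)
  have hnorm : ∀ (x : M) (n : ℕ), n ≠ 0 → x ^ n = 1 → ‖x‖ = 1 := by
    intro x n hn hx
    have h5 : ‖x‖ ^ n = 1 := by rw [← norm_pow, hx, norm_one]
    exact (pow_eq_one_iff_of_nonneg (norm_nonneg _) hn).1 h5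
  have hρn : ‖ρ‖ = 1 := hnorm ρ _ (pow_ne_zero _ hp.ne_zero) hρ.pow_eq_one
  have hρR : ρ ∈ R := (hR ρ).2 hρn.le
  have hρ1 : φ ⟨ρ, hρR⟩ = 1 := by
    have h1 : (φ ⟨ρ, hρR⟩) ^ p ^ k = 1 := by
      rw [← map_pow]
      have h2 : (⟨ρ, hρR⟩ : R) ^ p ^ k = 1 := Subtype.ext hρ.pow_eq_one
      rw [h2, map_one]
    have h3 : (φ ⟨ρ, hρR⟩ - 1) ^ p ^ k = 0 := by
      rw [sub_pow_char_pow, h1, one_pow, sub_self]
    exact sub_eq_zero.1 (pow_eq_zero_iff (pow_ne_zero _ hp.ne_zero) |>.1 h3)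
  have key : ∀ η : M, IsPrimitiveRoot η n' → ∃ α : M, ¬ GoodD κ f b α ∧
      aeval α (Ap f b) = (η * ρ) * aeval α (Ap f (-b)) := by
    intro η hη
    have h1 : IsPrimitiveRoot (η * ρ) (n' * p ^ k) := by
      have h2 : orderOf (η * ρ) = n' * p ^ k := by
        have h3 : orderOf (η * ρ) = orderOf η * orderOf ρ := by
          refine (Commute.all η ρ).orderOf_mul_eq_mul_orderOf_of_coprime ?_
          rw [← hη.eq_orderOf, ← hρ.eq_orderOf]
          exact Nat.Coprime.pow_right _ ((Nat.Prime.coprime_iff_not_dvd hp).2 hn').symm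
        rw [h3, ← hη.eq_orderOf, ← hρ.eq_orderOf]
      rw [← h2]
      exact IsPrimitiveRoot.orderOf _
    obtain ⟨α, h2, h3, -⟩ := h _ h1
    exact ⟨α, h2, h3⟩
  choose! α hα1 hα2 using key
  let q : κf[X] := totR (p := p) (κ := κf) (X * Np f b * Dq κ)
  have hDq : (Dq κ).Monic := by
    unfold Dq
    have e : X ^ 2 - C κ * X + 1 = X ^ 2 + (-(C κ * X) + 1 : ℤ[X]) := by ring
    rw [e]
    refine monic_X_pow_add ?_
    refine (degree_add_le _ _).trans_lt (max_lt ?_ ?_)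
    · rw [degree_neg]
      exact (degree_C_mul_X_le κ).trans_lt (by norm_num)
    · rw [degree_one]
      norm_num
  have hDqd : (Dq κ).natDegree ≤ 2 := by
    unfold Dq
    compute_degree
  have hq0 : q ≠ 0 := by
    have h3 : (X * Np f b * Dq κ).map (Int.castRingHom (ZMod p)) ≠ 0 := by
      rw [Polynomial.map_mul, Polynomial.map_mul, Polynomial.map_X]
      exact mul_ne_zero (mul_ne_zero X_ne_zero (Np_ne hp hf hb)) (hDq.map _).ne_zero
    exact (Polynomial.map_ne_zero_iff (RingHom.injective _)).2 h3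
  have hqd : q.natDegree ≤ D + 2 := by
    refine natDegree_map_le.trans (natDegree_map_le.trans ?_)
    refine natDegree_mul_le.trans ?_
    have h1 : (X * Np f b).natDegree ≤ 1 + (Np f b).natDegree := by
      refine natDegree_mul_le.trans ?_
      rw [natDegree_X]
    have := Np_natDegree f b hD0
    omega
  let c : M → Option κf := fun η =>
    if hh : ‖α η‖ ≤ 1 then some (φ ⟨α η, (hR _).2 hh⟩) else none
  have hmaps : ∀ η ∈ primitiveRoots n' M, c η ∈ Finset.insertNone q.roots.toFinset := by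
    intro η hη
    rw [Finset.mem_insertNone]
    intro y hy
    have hη' := (mem_primitiveRoots (Nat.pos_of_ne_zero hn0)).1 hη
    by_cases hh : ‖α η‖ ≤ 1
    · have h1 : c η = some (φ ⟨α η, (hR _).2 hh⟩) := dif_pos hh
      rw [h1] at hy
      have h2 := Option.mem_some_iff.1 hy
      rw [← h2, Multiset.mem_toFinset, mem_roots hq0]
      exact tot_root φ hR h0 κ _ (hα1 η hη')
    · have h1 : c η = none := dif_neg hh
      rw [h1] at hy
      exact absurd hy (Option.not_mem_none _)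
  have hval : ∀ η (hη : IsPrimitiveRoot η n'), ∃ x : R, (x : M) = η ∧
      (∀ a, c η = some a → φ x = (totR (p := p) (κ := κf) (Ap f b)).eval a /
        (totR (p := p) (κ := κf) (Ap f (-b))).eval a) ∧ (c η = none → φ x = 1) := by
    intro η hη
    have hηn : ‖η‖ = 1 := hnorm η _ hn0 hη.pow_eq_one
    have hηR : η ∈ R := (hR η).2 hηn.le
    have hmul : φ (⟨η, hηR⟩ * ⟨ρ, hρR⟩) = φ ⟨η, hηR⟩ := by rw [map_mul, hρ1, mul_one]
    refine ⟨⟨η, hηR⟩, rfl, ?_, ?_⟩
    · intro a ha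
      by_cases hh : ‖α η‖ ≤ 1
      · have h1 : c η = some (φ ⟨α η, (hR _).2 hh⟩) := dif_pos hh
        rw [h1] at ha
        have h2 := Option.some_injective _ ha
        rw [← h2, ← hmul]
        exact tot_fin hp φ hf b _ ⟨α η, (hR _).2 hh⟩ (hα2 η hη)
      · have h1 : c η = none := dif_neg hh
        rw [h1] at ha
        exact absurd ha (by simp)
    · intro ha
      by_cases hh : ‖α η‖ ≤ 1
      · have h1 : c η = some (φ ⟨α η, (hR _).2 hh⟩) := dif_pos hh
        rw [h1] at ha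
        exact absurd ha (by simp)
      · rw [← hmul]
        refine tot_inf φ hR h0 hf b _ ?_ (α η) (not_le.1 hh) (hα2 η hη)
        change ‖η * ρ‖ = 1
        rw [norm_mul, hηn, hρn, mul_one]
  have hinj : Set.InjOn c (primitiveRoots n' M : Set M) := by
    intro η hη η' hη' hc
    have h1 := (mem_primitiveRoots (Nat.pos_of_ne_zero hn0)).1 hη
    have h1' := (mem_primitiveRoots (Nat.pos_of_ne_zero hn0)).1 hη'
    obtain ⟨x, hx, hx1, hx2⟩ := hval η h1
    obtain ⟨x', hx', hx1', hx2'⟩ := hval η' h1'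
    have h2 : φ x = φ x' := by
      rcases hcc : c η with _ | a
      · rw [hx2 hcc, hx2' (hc ▸ hcc)]
      · rw [hx1 a hcc, hx1' a (hc ▸ hcc)]
    have h3 : ‖η - η'‖ < 1 := by
      have h4 : φ (x - x') = 0 := by rw [map_sub, h2, sub_self]
      have h5 := (h0 _).1 h4
      have h6 : ((x - x' : R) : M) = η - η' := by
        rw [← hx, ← hx']
        rfl
      rwa [h6] at h5
    have hn1 : ‖η'‖ = 1 := hnorm η' _ hn0 h1'.pow_eq_one
    have hne : η' ≠ 0 := by
      rintro rfl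
      rw [norm_zero] at hn1
      exact zero_ne_one hn1
    have h7 : η / η' = 1 := by
      refine root_near hp hna hn' ?_ ?_
      · rw [div_pow, h1.pow_eq_one, h1'.pow_eq_one, div_one]
      · have e : η / η' - 1 = (η - η') / η' := by field_simp
        rw [e, norm_div, hn1, div_one]
        exact h3
    exact (div_eq_one_iff_eq hne).1 h7
  rw [← hη₀.card_primitiveRoots]
  refine (Finset.card_le_card_of_injOn c hmaps hinj).trans ?_
  rw [Finset.card_insertNone]
  have h1 := (Multiset.toFinset_card_le q.roots).trans ((card_roots' q).trans hqd)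
  omega

end Pool.Agent.ETI
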