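import Pool.Agent.ETI.Ari
import Pool.Agent.ETI.Cnj
import Pool.Agent.ETI.Tot
import Pool.Agent.ETI.CnD

/-!
# The uniform bound for the degree

At one prime the order of the root of unity `A(α)/B(α)` is `n' p ^ k` with `φ(n') ≤ S + 3`. The order is the same at
both primes, so its totient is at most `S + 3` and it divides `N = (2 (S + 3))!`. The points with a given root of unity
are counted by `count_badD`.
-/

open scoped BigOperators Polynomial
open Polynomial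

namespace Pool.Agent.ETI

open Pool.Agent.ETU

private theorem DgU_dvd {M : Type} [Field M] [Algebra ℚ M] {α : M} {P : ℚ[X]} (hP : P.Monic)
    (hi : Irreducible P) (hα : aeval α P = 0) {Q : ℤ[X]} (hQ : aeval α Q = 0) :
    P ∣ Q.map (Int.castRingHom ℚ) := by
  rw [minpoly.eq_of_irreducible_of_monic hi hα hP]
  apply minpoly.dvd
  rw [← hQ, ← algebraMap_int_eq]
  exact aeval_map_algebraMap ℚ α Q

private theorem DgU_aeval {M : Type} [Field M] [Algebra ℚ M] {α : M} {P : ℚ[X]}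
    (hα : aeval α P = 0) {Q : ℤ[X]} (hQ : P ∣ Q.map (Int.castRingHom ℚ)) : aeval α Q = 0 := by
  have h1 : aeval α (Q.map (Int.castRingHom ℚ)) = 0 := by
    obtain ⟨c, hc⟩ := hQ
    rw [hc, map_mul, hα, zero_mul]
  rw [← algebraMap_int_eq] at h1
  rw [← h1]
  exact (aeval_map_algebraMap ℚ α Q).symm

private theorem DgU_na (p : ℕ) [Fact p.Prime] : NA p (PadicAlgCl p) where
  na := PadicAlgCl.isNonarchimedean p
  pp := by
    have h1 : ((p : ℕ) : PadicAlgCl p) = ((p : ℚ_[p]) : PadicAlgCl p) :=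
      (map_natCast (algebraMap ℚ_[p] (PadicAlgCl p)) p).symm
    rw [h1, PadicAlgCl.norm_extends]
    exact Padic.norm_p_lt_one

private theorem DgU_core {r : ℕ} {p : ℕ} (hp : p.Prime) {M : Type} [NormedField M] [CharZero M]
    [Algebra ℚ M] [IsAlgClosed M] (hna : NA p M) {f : Fin r → ℤ[X]} (hf : Fam p f)
    {a : Fin r → ℤ} (ha : ∃ i, ¬ (p : ℤ) ∣ a i) (κ : ℤ) {N : ℕ} (hN : 0 < N) {P : ℚ[X]}
    (hi : Irreducible P) (h1 : ∀ α : M, aeval α P = 0 → ¬ GoodD κ f a α)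
    (h2 : ∀ α : M, aeval α P = 0 → (aeval α (Ap f a)) ^ N = (aeval α (Ap f (-a))) ^ N) :
    P.natDegree ≤ (∑ i, (f i).natDegree + 3) * (∑ i, (f i).natDegree) * N := by
  classical
  have hP0 : P.map (algebraMap ℚ M) ≠ 0 :=
    (Polynomial.map_ne_zero_iff (RingHom.injective _)).2 hi.ne_zero
  set T : Finset M := (P.map (algebraMap ℚ M)).roots.toFinset with hT
  have hTm : ∀ t ∈ T, aeval t P = 0 := by
    intro t ht
    rw [hT, Multiset.mem_toFinset, mem_roots hP0, IsRoot.def, eval_map_algebraMap] at ht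
    exact ht
  have hTc : T.card = P.natDegree := by
    have h3 : (P.map (algebraMap ℚ M)).roots.Nodup := nodup_roots hi.separable.map
    have h4 := (IsAlgClosed.splits (P.map (algebraMap ℚ M))).natDegree_eq_card_roots
    rw [hT, Multiset.toFinset_card_of_nodup h3, ← h4, natDegree_map]
  let ζ : M → M := fun t => aeval t (Ap f a) / aeval t (Ap f (-a))
  have hB : ∀ t ∈ T, aeval t (Ap f (-a)) ≠ 0 := fun t ht =>
    (Ap_ne_zero hp hf a hN (h2 t (hTm t ht))).2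
  have hζN : ∀ t ∈ T, ζ t ^ N = 1 := by
    intro t ht
    show (aeval t (Ap f a) / aeval t (Ap f (-a))) ^ N = 1
    rw [div_pow, h2 t (hTm t ht), div_self (pow_ne_zero _ (hB t ht))]
  have h3 : T.card ≤ ((∑ i, (f i).natDegree + 3) * (∑ i, (f i).natDegree)) * (T.image ζ).card := by
    refine Finset.card_le_mul_card_image _ _ fun b hb => ?_
    obtain ⟨t₀, ht₀, rfl⟩ := Finset.mem_image.1 hb
    refine count_badD (ζ := ζ t₀) hp hna hf ha κ ?_ _ (fun t ht => ?_) fun t ht => ?_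
    · have h4 := hζN t₀ ht₀
      have h5 : ‖ζ t₀‖ ^ N = 1 := by rw [← norm_pow, h4, norm_one]
      exact (pow_eq_one_iff_of_nonneg (norm_nonneg _) hN.ne').1 h5
    · exact h1 t (hTm t (Finset.mem_filter.1 ht).1)
    · rw [← (Finset.mem_filter.1 ht).2]
      exact (div_mul_cancel₀ _ (hB t (Finset.mem_filter.1 ht).1)).symm
  have h4 : (T.image ζ).card ≤ N := by
    have h5 : T.image ζ ⊆ (nthRoots N (1 : M)).toFinset := by
      intro b hb
      obtain ⟨t, ht, rfl⟩ := Finset.mem_image.1 hb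
      rw [Multiset.mem_toFinset, mem_nthRoots hN]
      exact hζN t ht
    exact ((Finset.card_le_card h5).trans (Multiset.toFinset_card_le _)).trans
      (card_nthRoots N 1)
  rw [← hTc]
  exact h3.trans (Nat.mul_le_mul_left _ h4)

private theorem DgU_pow {M : Type} [Field M] {x y : M} (hy : y ≠ 0) (k : ℕ) :
    (x / y) ^ k = 1 ↔ x ^ k = y ^ k := by
  rw [div_pow, div_eq_one_iff_eq (pow_ne_zero _ hy)]

/-- the order of the root of unity, at one prime -/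
private theorem DgU_one {r : ℕ} {p : ℕ} [Fact p.Prime] {f : Fin r → ℤ[X]} (hf : Fam p f)
    {a : Fin r → ℤ} (ha : ∃ i, ¬ (p : ℤ) ∣ a i) (κ : ℤ) {P : ℚ[X]} (hP : P.Monic)
    (hi : Irreducible P) (hr : Rel f a P)
    (h : ∀ α : PadicAlgCl p, aeval α P = 0 → ¬ GoodD κ f a α) :
    ∃ n : ℕ, 0 < n ∧ (∀ k : ℕ, n ∣ k ↔
      P ∣ ((Ap f a) ^ k - (Ap f (-a)) ^ k).map (Int.castRingHom ℚ)) ∧
      ∀ n' k : ℕ, n = n' * p ^ k → ¬ p ∣ n' → n'.totient ≤ ∑ i, (f i).natDegree + 3 := by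
  have hp : p.Prime := Fact.out
  obtain ⟨N, hN, hd⟩ := hr
  obtain ⟨α, hα⟩ := IsAlgClosed.exists_aeval_eq_zero (PadicAlgCl p) P
    (degree_pos_of_irreducible hi).ne'
  have h1 := DgU_aeval hα hd
  rw [map_sub, map_pow, map_pow, sub_eq_zero] at h1
  obtain ⟨-, hB⟩ := Ap_ne_zero hp hf a hN h1
  obtain ⟨ζ, hζ⟩ : ∃ ζ : PadicAlgCl p, ζ = aeval α (Ap f a) / aeval α (Ap f (-a)) := ⟨_, rfl⟩
  have hiff : ∀ k : ℕ, ζ ^ k = 1 ↔
      P ∣ ((Ap f a) ^ k - (Ap f (-a)) ^ k).map (Int.castRingHom ℚ) := by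
    intro k
    have h2 : ζ ^ k = 1 ↔ aeval α ((Ap f a) ^ k - (Ap f (-a)) ^ k) = 0 := by
      rw [map_sub, map_pow, map_pow, sub_eq_zero, hζ]
      exact DgU_pow hB k
    rw [h2]
    exact ⟨fun h3 => DgU_dvd hP hi hα h3, fun h3 => DgU_aeval hα h3⟩
  have hζN : ζ ^ N = 1 := (hiff N).2 hd
  have hpos : 0 < orderOf ζ :=
    Nat.pos_of_dvd_of_pos (orderOf_dvd_of_pow_eq_one hζN) hN
  refine ⟨orderOf ζ, hpos, fun k => ?_, fun n' k hn hn' => ?_⟩
  · rw [orderOf_dvd_iff_pow_eq_one]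
    exact hiff k
  · refine tot_bound hp (DgU_na p) hf ha κ (k := k) hn' fun ξ hξ => ?_
    have hprim : IsPrimitiveRoot (aeval α (Ap f a) / aeval α (Ap f (-a))) (orderOf ζ) := by
      rw [← hζ]
      exact IsPrimitiveRoot.orderOf ζ
    rw [← hn] at hξ
    obtain ⟨α', h3, h4, h5⟩ := conj_root hi.ne_zero hα hB hpos hprim hξ
    exact ⟨α', h α' h3, h5, h4⟩

theorem deg_unif {p₁ p₂ : ℕ} [Fact p₁.Prime] [Fact p₂.Prime] (h12 : p₁ ≠ p₂) {r : ℕ}
    {f : Fin r → ℤ[X]} (hf₁ : Fam p₁ f) (hf₂ : Fam p₂ f)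
    (hb₁ : ∑ i, (f i).natDegree + 5 < p₁) (hb₂ : ∑ i, (f i).natDegree + 5 < p₂) (κ : ℤ)
    {b : Fin r → ℤ} (hb : Prim b) {P : ℚ[X]} (hP : P.Monic) (hP' : Irreducible P)
    (hrel : Rel f b P) (hbad₁ : ∀ α : PadicAlgCl p₁, aeval α P = 0 → ¬ GoodD κ f b α)
    (hbad₂ : ∀ α : PadicAlgCl p₂, aeval α P = 0 → ¬ GoodD κ f b α) :
    P.natDegree ≤ Bd f := by
  have hp₁ : p₁.Prime := Fact.out
  have hp₂ : p₂.Prime := Fact.out
  obtain ⟨n, hn, hd, ht⟩ := DgU_one hf₁ (hb p₁ hp₁) κ hP hP' hrel hbad₁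
  obtain ⟨m, hm, hd', ht'⟩ := DgU_one hf₂ (hb p₂ hp₂) κ hP hP' hrel hbad₂
  have hmn : m = n := Nat.dvd_antisymm ((hd' n).2 ((hd n).1 (dvd_refl n)))
    ((hd m).2 ((hd' m).1 (dvd_refl m)))
  subst hmn
  have hnd : ¬ p₂ ∣ m := by
    intro h3
    obtain ⟨k, n', h4, h5⟩ := Nat.exists_eq_pow_mul_and_not_dvd hm.ne' p₁ hp₁.ne_one
    have h6 := ht n' k (by rw [h5, mul_comm]) h4
    have h7 : p₂ ∣ n' := by
      rw [h5] at h3
      rcases (Nat.Prime.dvd_mul hp₂).1 h3 with h8 | h8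
      · exact absurd ((Nat.prime_dvd_prime_iff_eq hp₂ hp₁).1 (hp₂.dvd_of_dvd_pow h8)) h12.symm
      · exact h8
    have h8 : n' ≠ 0 := by
      rintro rfl
      exact h4 (dvd_zero _)
    have h9 := Nat.le_of_dvd (Nat.totient_pos.2 (Nat.pos_of_ne_zero h8))
      (Nat.totient_dvd_of_dvd h7)
    rw [Nat.totient_prime hp₂] at h9
    omega
  have htot := ht' m 0 (by rw [pow_zero, mul_one]) hnd
  have hdvd := tot_dvd hm htot
  have hN : 0 < (2 * (∑ i, (f i).natDegree + 3)).factorial := Nat.factorial_pos _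
  have hPd := (hd' _).1 hdvd
  have key := DgU_core hp₁ (DgU_na p₁) hf₁ (hb p₁ hp₁) κ hN hP' hbad₁ fun α hα => by
    have h3 := DgU_aeval hα hPd
    rw [map_sub, map_pow, map_pow, sub_eq_zero] at h3
    exact h3
  unfold Bd
  rw [mul_comm]
  exact key

end Pool.Agent.ETI
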