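import Pool.Agent.ETI.Defs
import Pool.Agent.ETU.Fix

/-!
# MODULE ETI-GdM : good points are in `F`

All `f_i(α)` are units, `ζ = A(α)/B(α)` is a root of unity, so `ζ ∈ F`; the polynomial `A - ζ B` has
integral coefficients in `F`, vanishes at `α`, and its derivative at `α` is a unit.
-/

open scoped BigOperators Polynomial
open Polynomial

namespace Pool.Agent.ETI

open Pool.Agent.ETU

section aux

variable {r : ℕ}

/-- the valuation ring -/
private def GdMO {p : ℕ} {M : Type} [NormedField M] (hna : NA p M) : Subring M where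
  carrier := {t | ‖t‖ ≤ 1}
  mul_mem' := by
    intro a b ha hb
    simp only [Set.mem_ofPred_eq, norm_mul] at *
    exact mul_le_one₀ ha (norm_nonneg _) hb
  one_mem' := by simp
  add_mem' := by
    intro a b ha hb
    simp only [Set.mem_ofPred_eq] at *
    exact (hna.na a b).trans (max_le ha hb)
  zero_mem' := by simp
  neg_mem' := by
    intro a ha
    simp only [Set.mem_ofPred_eq, norm_neg] at *
    exact ha

private theorem GdM_sub {M : Type} [NormedField M] (O : Subring M) (x : O) (P : ℤ[X]) :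
    ((aeval x P : O) : M) = aeval (x : M) P := by
  have h := Polynomial.hom_eval₂ P (Int.castRingHom O) O.subtype x
  have h1 : O.subtype.comp (Int.castRingHom O) = Int.castRingHom M := RingHom.ext_int _ _
  rw [h1] at h
  rw [Polynomial.aeval_def, Polynomial.aeval_def]
  exact h

private theorem GdM_int {p : ℕ} {M : Type} [NormedField M] (hna : NA p M) {α : M} (hα : ‖α‖ ≤ 1)
    (P : ℤ[X]) : ‖aeval α P‖ ≤ 1 := by
  have h := GdM_sub (GdMO hna) ⟨α, hα⟩ P
  have h2 : ‖((aeval (⟨α, hα⟩ : GdMO hna) P : GdMO hna) : M)‖ ≤ 1 := (aeval (⟨α, hα⟩ : GdMO hna) P).2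
  rw [h] at h2
  exact h2

private theorem GdM_sum {p : ℕ} {M : Type} [NormedField M] (hna : NA p M) {ι : Type} (s : Finset ι)
    (g : ι → M) (h : ∀ k ∈ s, ‖g k‖ < 1) : ‖∑ k ∈ s, g k‖ < 1 := by
  refine Finset.sum_induction g (fun t => ‖t‖ < 1) (fun a b ha hb => ?_) (by simp) h
  exact (hna.na a b).trans_lt (max_lt ha hb)

private theorem GdM_prod_lt {M : Type} [NormedField M] {ι : Type} [DecidableEq ι] (s : Finset ι)
    (g : ι → M) (h : ∀ k ∈ s, ‖g k‖ ≤ 1) {i : ι} (hi : i ∈ s) (hlt : ‖g i‖ < 1) :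
    ‖∏ k ∈ s, g k‖ < 1 := by
  rw [← Finset.mul_prod_erase s g hi, norm_mul]
  have h1 : ‖∏ k ∈ s.erase i, g k‖ ≤ 1 := by
    rw [norm_prod]
    exact Finset.prod_le_one (fun _ _ => norm_nonneg _)
      (fun k hk => h k (Finset.mem_of_mem_erase hk))
  exact mul_lt_one_of_nonneg_of_lt_one_left (norm_nonneg _) hlt h1

private theorem GdM_prod_ge {M : Type} [NormedField M] {ι : Type} (s : Finset ι)
    (g : ι → M) (h : ∀ k ∈ s, ‖g k‖ ≤ 1) (hlt : ‖∏ k ∈ s, g k‖ < 1) : ∃ i ∈ s, ‖g i‖ < 1 := by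
  by_contra hc
  push Not at hc
  have h1 : ‖∏ k ∈ s, g k‖ = 1 := by
    rw [norm_prod]
    exact Finset.prod_eq_one fun k hk => le_antisymm (h k hk) (hc k hk)
  rw [h1] at hlt
  exact lt_irrefl _ hlt

private theorem GdM_Ap {M : Type} [NormedField M] (f : Fin r → ℤ[X]) (a : Fin r → ℤ) (α : M) :
    aeval α (Ap f a) = ∏ i, (aeval α (f i)) ^ (a i).toNat := by
  unfold Ap
  rw [map_prod]
  exact Finset.prod_congr rfl fun i _ => by rw [map_pow]

private theorem GdM_lt {p : ℕ} {M : Type} [NormedField M] (hna : NA p M) (f : Fin r → ℤ[X])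
    (a : Fin r → ℤ) {α : M} (hα : ‖α‖ ≤ 1) {i : Fin r} (hi : ‖aeval α (f i)‖ < 1) (hai : 0 < a i) :
    ‖aeval α (Ap f a)‖ < 1 := by
  rw [GdM_Ap]
  refine GdM_prod_lt _ _ (fun k _ => ?_) (Finset.mem_univ i) ?_
  · rw [norm_pow]
    exact pow_le_one₀ (norm_nonneg _) (GdM_int hna hα _)
  · rw [norm_pow]
    exact pow_lt_one₀ (norm_nonneg _) hi (by omega)

private theorem GdM_ge {p : ℕ} {M : Type} [NormedField M] (hna : NA p M) (f : Fin r → ℤ[X])
    (a : Fin r → ℤ) {α : M} (hα : ‖α‖ ≤ 1) (h : ‖aeval α (Ap f a)‖ < 1) :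
    ∃ j, 0 < a j ∧ ‖aeval α (f j)‖ < 1 := by
  rw [GdM_Ap] at h
  obtain ⟨j, _, hj⟩ := GdM_prod_ge _ _ (fun k _ => by
    rw [norm_pow]
    exact pow_le_one₀ (norm_nonneg _) (GdM_int hna hα _)) h
  rw [norm_pow] at hj
  have hj0 : (a j).toNat ≠ 0 := by
    intro h0
    rw [h0, pow_zero] at hj
    exact lt_irrefl _ hj
  refine ⟨j, by omega, ?_⟩
  by_contra hc
  push Not at hc
  exact absurd hj (not_lt.2 (one_le_pow₀ hc))

private theorem GdM_pw {x y : ℝ} {n : ℕ} (hn : 0 < n) (h : x ^ n = y ^ n) (hy : y < 1)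
    (hy0 : 0 ≤ y) : x < 1 := by
  have h1 : y ^ n < 1 := pow_lt_one₀ hy0 hy hn.ne'
  by_contra hc
  push Not at hc
  have := one_le_pow₀ hc (n := n)
  linarith

private theorem GdM_one {p : ℕ} {M : Type} [NormedField M] (hna : NA p M) (f : Fin r → ℤ[X])
    (a : Fin r → ℤ) {α : M} {n : ℕ} (hn : 0 < n) (hα : ‖α‖ ≤ 1)
    (hrel : (aeval α (Ap f a)) ^ n = (aeval α (Ap f (-a))) ^ n) (hN : ‖aeval α (Np f a)‖ = 1)
    (i : Fin r) : ‖aeval α (f i)‖ = 1 := by
  classical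
  have hle : ∀ k, ‖aeval α (f k)‖ ≤ 1 := fun k => GdM_int hna hα _
  by_contra hne
  have hi : ‖aeval α (f i)‖ < 1 := lt_of_le_of_ne (hle i) hne
  have hreln : ‖aeval α (Ap f a)‖ ^ n = ‖aeval α (Ap f (-a))‖ ^ n := by
    rw [← norm_pow, ← norm_pow, hrel]
  have hj : a i ≠ 0 → ∃ j, j ≠ i ∧ ‖aeval α (f j)‖ < 1 := by
    intro h0
    rcases lt_or_gt_of_ne h0 with h1 | h1
    · have h2 : ‖aeval α (Ap f (-a))‖ < 1 := GdM_lt hna f (-a) hα hi (by simpa using h1)
      have h3 : ‖aeval α (Ap f a)‖ < 1 := GdM_pw hn hreln h2 (norm_nonneg _)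
      obtain ⟨j, hj1, hj2⟩ := GdM_ge hna f a hα h3
      exact ⟨j, by rintro rfl; omega, hj2⟩
    · have h2 : ‖aeval α (Ap f a)‖ < 1 := GdM_lt hna f a hα hi h1
      have h3 : ‖aeval α (Ap f (-a))‖ < 1 := GdM_pw hn hreln.symm h2 (norm_nonneg _)
      obtain ⟨j, hj1, hj2⟩ := GdM_ge hna f (-a) hα h3
      refine ⟨j, ?_, hj2⟩
      rintro rfl
      simp only [Pi.neg_apply] at hj1
      omega
  have hlt : ‖aeval α (Np f a)‖ < 1 := by
    unfold Np
    rw [map_sum]
    refine GdM_sum hna _ _ fun k _ => ?_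
    rw [map_mul, map_mul, map_prod]
    by_cases hk : k = i
    · subst hk
      by_cases h0 : a k = 0
      · rw [h0]
        simp
      · obtain ⟨j, hj1, hj2⟩ := hj h0
        have h1 : ‖∏ j ∈ Finset.univ.erase k, aeval α (f j)‖ < 1 :=
          GdM_prod_lt _ _ (fun k _ => hle k) (Finset.mem_erase.2 ⟨hj1, Finset.mem_univ j⟩) hj2
        have h2 : ‖aeval α (C (a k) : ℤ[X]) * aeval α (derivative (f k))‖ ≤ 1 := by
          rw [← map_mul]
          exact GdM_int hna hα _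
        rw [norm_mul]
        exact mul_lt_one_of_nonneg_of_lt_one_right h2 (norm_nonneg _) h1
    · have h1 : ‖∏ j ∈ Finset.univ.erase k, aeval α (f j)‖ < 1 :=
        GdM_prod_lt _ _ (fun k _ => hle k) (Finset.mem_erase.2 ⟨fun h => hk h.symm, Finset.mem_univ i⟩) hi
      have h2 : ‖aeval α (C (a k) : ℤ[X]) * aeval α (derivative (f k))‖ ≤ 1 := by
        rw [← map_mul]
        exact GdM_int hna hα _
      rw [norm_mul]
      exact mul_lt_one_of_nonneg_of_lt_one_right h2 (norm_nonneg _) h1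
  rw [hN] at hlt
  exact lt_irrefl _ hlt

private theorem GdM_unit {M : Type} [NormedField M] (f : Fin r → ℤ[X]) (a : Fin r → ℤ) {α : M}
    (h : ∀ i, ‖aeval α (f i)‖ = 1) : ‖aeval α (Ap f a)‖ = 1 := by
  rw [GdM_Ap, norm_prod]
  exact Finset.prod_eq_one fun i _ => by rw [norm_pow, h, one_pow]


private theorem GdM_der {M : Type} [NormedField M] (f : Fin r → ℤ[X]) (b : Fin r → ℤ) {α ζ : M}
    (h1 : ∀ i, ‖aeval α (f i)‖ = 1) (hA : ‖aeval α (Ap f b)‖ = 1)
    (hB : ‖aeval α (Ap f (-b))‖ = 1) (hN : ‖aeval α (Np f b)‖ = 1)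
    (h0 : aeval α (Ap f b) = ζ * aeval α (Ap f (-b))) :
    ‖aeval α (derivative (Ap f b)) - ζ * aeval α (derivative (Ap f (-b)))‖ = 1 := by
  have hlog := congrArg (aeval α) (Ap_log f b)
  simp only [map_mul, map_sub, map_prod] at hlog
  have hlog2 := congrArg norm hlog
  rw [norm_mul, norm_mul, norm_mul, hA, hB, hN, norm_prod,
    Finset.prod_eq_one fun i _ => h1 i, mul_one, mul_one, mul_one] at hlog2
  have h3 : aeval α (derivative (Ap f b)) * aeval α (Ap f (-b)) -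
      aeval α (Ap f b) * aeval α (derivative (Ap f (-b))) =
      (aeval α (derivative (Ap f b)) - ζ * aeval α (derivative (Ap f (-b)))) *
        aeval α (Ap f (-b)) := by
    rw [h0]
    ring
  rw [h3, norm_mul, hB, mul_one] at hlog2
  exact hlog2

private theorem GdM_na (p : ℕ) [Fact p.Prime] : NA p (PadicAlgCl p) where
  na := PadicAlgCl.isNonarchimedean p
  pp := by
    have h1 : ((p : ℕ) : PadicAlgCl p) = ((p : ℚ_[p]) : PadicAlgCl p) :=
      (map_natCast (algebraMap ℚ_[p] (PadicAlgCl p)) p).symm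
    rw [h1, PadicAlgCl.norm_extends]
    exact Padic.norm_p_lt_one

private theorem GdM_coe {p : ℕ} [Fact p.Prime] (n : ℤ) : ‖((n : ℤ) : PadicAlgCl p)‖ ≤ 1 := by
  have h := GdM_int (GdM_na p) (α := (0 : PadicAlgCl p)) (by simp) (C n)
  rw [aeval_C] at h
  simpa using h

end aux

theorem good_mem {p m : ℕ} [Fact p.Prime] {F : IntermediateField ℚ_[p] (PadicAlgCl p)}
    (hF : Tm p m F) {r : ℕ} (f : Fin r → ℤ[X]) (b : Fin r → ℤ) {α : PadicAlgCl p} {n : ℕ}
    (hn : 0 < n) (hrel : (aeval α (Ap f b)) ^ n = (aeval α (Ap f (-b))) ^ n)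
    (hg : Good f b α) : α ∈ F := by
  obtain ⟨hα, hN⟩ := hg
  have hna := GdM_na p
  have h1 : ∀ i, ‖aeval α (f i)‖ = 1 := GdM_one hna f b hn hα.le hrel hN
  have hA : ‖aeval α (Ap f b)‖ = 1 := GdM_unit f b h1
  have hB : ‖aeval α (Ap f (-b))‖ = 1 := GdM_unit f (-b) h1
  have hB0 : aeval α (Ap f (-b)) ≠ 0 := by
    intro h0
    rw [h0, norm_zero] at hB
    exact zero_ne_one hB
  obtain ⟨ζ, hζ⟩ : ∃ ζ, ζ = aeval α (Ap f b) / aeval α (Ap f (-b)) := ⟨_, rfl⟩
  have hζn : ζ ^ n = 1 := by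
    rw [hζ, div_pow, hrel, div_self (pow_ne_zero _ hB0)]
  have hζF : ζ ∈ F := hF.root ζ n hn hζn
  have hζ1 : ‖ζ‖ ≤ 1 := by
    rw [hζ, norm_div, hA, hB]
    norm_num
  have h0 : aeval α (Ap f b) = ζ * aeval α (Ap f (-b)) := by
    rw [hζ, div_mul_cancel₀ _ hB0]
  have hev : ∀ P : ℤ[X], eval α (P.map (Int.castRingHom (PadicAlgCl p))) = aeval α P := by
    intro P
    rw [eval_map, aeval_def]
    rfl
  refine hF.hens ((Ap f b).map (Int.castRingHom (PadicAlgCl p)) -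
    C ζ * (Ap f (-b)).map (Int.castRingHom (PadicAlgCl p))) (fun i => ?_) (fun i => ?_) α ?_ hα.le ?_
  · rw [coeff_sub, coeff_C_mul, coeff_map, coeff_map]
    exact F.sub_mem (intCast_mem F _) (F.mul_mem hζF (intCast_mem F _))
  · rw [coeff_sub, coeff_C_mul, coeff_map, coeff_map, sub_eq_add_neg]
    refine (hna.na _ _).trans (max_le (GdM_coe _) ?_)
    rw [norm_neg, norm_mul]
    exact mul_le_one₀ hζ1 (norm_nonneg _) (GdM_coe _)
  · rw [IsRoot.def, eval_sub, eval_mul, eval_C, hev, hev, h0, sub_self]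
  · rw [derivative_sub, derivative_C_mul, derivative_map, derivative_map, eval_sub, eval_mul,
      eval_C, hev, hev]
    exact GdM_der f b h1 hA hB hN h0

/-- nice points are in `F` -/
theorem nice_mem {p m : ℕ} [Fact p.Prime] {F : IntermediateField ℚ_[p] (PadicAlgCl p)}
    (hF : Tm p m F) {κ : ℤ} {P : ℚ[X]} (hP : Nice p κ P) {α : PadicAlgCl p}
    (hα : aeval α P = 0) : α ∈ F := by
  obtain ⟨hc, hr⟩ := hP
  obtain ⟨h1, _, h3⟩ := hr α hα
  refine hF.hens (P.map (algebraMap ℚ (PadicAlgCl p))) (fun i => ?_) (fun i => ?_) α ?_ h1.le ?_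
  · rw [coeff_map]
    exact SubfieldClass.ratCast_mem F (P.coeff i)
  · rw [coeff_map]
    exact hc i
  · rw [IsRoot.def, eval_map, ← aeval_def]
    exact hα
  · rw [derivative_map, eval_map, ← aeval_def]
    exact h3

end Pool.Agent.ETI
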