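import Mathlib

/-!
# MODULE ETI-Ari : a number with small totient divides `(2 B)!`

A prime power `l ^ k` dividing `n`, `k ≥ 1`, satisfies `l ^ k ≤ 2 φ (l ^ k) ≤ 2 φ (n) ≤ 2 B`, so it divides `(2 B)!`.
-/

open scoped BigOperators

namespace Pool.Agent.ETI

theorem tot_dvd {n B : ℕ} (hn : 0 < n) (h : n.totient ≤ B) : n ∣ (2 * B).factorial := by
  rw [Nat.dvd_iff_prime_pow_dvd_dvd]
  intro p k hp hk
  rcases Nat.eq_zero_or_pos k with rfl | hk0
  · rw [pow_zero]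
    exact one_dvd _
  have h1 : (p ^ k).totient ∣ n.totient := Nat.totient_dvd_of_dvd hk
  have h2 : (p ^ k).totient ≤ B := (Nat.le_of_dvd (Nat.totient_pos.2 hn) h1).trans h
  rw [Nat.totient_prime_pow hp hk0] at h2
  have h3 : p ^ k ≤ 2 * (p ^ (k - 1) * (p - 1)) := by
    obtain ⟨j, rfl⟩ := Nat.exists_eq_succ_of_ne_zero hk0.ne'
    rw [Nat.succ_sub_one, pow_succ]
    have h4 : p ≤ 2 * (p - 1) := by
      have := hp.two_le
      omega
    calc p ^ j * p ≤ p ^ j * (2 * (p - 1)) := Nat.mul_le_mul_left _ h4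
      _ = 2 * (p ^ j * (p - 1)) := by ring
  exact Nat.dvd_factorial (Nat.pow_pos hp.pos) (h3.trans (Nat.mul_le_mul_left 2 h2))

end Pool.Agent.ETI
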