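import Pool.Agent.ETI.Dis
import Pool.Agent.BPG.Fin
import Pool.Agent.HYI.Bri
import Pool.Agent.CST.Fin

/-!
# The elements `{(x - a_i)/(x - a_0), w}` are integral, with independent regulators

`BPG.main` with `P i = X - C (a i)`, `e = 1`, `ε = 1`, transported to the presentation of `K₂ ⊗ ℚ` of the statement.
-/

open scoped BigOperators Polynomial
open Polynomial

namespace Pool.Agent.ETI

open Pool.Agent.ETU Pool.Agent.CST Pool.Agent.ISG

/-- `(x - a_{i+1}) / (x - a_0)` -/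
noncomputable def xr {g : ℕ} {K : Type} [Field K] [CharZero K] (x : K) (a : Fin (g + 1) → ℤ)
    (i : Fin g) : Kˣ := xa x a i.succ / xa x a 0

private theorem bpg_main {g : ℕ} {a : Fin (g + 1) → ℤ} {c κ : ℤ} {K : Type} [Field K]
    [CharZero K] {x : K} {v : Kˣ} (H : Crv a c κ x v) :
    (∀ i, Helper11.sym (xr x a i) v ∈ Helper11.integralPart K) ∧
      ∃ (n : ℕ) (R : Fin n → (Helper11.K2Q K →ₗ[ℚ] ℝ)),
        (∀ j, ∃ γ : K →+* Helper11.LoopRing, ∀ s t : Kˣ,
          R j (Helper11.sym s t) = Helper11.regInt (γ (s : K) : ℝ → ℂ) (γ (t : K) : ℝ → ℂ)) ∧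
        BPG.genus (BPG.disc (fun i => X - C (a i)) (fun _ => 1) c κ 1) ≤
          Module.finrank ℝ (Submodule.span ℝ
            (Set.range fun (i : Fin g) (j : Fin n) => R j (Helper11.sym (xr x a i) v))) := by
  obtain ⟨u, v', hv, hu, hint, n, R, hR, hg⟩ := BPG.main (r := g)
    (P := fun i => (X - C (a i) : ℤ[X])) (e := fun _ => 1) (c := c) (κ := κ) (ε := 1)
    (fun i => monic_X_sub_C _) (fun i => (prime_X_sub_C _).irreducible)
    (fun i j h => H.inj (by
      have h1 := congrArg (fun p : ℤ[X] => p.coeff 0) h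
      simpa using h1))
    (fun _ => one_ne_zero) H.c0 (Or.inl ⟨rfl, H.κ2⟩) H.tr H.top (by
      have h1 := H.eq
      rw [Int.cast_one, one_mul, h1]
      congr 2
      refine Finset.prod_congr rfl fun i _ => ?_
      simp)
  have hv' : v' = v := Units.ext hv
  subst hv'
  have hu' : u = xr x a := by
    funext i
    apply Units.ext
    rw [hu, xr, Units.val_div_eq_div_val, xa_val H.tr, xa_val H.tr, natDegree_X_sub_C,
      natDegree_X_sub_C, pow_one, pow_one]
    simp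
  subst hu'
  refine ⟨hint, n, R, hR, ?_⟩
  have h2 : ∑ i : Fin (g + 1), ((X - C (a i) : ℤ[X]).natDegree *
      (if |κ| = 2 then (1 + 1) / 2 else 1) - 1) = 0 := by
    refine Finset.sum_eq_zero fun i _ => ?_
    rw [natDegree_X_sub_C]
    split_ifs <;> rfl
  rw [h2, add_zero] at hg
  exact hg

theorem Crv.int {g : ℕ} {a : Fin (g + 1) → ℤ} {c κ : ℤ} {K : Type} [Field K] [CharZero K]
    {x : K} {v : Kˣ} (H : Crv a c κ x v) (i : Fin g) : sb (xr x a i) v ∈ integralK2 K := by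
  obtain ⟨F, G, hF, hG, -, hFi⟩ := HYI.exists_bri K
  rw [mem_integral, eK_sb, ← hF]
  exact hFi _ ((bpg_main H).1 i)

theorem Crv.geom {g : ℕ} {a : Fin (g + 1) → ℤ} {c κ : ℤ} {K : Type} [Field K] [CharZero K]
    {x : K} {v : Kˣ} (H : Crv a c κ x v) (i : Fin g) :
    Helper11.sy (xr x a i) v ∈ geomM K := by
  have h1 := H.int i
  rw [mem_integral, eK_sb] at h1
  unfold Helper11.integralM at h1
  simp only [Submodule.mem_iInf] at h1
  unfold geomM
  simp only [Submodule.mem_iInf]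
  intro O hO
  exact h1 O hO.1

theorem Crv.reg {g : ℕ} {a : Fin (g + 1) → ℤ} {c κ : ℤ} {K : Type} [Field K] [CharZero K]
    {x : K} {v : Kˣ} (H : Crv a c κ x v) {p : ℕ} [Fact p.Prime] (hν : padicValInt p c ≠ 0)
    (hg : ¬ p ∣ g + 1) (hp : 4 < p) :
    ∃ (n : ℕ) (R : Fin n → (K2Q K →ₗ[ℚ] ℝ)),
      (∀ j, ∃ γ : K →+* Helper11.LoopRing, ∀ s t : Kˣ,
        R j (sb s t) = Helper11.regInt (γ (s : K) : ℝ → ℂ) (γ (t : K) : ℝ → ℂ)) ∧
      LinearIndependent ℝ fun (i : Fin g) (j : Fin n) => R j (sb (xr x a i) v) := by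
  obtain ⟨F, G, hF, hG, -, -⟩ := HYI.exists_bri K
  obtain ⟨-, n, R, hR, hle⟩ := bpg_main H
  have key : ∀ (j : Fin n) (s t : Kˣ),
      (R j ∘ₗ G ∘ₗ (eK K).toLinearMap) (sb s t) = R j (Helper11.sym s t) := by
    intro j s t
    rw [LinearMap.comp_apply, LinearMap.comp_apply]
    have h1 : (eK K).toLinearMap (sb s t) = Helper11.sy s t := eK_sb s t
    rw [h1, hG]
  refine ⟨n, fun j => R j ∘ₗ G ∘ₗ (eK K).toLinearMap, fun j => ?_, ?_⟩
  · obtain ⟨γ, hγ⟩ := hR j
    refine ⟨γ, fun s t => ?_⟩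
    rw [key, hγ]
  · have h1 : (fun (i : Fin g) (j : Fin n) =>
        (R j ∘ₗ G ∘ₗ (eK K).toLinearMap) (sb (xr x a i) v)) =
        fun (i : Fin g) (j : Fin n) => R j (Helper11.sym (xr x a i) v) := by
      funext i j
      exact key j _ _
    rw [h1, linearIndependent_iff_card_le_finrank_span, Fintype.card_fin]
    rw [genus_eq H.inj H.c0 H.κ2 hν hg hp] at hle
    exact hle

end Pool.Agent.ETI
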