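import Pool.Agent.ETI.Defs
import Pool.Agent.BPG.Defs

/-!
# ETI-Dis : the genus of the curve is `g`

`disc = (c P + κ) ^ 2 - 4`, `P = ∏ (X - a i)`, has `2 (g + 1)` simple complex zeros: at a zero `β` one has `c P(β) = - μ` with `|μ| ≤ 4`; when `μ = 0`, `β` is one of the `a i` and `P'(β) ≠ 0`; when `μ ≠ 0` and `P'(β) = 0`, then `(g + 1) β` is an algebraic integer, so `(g + 1) ^ (g + 1) P(β)` is a rational integer, and `c` divides `μ (g + 1) ^ (g + 1)`, which is prime to `p`.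
-/

open scoped BigOperators Polynomial
open Polynomial

namespace Pool.Agent.ETI

private lemma dis_int (P : ℤ[X]) {d : ℕ} (hP : P.natDegree = d) {β : ℂ} {m : ℤ}
    (hβ : IsIntegral ℤ ((m : ℂ) * β)) : IsIntegral ℤ ((m : ℂ) ^ d * aeval β P) := by
  rw [aeval_eq_sum_range, Finset.mul_sum, hP]
  refine IsIntegral.sum _ fun i hi => ?_
  have hi' : i ≤ d := Nat.lt_succ_iff.1 (Finset.mem_range.1 hi)
  have e : (m : ℂ) ^ d * (P.coeff i • β ^ i) =
      (((P.coeff i * m ^ (d - i) : ℤ)) : ℂ) * ((m : ℂ) * β) ^ i := by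
    conv_lhs => rw [← Nat.sub_add_cancel hi']
    rw [zsmul_eq_mul]
    push_cast
    rw [pow_add, mul_pow]
    ring
  rw [e]
  exact (isIntegral_algebraMap (R := ℤ) (A := ℂ)).mul (hβ.pow i)

private lemma dis_rat {q : ℚ} (h : IsIntegral ℤ ((q : ℚ) : ℂ)) : ∃ n : ℤ, q = n := by
  have h1 : IsIntegral ℤ q := by
    have := (isIntegral_algebraMap_iff (R := ℤ) (A := ℚ) (B := ℂ)
      (algebraMap ℚ ℂ).injective (x := q)).1
    exact this h
  obtain ⟨n, hn⟩ := IsIntegrallyClosed.isIntegral_iff.1 h1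
  exact ⟨n, by rw [← hn]; simp⟩

private lemma dis_key {g : ℕ} {a : Fin (g + 1) → ℤ} {c μ : ℤ} (hc : c ≠ 0) (hμ0 : μ ≠ 0)
    (hμ : |μ| ≤ 4) {p : ℕ} [Fact p.Prime] (hpc : (p : ℤ) ∣ c) (hg : ¬ p ∣ g + 1) (hp : 4 < p)
    {β : ℂ} (h : (c : ℂ) * aeval β (∏ i, (X - C (a i)) : ℤ[X]) = -(μ : ℂ)) :
    aeval β (derivative (∏ i, (X - C (a i)) : ℤ[X])) ≠ 0 := by
  intro h0
  set P : ℤ[X] := ∏ i, (X - C (a i)) with hP
  have hPm : P.Monic := monic_prod_of_monic _ _ fun i _ => monic_X_sub_C _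
  have hPd : P.natDegree = g + 1 := by
    rw [hP, natDegree_prod_of_monic _ _ fun i _ => monic_X_sub_C _]
    simp only [natDegree_X_sub_C, Finset.sum_const, Finset.card_univ, Fintype.card_fin,
      smul_eq_mul, mul_one]
  have hpp : p.Prime := Fact.out
  have hd1 : (derivative P).natDegree = g := by
    rw [natDegree_derivative P, hPd]; rfl
  have hlc : (derivative P).leadingCoeff = ((g + 1 : ℕ) : ℤ) := by
    rw [leadingCoeff, hd1, coeff_derivative, ← hPd, hPm.coeff_natDegree, hPd]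
    push_cast
    ring
  have h1 : IsIntegral ℤ ((((g + 1 : ℕ) : ℤ) : ℂ) * β) := by
    have h2 := isIntegral_leadingCoeff_smul (derivative P) β h0
    rwa [hlc, zsmul_eq_mul] at h2
  have h2 := dis_int P hPd h1
  have hcc : (c : ℂ) ≠ 0 := Int.cast_ne_zero.2 hc
  have h3 : (((g + 1 : ℕ) : ℤ) : ℂ) ^ (g + 1) * aeval β P =
      (((-(μ : ℚ) * ((g + 1 : ℕ) : ℚ) ^ (g + 1) / (c : ℚ) : ℚ)) : ℂ) := by
    have h4 : aeval β P = -(μ : ℂ) / c := by
      rw [eq_div_iff hcc, mul_comm]
      exact h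
    rw [h4]
    push_cast
    ring
  rw [h3] at h2
  obtain ⟨n, hn⟩ := dis_rat h2
  have hcq : (c : ℚ) ≠ 0 := Int.cast_ne_zero.2 hc
  rw [div_eq_iff hcq] at hn
  have h5 : -μ * ((g + 1 : ℕ) : ℤ) ^ (g + 1) = n * c := by exact_mod_cast hn
  have h6 : (p : ℤ) ∣ -μ * ((g + 1 : ℕ) : ℤ) ^ (g + 1) := h5 ▸ hpc.mul_left n
  have hpi : Prime (p : ℤ) := Nat.prime_iff_prime_int.1 hpp
  rcases hpi.dvd_or_dvd h6 with h7 | h7
  · rw [dvd_neg] at h7
    have h8 := Int.le_of_dvd (abs_pos.2 hμ0) ((dvd_abs _ _).2 h7)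
    have : ((p : ℕ) : ℤ) ≤ 4 := h8.trans hμ
    omega
  · exact hg (Int.natCast_dvd_natCast.1 (hpi.dvd_of_dvd_pow h7))

private lemma dis_zero {g : ℕ} {a : Fin (g + 1) → ℤ} (ha : Function.Injective a) {β : ℂ}
    (h : aeval β (∏ i, (X - C (a i)) : ℤ[X]) = 0) :
    aeval β (derivative (∏ i, (X - C (a i)) : ℤ[X])) ≠ 0 := by
  have h1 : (∏ i, (X - C (a i : ℂ)) : ℂ[X]).Separable :=
    separable_prod_X_sub_C_iff.2 fun i j hij => ha (Int.cast_injective (α := ℂ) hij)
  have hmap : (∏ i, (X - C (a i)) : ℤ[X]).map (Int.castRingHom ℂ) = ∏ i, (X - C (a i : ℂ)) := by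
    rw [Polynomial.map_prod]
    simp
  intro h2
  obtain ⟨u, v, huv⟩ := h1
  have h3 := congrArg (eval β) huv
  rw [eval_add, eval_mul, eval_mul, eval_one, ← hmap, derivative_map, eval_map, eval_map] at h3
  rw [aeval_def] at h h2
  have e : (Int.castRingHom ℂ) = algebraMap ℤ ℂ := rfl
  rw [e, h, h2] at h3
  simp at h3

theorem genus_eq {g : ℕ} {a : Fin (g + 1) → ℤ} (ha : Function.Injective a) {c κ : ℤ}
    (hc : c ≠ 0) (hκ : |κ| ≤ 2) {p : ℕ} [Fact p.Prime] (hν : padicValInt p c ≠ 0)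
    (hg : ¬ p ∣ g + 1) (hp : 4 < p) :
    BPG.genus (BPG.disc (fun i => X - C (a i)) (fun _ => 1) c κ 1) = g := by
  classical
  have hpc : (p : ℤ) ∣ c := by
    by_contra h
    exact hν (padicValInt.eq_zero_of_not_dvd h)
  set P : ℤ[X] := ∏ i, (X - C (a i)) with hP
  have hPm : P.Monic := monic_prod_of_monic _ _ fun i _ => monic_X_sub_C _
  have hPd : P.natDegree = g + 1 := by
    rw [hP, natDegree_prod_of_monic _ _ fun i _ => monic_X_sub_C _]
    simp only [natDegree_X_sub_C, Finset.sum_const, Finset.card_univ, Fintype.card_fin,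
      smul_eq_mul, mul_one]
  have hcc : (c : ℂ) ≠ 0 := Int.cast_ne_zero.2 hc
  set Q : ℂ[X] := C (c : ℂ) * P.map (Int.castRingHom ℂ) + C (κ : ℂ) with hQ
  have hD : BPG.disc (fun i => X - C (a i)) (fun _ => 1) c κ 1 = Q ^ 2 - C 4 := by
    rw [BPG.disc, hQ, hP, Polynomial.map_prod]
    simp
  have hQd : Q.natDegree = g + 1 := by
    rw [hQ, natDegree_add_C, natDegree_C_mul hcc, hPm.natDegree_map, hPd]
  set D : ℂ[X] := Q ^ 2 - C 4 with hDD
  have hDd : D.natDegree = 2 * (g + 1) := by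
    rw [hDD, natDegree_sub_C, natDegree_pow, hQd]
  have hD0 : D ≠ 0 := by
    intro h
    rw [h, natDegree_zero] at hDd
    omega
  have hev : ∀ β : ℂ, Q.eval β = (c : ℂ) * aeval β P + κ := by
    intro β
    rw [hQ, eval_add, eval_mul, eval_C, eval_C, eval_map, aeval_def]
    rfl
  have hdv : ∀ β : ℂ, (derivative Q).eval β = (c : ℂ) * aeval β (derivative P) := by
    intro β
    rw [hQ, derivative_add, derivative_C, add_zero, derivative_C_mul, derivative_map, eval_mul,
      eval_C, eval_map, aeval_def]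
    rfl
  have hk := abs_le.1 hκ
  have hsimple : ∀ β : ℂ, D.rootMultiplicity β ≤ 1 := by
    intro β
    by_contra hlt
    rw [not_le] at hlt
    obtain ⟨h1, h2⟩ := (one_lt_rootMultiplicity_iff_isRoot hD0).1 hlt
    rw [IsRoot.def, hDD, eval_sub, eval_pow, eval_C] at h1
    rw [IsRoot.def, hDD, derivative_sub, derivative_C, sub_zero, derivative_sq, eval_mul,
      eval_mul, eval_C] at h2
    have h3 : Q.eval β ≠ 0 := by
      intro h
      rw [h] at h1
      norm_num at h1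
    have h4 : (derivative Q).eval β = 0 := by
      rcases mul_eq_zero.1 h2 with h | h
      · rcases mul_eq_zero.1 h with h | h
        · norm_num at h
        · exact absurd h h3
      · exact h
    rw [hdv, mul_eq_zero, or_iff_right hcc] at h4
    have h5 : (Q.eval β - 2) * (Q.eval β + 2) = 0 := by linear_combination h1
    have main : ∀ μ : ℤ, |μ| ≤ 4 → (c : ℂ) * aeval β P = -(μ : ℂ) → False := by
      intro μ hμ h
      by_cases hμ0 : μ = 0
      · rw [hμ0, Int.cast_zero, neg_zero, mul_eq_zero, or_iff_right hcc] at h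
        exact dis_zero ha h h4
      · exact dis_key hc hμ0 hμ hpc hg hp h h4
    rcases mul_eq_zero.1 h5 with h | h
    · refine main (κ - 2) (abs_le.2 ⟨by omega, by omega⟩) ?_
      rw [hev] at h
      push_cast
      linear_combination h
    · refine main (κ + 2) (abs_le.2 ⟨by omega, by omega⟩) ?_
      rw [hev] at h
      push_cast
      linear_combination h
  have hnd : D.roots.Nodup := by
    rw [Multiset.nodup_iff_count_le_one]
    intro β
    rw [count_roots]
    exact hsimple β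
  have hset : {β : ℂ | Odd (D.rootMultiplicity β)} = (D.roots.toFinset : Set ℂ) := by
    ext β
    rw [Set.mem_ofPred_eq, Finset.mem_coe, Multiset.mem_toFinset, mem_roots hD0,
      ← rootMultiplicity_pos hD0]
    constructor
    · intro h
      exact h.pos
    · intro h
      have := hsimple β
      have h1 : D.rootMultiplicity β = 1 := by omega
      rw [h1]
      exact odd_one
  rw [hD, BPG.genus, hset, Set.ncard_coe_finset, Multiset.toFinset_card_of_nodup hnd,
    ← (IsAlgClosed.splits D).natDegree_eq_card_roots, hDd]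
  omega

end Pool.Agent.ETI
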