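import Pool.Agent.ETI.Dis

/-!
# The discriminant is squarefree
-/

open scoped BigOperators Polynomial
open Polynomial

namespace Pool.Agent.ETI

theorem disc_sqf {g : ℕ} (hg0 : 0 < g) {a : Fin (g + 1) → ℤ} (ha : Function.Injective a)
    {c κ : ℤ} (hc : c ≠ 0) (hκ : |κ| ≤ 2) {p : ℕ} [Fact p.Prime] (hν : padicValInt p c ≠ 0)
    (hg : ¬ p ∣ g + 1) (hp : 4 < p) :
    Squarefree (((C c * ∏ i, (X - C (a i)) + C κ) ^ 2 - 4 : ℤ[X]).map (Int.castRingHom ℚ)) := by
  classical
  have h1 := genus_eq ha hc hκ hν hg hp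
  set P : ℤ[X] := (C c * ∏ i, (X - C (a i)) + C κ) ^ 2 - 4 with hP
  have hD : BPG.disc (fun i => X - C (a i)) (fun _ => 1) c κ 1 = P.map (Int.castRingHom ℂ) := by
    rw [BPG.disc, hP]
    simp [Polynomial.map_prod]
    exact map_ofNat C 4
  set D : ℂ[X] := P.map (Int.castRingHom ℂ) with hDD
  rw [hD] at h1
  have hQd : (C c * ∏ i, (X - C (a i)) + C κ : ℤ[X]).natDegree = g + 1 := by
    rw [natDegree_add_C, natDegree_C_mul hc,
      natDegree_prod_of_monic _ _ fun i _ => monic_X_sub_C _]
    simp only [natDegree_X_sub_C, Finset.sum_const, Finset.card_univ, Fintype.card_fin,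
      smul_eq_mul, mul_one]
  have hPd : P.natDegree = 2 * (g + 1) := by
    have h4 : (4 : ℤ[X]) = C 4 := by simp
    rw [hP, h4, natDegree_sub_C, natDegree_pow, hQd]
  have hinj : Function.Injective (Int.castRingHom ℂ) := Int.cast_injective
  have hDd : D.natDegree = 2 * (g + 1) := by
    rw [hDD, natDegree_map_eq_of_injective hinj, hPd]
  have hD0 : D ≠ 0 := by
    intro h
    rw [h, natDegree_zero] at hDd
    omega
  have hsub : {β : ℂ | Odd (D.rootMultiplicity β)} ⊆ (D.roots.toFinset : Set ℂ) := by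
    intro β hβ
    rw [Finset.mem_coe, Multiset.mem_toFinset, mem_roots hD0, ← rootMultiplicity_pos hD0]
    exact Odd.pos hβ
  have hcard := Set.ncard_le_ncard hsub (Finset.finite_toSet _)
  rw [Set.ncard_coe_finset] at hcard
  rw [BPG.genus] at h1
  have h2 : 2 * (g + 1) ≤ D.roots.toFinset.card := by omega
  have h3 : D.roots.card = 2 * (g + 1) := by
    rw [← hDd]
    exact (IsAlgClosed.splits D).natDegree_eq_card_roots.symm
  have hnd : D.roots.Nodup := by
    rw [← Multiset.toFinset_card_eq_card_iff_nodup]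
    exact le_antisymm (Multiset.toFinset_card_le _) (by omega)
  have hsep : D.Separable := (nodup_roots_iff_of_splits hD0 (IsAlgClosed.splits D)).1 hnd
  have h5 : D = (P.map (Int.castRingHom ℚ)).map (algebraMap ℚ ℂ) := by
    rw [hDD, Polynomial.map_map]
    congr 1
  rw [h5, separable_map] at hsep
  exact hsep.squarefree

end Pool.Agent.ETI
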