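import Pool.Agent.ETI.CvA
import Pool.Agent.ETI.Bpg
import Pool.Agent.ETU.Fin

/-!
# The end of the argument

`Hf x a e = ∏ (xr i) ^ e i.succ`, as `∑ e l = 0`, so `sy v (Hf x a e)` is in `geomM K` and in the span of the
`sy (xr i) v`; the difference `β` is in `LP v ⊓ geomM K = ⊥`.
-/

open scoped BigOperators Polynomial
open Polynomial

namespace Pool.Agent.ETI

open Pool.Agent.ETU Pool.Agent.CST Pool.Agent.Helper11 Pool.Agent.ISI

private theorem etifin_zpow {G ι : Type} [CommGroup G] (s : Finset ι) (f : ι → ℤ) (u : G) :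
    ∏ i ∈ s, u ^ f i = u ^ ∑ i ∈ s, f i := by
  classical
  induction s using Finset.induction_on with
  | empty => simp
  | insert i s hi ih => rw [Finset.prod_insert hi, Finset.sum_insert hi, zpow_add, ih]

private theorem etifin_prod {g : ℕ} {K : Type} [Field K] [CharZero K] (x : K)
    (a : Fin (g + 1) → ℤ) {e : Fin (g + 1) → ℤ} (he : ∑ l, e l = 0) :
    Hf x a e = ∏ i : Fin g, xr x a i ^ e i.succ := by
  have h1 : ∏ i : Fin g, xr x a i ^ e i.succ =
      (∏ i : Fin g, xa x a i.succ ^ e i.succ) * (xa x a 0) ^ (e 0) := by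
    have h2 : ∀ i : Fin g, xr x a i ^ e i.succ =
        xa x a i.succ ^ e i.succ * (xa x a 0) ^ (-e i.succ) := by
      intro i
      unfold xr
      rw [div_zpow, zpow_neg, div_eq_mul_inv]
    rw [Finset.prod_congr rfl fun i _ => h2 i, Finset.prod_mul_distrib]
    congr 1
    have h3 : ∏ i : Fin g, (xa x a 0) ^ (-e i.succ) = (xa x a 0) ^ (∑ i : Fin g, -e i.succ) :=
      etifin_zpow (Finset.univ : Finset (Fin g)) (fun i => -e i.succ) (xa x a 0)
    rw [h3]
    congr 1
    rw [Fin.sum_univ_succ] at he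
    rw [Finset.sum_neg_distrib]
    omega
  rw [h1]
  unfold Hf
  rw [Fin.prod_univ_succ, mul_comm]

theorem Crv.fin_mem {g : ℕ} {a : Fin (g + 1) → ℤ} {c κ : ℤ} {K : Type} [Field K] [CharZero K]
    {x : K} {v : Kˣ} (H : Crv a c κ x v) {z β : KMQ K 2} {N : ℕ} (hN : 0 < N)
    {e : Fin (g + 1) → ℤ} (he : ∑ l, e l = 0) (hβ : β ∈ LP (v : K))
    (hz : (N : ℚ) • z = sy v (Hf x a e) + β) (hzg : z ∈ geomM K) :
    z ∈ Submodule.span ℚ (Set.range fun i : Fin g => sy (xr x a i) v) := by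
  have h1 : sy v (Hf x a e) = ∑ i : Fin g, -((e i.succ : ℚ) • sy (xr x a i) v) := by
    rw [etifin_prod x a he, sy_prod_right]
    refine Finset.sum_congr rfl fun i _ => ?_
    rw [sy_zpow_right, sy_anti, smul_neg]
  have h2 : sy v (Hf x a e) ∈ Submodule.span ℚ (Set.range fun i : Fin g => sy (xr x a i) v) := by
    rw [h1]
    exact Submodule.sum_mem _ fun i _ => Submodule.neg_mem _
      (Submodule.smul_mem _ _ (Submodule.subset_span ⟨i, rfl⟩))
  have h3 : sy v (Hf x a e) ∈ geomM K := by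
    rw [h1]
    exact Submodule.sum_mem _ fun i _ => Submodule.neg_mem _
      (Submodule.smul_mem _ _ (H.geom i))
  have h4 : β ∈ LP (v : K) ⊓ geomM K := by
    refine ⟨hβ, ?_⟩
    have h5 : β = (N : ℚ) • z - sy v (Hf x a e) := by
      rw [hz]
      abel
    rw [h5]
    exact Submodule.sub_mem _ (Submodule.smul_mem _ _ hzg) h3
  rw [lp_unr H.tr_v H.fin, Submodule.mem_bot] at h4
  rw [h4, add_zero] at hz
  have hN' : (N : ℚ) ≠ 0 := by exact_mod_cast hN.ne'
  have h6 := Submodule.smul_mem _ ((N : ℚ)⁻¹) h2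
  rwa [← hz, smul_smul, inv_mul_cancel₀ hN', one_smul] at h6

end Pool.Agent.ETI
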