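import Pool.Agent.ETI.CvA

/-!
# Ramification, and the analogue of `good_irr`

`∏ (y - a_i α) = c⁻¹ α ^ g D(α)` has norm `‖c‖⁻¹ = p ^ ν > 1`, so `‖y‖ > 1` and all factors have norm `‖y‖`; by
`Tm.deg` the polynomial `R(α, ·)` of degree `< g + 1` with coefficients in `F` and the root `y` is zero.
-/

open scoped BigOperators Polynomial
open Polynomial

namespace Pool.Agent.ETI

open Pool.Agent.ETU

private theorem Ram_ev {g : ℕ} {a : Fin (g + 1) → ℤ} {c κ : ℤ} {M : Type} [Field M] [CharZero M]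
    (α y : M) : ev2 α y (Ey a c κ) =
      ∏ i, (y - (a i : M) * α) - ((c : M)⁻¹ * α ^ g) * (α ^ 2 - (κ : M) * α + 1) := by
  have hX : ev2 α y (X : ℚ[X][X]) = y := by
    unfold ev2
    simp
  have hC : ∀ q : ℚ[X], ev2 α y (C q) = aeval α q := by
    intro q
    unfold ev2
    simp
  have hD : aeval α ((Dq κ).map (Int.castRingHom ℚ)) = α ^ 2 - (κ : M) * α + 1 := by
    unfold Dq
    simp
  unfold Ey
  rw [map_sub, map_prod]
  congr 1
  · refine Finset.prod_congr rfl fun i _ => ?_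
    rw [map_sub, hX, hC, map_mul, aeval_C, aeval_X]
    congr 2
    simp
  · rw [hC, map_mul, map_mul, aeval_C, map_pow, aeval_X, hD]
    congr 2
    simp

private theorem Ram_normp (p : ℕ) [Fact p.Prime] : ‖((p : ℕ) : PadicAlgCl p)‖ = (p : ℝ)⁻¹ := by
  rw [← map_natCast (algebraMap ℚ_[p] (PadicAlgCl p)), PadicAlgCl.norm_extends, Padic.norm_p]

private theorem Ram_int {p : ℕ} [Fact p.Prime] (n : ℤ) : ‖((n : ℤ) : PadicAlgCl p)‖ ≤ 1 := by
  rw [← map_intCast (algebraMap ℚ_[p] (PadicAlgCl p)), PadicAlgCl.norm_extends]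
  exact Padic.norm_int_le_one n

private theorem Ram_c {p : ℕ} [Fact p.Prime] {c : ℤ} (hc : c ≠ 0) :
    ‖((c : ℤ) : PadicAlgCl p)‖ = (p : ℝ) ^ (-(padicValInt p c : ℤ)) := by
  rw [← map_intCast (algebraMap ℚ_[p] (PadicAlgCl p)), PadicAlgCl.norm_extends]
  have h1 : ((c : ℤ) : ℚ_[p]) = (((c : ℤ) : ℚ) : ℚ_[p]) := by norm_cast
  rw [h1, Padic.eq_padicNorm, padicNorm.eq_zpow_of_nonzero (by exact_mod_cast hc),
    padicValRat.of_int]
  push_cast
  rfl

theorem ram {p : ℕ} [Fact p.Prime] {g : ℕ} {a : Fin (g + 1) → ℤ} {c κ : ℤ} (hc : c ≠ 0)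
    (hν : padicValInt p c ≠ 0) {α y : PadicAlgCl p} (h1 : ‖α‖ = 1) (h2 : ‖aeval α (Dq κ)‖ = 1)
    (h : ev2 α y (Ey a c κ) = 0) :
    ‖y‖ ^ (g + 1) = ‖((p : ℕ) : PadicAlgCl p)‖ ^ (-(padicValInt p c : ℤ)) := by
  have hp1 : (1 : ℝ) < p := by exact_mod_cast (Fact.out : p.Prime).one_lt
  have hna : ∀ u v : PadicAlgCl p, ‖u + v‖ ≤ max ‖u‖ ‖v‖ := PadicAlgCl.isNonarchimedean p
  have h2' : ‖α ^ 2 - (κ : PadicAlgCl p) * α + 1‖ = 1 := by
    have e : aeval α (Dq κ) = α ^ 2 - (κ : PadicAlgCl p) * α + 1 := by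
      unfold Dq
      simp
    rw [← e]
    exact h2
  rw [Ram_ev, sub_eq_zero] at h
  have hn : ∏ i, ‖y - (a i : PadicAlgCl p) * α‖ = (p : ℝ) ^ (padicValInt p c : ℤ) := by
    have h3 := congrArg norm h
    rw [norm_prod, norm_mul, norm_mul, norm_inv, norm_pow, h1, h2', one_pow, mul_one, mul_one,
      Ram_c hc, zpow_neg, inv_inv] at h3
    exact h3
  have hbig : (1 : ℝ) < (p : ℝ) ^ (padicValInt p c : ℤ) := by
    rw [zpow_natCast]
    exact one_lt_pow₀ hp1 hν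
  have hai : ∀ i, ‖(a i : PadicAlgCl p) * α‖ ≤ 1 := by
    intro i
    rw [norm_mul, h1, mul_one]
    exact Ram_int (a i)
  have hy : 1 < ‖y‖ := by
    by_contra hle
    rw [not_lt] at hle
    have h4 : ∏ i, ‖y - (a i : PadicAlgCl p) * α‖ ≤ 1 := by
      refine Finset.prod_le_one (fun i _ => norm_nonneg _) (fun i _ => ?_)
      rw [sub_eq_add_neg]
      refine (hna _ _).trans (max_le hle ?_)
      rw [norm_neg]
      exact hai i
    rw [hn] at h4
    linarith
  have heq : ∀ i, ‖y - (a i : PadicAlgCl p) * α‖ = ‖y‖ := by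
    intro i
    apply le_antisymm
    · rw [sub_eq_add_neg]
      refine (hna _ _).trans (max_le (le_refl _) ?_)
      rw [norm_neg]
      exact (hai i).trans hy.le
    · by_contra hlt
      rw [not_le] at hlt
      have h5 := hna (y - (a i : PadicAlgCl p) * α) ((a i : PadicAlgCl p) * α)
      rw [sub_add_cancel] at h5
      have h6 : max ‖y - (a i : PadicAlgCl p) * α‖ ‖(a i : PadicAlgCl p) * α‖ < ‖y‖ :=
        max_lt hlt (lt_of_le_of_lt (hai i) hy)
      linarith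
  rw [Finset.prod_congr rfl (fun i _ => heq i), Finset.prod_const, Finset.card_univ,
    Fintype.card_fin] at hn
  rw [hn, Ram_normp, zpow_neg, inv_zpow, inv_inv]

private theorem Ram_dvd {M : Type} [Field M] [CharZero M] {P : ℚ[X]} (hP : Irreducible P) {α : M}
    (hα : aeval α P = 0) {Q : ℚ[X]} (hQ : aeval α Q = 0) : P ∣ Q := by
  by_contra hn
  obtain ⟨u, v, huv⟩ := (hP.coprime_iff_not_dvd).2 hn
  have h := congrArg (aeval α) huv
  rw [map_add, map_mul, map_mul, hα, hQ, mul_zero, mul_zero, add_zero, map_one] at h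
  exact zero_ne_one h

private theorem Ram_mem {p : ℕ} [Fact p.Prime] {F : IntermediateField ℚ_[p] (PadicAlgCl p)}
    {α : PadicAlgCl p} (hα : α ∈ F) (Q : ℚ[X]) : aeval α Q ∈ F := by
  rw [Polynomial.aeval_eq_sum_range]
  refine F.sum_mem fun i _ => ?_
  rw [Algebra.smul_def, eq_ratCast]
  exact F.mul_mem (SubfieldClass.ratCast_mem F _) (pow_mem hα i)

theorem irr_crv {p : ℕ} [Fact p.Prime] {g : ℕ} {a : Fin (g + 1) → ℤ} {c κ : ℤ} (hg : 0 < g)
    (hc : c ≠ 0) (hν : (g + 1).Coprime (padicValInt p c))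
    {F : IntermediateField ℚ_[p] (PadicAlgCl p)} (hF : Tm p (g + 1) F) {P : ℚ[X]}
    (hP : Irreducible P) {α : PadicAlgCl p} (hα : aeval α P = 0) (hαF : α ∈ F) (h1 : ‖α‖ = 1)
    (h2 : ‖aeval α (Dq κ)‖ = 1) (R : ℚ[X][X]) (hR : R.natDegree < g + 1) (y : PadicAlgCl p)
    (hy : ev2 α y (Ey a c κ) = 0) (hRy : ev2 α y R = 0) : ∀ i, P ∣ R.coeff i := by
  have hν0 : padicValInt p c ≠ 0 := by
    intro h0
    rw [h0, Nat.coprime_zero_right] at hν
    omega
  have hr := ram hc hν0 h1 h2 hy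
  have hcop : IsCoprime (-(padicValInt p c : ℤ)) ((g + 1 : ℕ) : ℤ) := by
    rw [IsCoprime.neg_left_iff]
    exact (Nat.isCoprime_iff_coprime.2 hν).symm
  set φ : ℚ[X] →+* PadicAlgCl p := (aeval α : ℚ[X] →ₐ[ℚ] PadicAlgCl p).toRingHom with hφ
  have hφa : ∀ Q : ℚ[X], φ Q = aeval α Q := fun Q => rfl
  have hroot : (R.map φ).IsRoot y := by
    rw [IsRoot.def, eval_map]
    exact hRy
  have h0 : R.map φ = 0 := by
    by_contra hne
    have h3 := hF.deg y _ hr hcop (R.map φ) hne (fun i => by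
      rw [coeff_map, hφa]
      exact Ram_mem hαF _) hroot
    have h4 := natDegree_map_le (f := φ) (p := R)
    omega
  intro i
  refine Ram_dvd hP hα ?_
  have h5 := congrArg (fun q => coeff q i) h0
  simp only [coeff_map, coeff_zero] at h5
  rw [hφa] at h5
  exact h5

end Pool.Agent.ETI
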