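import Pool.Agent.ETI.CvA

/-!
# MODULE ETI-Inf : the place over `w = ∞` is unique, with residue field `ℚ`

At a place `O` with `1 < O.valuation v` (`w(O) = ∞`): `O.valuation x > 1` (else `v + v⁻¹` would be in `O`), and `v = c x ^ (g+1) (1 + small)`.
Every `t : K` is `∑ j < g+1, r_j(v) x ^ j`, `r_j ∈ ℚ(v)` (`K = ℚ(v)(x)`, `x` a root of the polynomial `c ∏ (X - a_i) + κ - v - v⁻¹` of degree `g + 1`; reduce
modulo it). For `r_j ≠ 0`: `r_j(v) x ^ j = q_j x ^ ((g+1) n_j + j) (1 + small)`, `q_j ∈ ℚ`, and the exponents are different (modulo `g + 1`), so the term with the largest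
exponent dominates at ALL such places `O` at the same time: `inf_rep`.
`inf_unique`: from `inf_rep`, `t ∈ O` iff `k ≤ 0` (for `t ≠ 0`). `cst`: a place over `∞` exists (`exists_zero` (CST) for `v⁻¹`);
an algebraic `t ≠ 0` has `k = 0` (it and its inverse are integral over `ℚ`), `t - q` is algebraic and not a unit, so it is `0`.
-/

open scoped BigOperators Polynomial
open Polynomial

namespace Pool.Agent.ETI

open Pool.Agent.ETU Pool.Agent.CST Pool.Agent.Helper11 Pool.Agent.ISI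

section lead

variable {K : Type} [Field K] [CharZero K]

private theorem Inf_rle {O : ValuationSubring K} (hO : IsPl O) (q : ℚ) :
    O.valuation (q : K) ≤ 1 := (O.valuation_le_one_iff _).2 (hO.2 q)

private theorem Inf_rat {O : ValuationSubring K} (hO : IsPl O) {q : ℚ} (hq : q ≠ 0) :
    O.valuation (q : K) = 1 := by
  have h1 := Inf_rle hO q
  have h2 : O.valuation ((q : K)⁻¹) ≤ 1 := by
    have := Inf_rle (K := K) hO q⁻¹
    rwa [Rat.cast_inv] at this
  rw [map_inv₀] at h2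
  have h3 : O.valuation (q : K) ≠ 0 := (O.valuation.ne_zero_iff).2 (Rat.cast_ne_zero.2 hq)
  exact le_antisymm h1 ((inv_le_one₀ (zero_lt_iff.2 h3)).1 h2)

/-- `t = q x ^ k (1 + small)` at all places over infinity -/
private def InfLd (x : K) (v : Kˣ) (t : K) (k : ℤ) (q : ℚ) : Prop :=
  q ≠ 0 ∧ ∀ O : ValuationSubring K, IsPl O → 1 < O.valuation (v : K) →
    1 < O.valuation x ∧ O.valuation (t * x ^ (-k) - q) < 1

private theorem Inf_one {x : K} {O : ValuationSubring K} (hO : IsPl O) {t : K} {k : ℤ} {q : ℚ}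
    (hq : q ≠ 0) (h : O.valuation (t * x ^ (-k) - q) < 1) :
    O.valuation (t * x ^ (-k)) = 1 := by
  have h1 : t * x ^ (-k) = (t * x ^ (-k) - q) + (q : K) := by ring
  rw [h1, Valuation.map_add_eq_of_lt_right, Inf_rat hO hq]
  rwa [Inf_rat hO hq]

private theorem Inf_val {x : K} {O : ValuationSubring K} (hO : IsPl O) {t : K} {k : ℤ} {q : ℚ}
    (hq : q ≠ 0) (hx : 1 < O.valuation x) (h : O.valuation (t * x ^ (-k) - q) < 1) :
    O.valuation t = O.valuation x ^ k := by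
  have h1 := Inf_one hO hq h
  rw [map_mul, map_zpow₀, zpow_neg] at h1
  have h2 : O.valuation x ^ k ≠ 0 := zpow_ne_zero _ (fun h0 => by
    rw [h0] at hx
    exact not_lt_bot hx)
  exact (mul_inv_eq_one₀ h2).1 h1

private theorem Inf_mul {x : K} {v : Kˣ} {t t' : K} {k k' : ℤ} {q q' : ℚ}
    (h : InfLd x v t k q) (h' : InfLd x v t' k' q') : InfLd x v (t * t') (k + k') (q * q') := by
  refine ⟨mul_ne_zero h.1 h'.1, fun O hO hv => ?_⟩
  obtain ⟨hx, h1⟩ := h.2 O hO hv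
  obtain ⟨-, h2⟩ := h'.2 O hO hv
  refine ⟨hx, ?_⟩
  have hx0 : x ≠ 0 := by
    rintro rfl
    rw [map_zero] at hx
    exact not_lt_bot hx
  have h3 : t * t' * x ^ (-(k + k')) - ((q * q' : ℚ) : K) =
      (t * x ^ (-k) - q) * (t' * x ^ (-k')) + (q : K) * (t' * x ^ (-k') - q') := by
    rw [neg_add, zpow_add₀ hx0]
    push_cast
    ring
  rw [h3]
  refine Valuation.map_add_lt _ ?_ ?_
  · rw [map_mul, Inf_one hO h'.1 h2, mul_one]
    exact h1
  · rw [map_mul, Inf_rat hO h.1, one_mul]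
    exact h2

private theorem Inf_inv {x : K} {v : Kˣ} {t : K} {k : ℤ} {q : ℚ} (ht : t ≠ 0)
    (h : InfLd x v t k q) : InfLd x v t⁻¹ (-k) q⁻¹ := by
  refine ⟨inv_ne_zero h.1, fun O hO hv => ?_⟩
  obtain ⟨hx, h1⟩ := h.2 O hO hv
  refine ⟨hx, ?_⟩
  have hx0 : x ≠ 0 := by
    rintro rfl
    rw [map_zero] at hx
    exact not_lt_bot hx
  have hq : (q : K) ≠ 0 := Rat.cast_ne_zero.2 h.1
  have hk : x ^ k ≠ 0 := zpow_ne_zero _ hx0
  have h3 : t⁻¹ * x ^ (-(-k)) - ((q⁻¹ : ℚ) : K) =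
      -((t * x ^ (-k) - q) * (t * x ^ (-k))⁻¹ * ((q⁻¹ : ℚ) : K)) := by
    rw [neg_neg, zpow_neg]
    push_cast
    field_simp
    ring
  rw [h3, Valuation.map_neg, map_mul, map_mul, map_inv₀, Inf_one hO h.1 h1, inv_one, mul_one,
    Inf_rat hO (inv_ne_zero h.1), mul_one]
  exact h1

private theorem Inf_sum {x : K} {v : Kˣ} {ι : Type} {s : Finset ι} {T : ι → K} {k : ι → ℤ}
    {q : ι → ℚ} (hx : x ≠ 0) (hT : ∀ i ∈ s, T i ≠ 0 → InfLd x v (T i) (k i) (q i))
    (hk : ∀ i ∈ s, ∀ j ∈ s, T i ≠ 0 → T j ≠ 0 → k i = k j → i = j)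
    (hne : ∃ i ∈ s, T i ≠ 0) :
    ∃ i ∈ s, T i ≠ 0 ∧ InfLd x v (∑ i ∈ s, T i) (k i) (q i) := by
  classical
  obtain ⟨i0, hi0, hi0'⟩ := hne
  obtain ⟨i, hi, hmax⟩ := Finset.exists_max_image (s.filter fun i => T i ≠ 0) k
    ⟨i0, Finset.mem_filter.2 ⟨hi0, hi0'⟩⟩
  obtain ⟨his, hi'⟩ := Finset.mem_filter.1 hi
  refine ⟨i, his, hi', (hT i his hi').1, fun O hO hv => ?_⟩
  obtain ⟨hx1, h1⟩ := (hT i his hi').2 O hO hv
  refine ⟨hx1, ?_⟩
  have h2 : (∑ j ∈ s, T j) * x ^ (-k i) - (q i : K) =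
      (T i * x ^ (-k i) - q i) + ∑ j ∈ s.erase i, T j * x ^ (-k i) := by
    rw [← Finset.add_sum_erase s T his, add_mul, Finset.sum_mul]
    ring
  rw [h2]
  refine Valuation.map_add_lt _ h1 (Valuation.map_sum_lt _ one_ne_zero fun j hj => ?_)
  obtain ⟨hji, hjs⟩ := Finset.mem_erase.1 hj
  by_cases hj0 : T j = 0
  · rw [hj0, zero_mul, map_zero]
    exact zero_lt_one
  · have h3 := hT j hjs hj0
    have h4 : k j < k i := lt_of_le_of_ne (hmax j (Finset.mem_filter.2 ⟨hjs, hj0⟩))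
      fun h => hji (hk j hjs i his hj0 hi' h)
    rw [map_mul, map_zpow₀, Inf_val hO h3.1 hx1 (h3.2 O hO hv).2,
      ← zpow_add₀ ((O.valuation.ne_zero_iff).2 hx)]
    exact zpow_lt_one_of_neg₀ hx1 (by omega)

end lead

private theorem Inf_x {g : ℕ} {a : Fin (g + 1) → ℤ} {c κ : ℤ} {K : Type} [Field K] [CharZero K]
    {x : K} {v : Kˣ} (H : Crv a c κ x v) {O : ValuationSubring K}
    (hv : 1 < O.valuation (v : K)) : 1 < O.valuation x := by
  by_contra hx
  have h1 : x ∈ O := (O.valuation_le_one_iff _).1 (not_lt.1 hx)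
  have h2 : (v : K)⁻¹ ∈ O := by
    rw [← O.valuation_le_one_iff, map_inv₀]
    exact inv_le_one_of_one_le₀ hv.le
  have h3 : (v : K) ∈ O := by
    have h4 : (v : K) = (c * ∏ i, (x - a i) + κ) - (v : K)⁻¹ := by
      rw [← H.eq]
      ring
    rw [h4]
    exact sub_mem (add_mem (mul_mem (intCast_mem O c)
      (prod_mem fun i _ => sub_mem h1 (intCast_mem O (a i)))) (intCast_mem O κ)) h2
  exact absurd ((O.valuation_le_one_iff _).2 h3) (not_le.2 hv)

/-- `v = c x ^ (g + 1) (1 + small)` -/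
private theorem Inf_v {g : ℕ} {a : Fin (g + 1) → ℤ} {c κ : ℤ} {K : Type} [Field K] [CharZero K]
    {x : K} {v : Kˣ} (H : Crv a c κ x v) : InfLd x v (v : K) (g + 1 : ℕ) c := by
  have hxt : x ≠ 0 := fun h => H.tr (h ▸ isAlgebraic_zero)
  have hq1 : ∀ O : ValuationSubring K, IsPl O → 1 < O.valuation (v : K) → ∀ n : ℤ,
      O.valuation (n : K) ≤ 1 := fun O _ _ n => (O.valuation_le_one_iff _).2 (intCast_mem O n)
  have hxa : ∀ b : ℤ, InfLd x v (x - b) 1 1 := by
    intro b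
    refine ⟨one_ne_zero, fun O hO hv => ⟨Inf_x H hv, ?_⟩⟩
    have h1 : (x - (b : K)) * x ^ (-1 : ℤ) - ((1 : ℚ) : K) = -((b : K) * x⁻¹) := by
      rw [zpow_neg, zpow_one, sub_mul, mul_inv_cancel₀ hxt]
      push_cast
      ring
    rw [h1, Valuation.map_neg, map_mul, map_inv₀]
    exact (mul_le_of_le_one_left' (hq1 O hO hv b)).trans_lt
      (inv_lt_one_of_one_lt₀ (Inf_x H hv))
  have hpr : ∀ s : Finset (Fin (g + 1)), InfLd x v (∏ i ∈ s, (x - a i)) (s.card : ℕ) 1 := by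
    classical
    intro s
    induction s using Finset.induction_on with
    | empty =>
      refine ⟨one_ne_zero, fun O hO hv => ⟨Inf_x H hv, ?_⟩⟩
      simp
    | insert i s hi ih =>
      rw [Finset.prod_insert hi, Finset.card_insert_of_notMem hi]
      have h1 := Inf_mul (hxa (a i)) ih
      rw [mul_one] at h1
      convert h1 using 1
      push_cast
      ring
  have h1 := hpr Finset.univ
  rw [Finset.card_univ, Fintype.card_fin] at h1
  refine ⟨by exact_mod_cast H.c0, fun O hO hv => ⟨Inf_x H hv, ?_⟩⟩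
  have hx1 := Inf_x H hv
  have h2 := (h1.2 O hO hv).2
  have h3 : (v : K) * x ^ (-((g + 1 : ℕ) : ℤ)) - (((c : ℤ) : ℚ) : K) =
      (c : K) * ((∏ i, (x - a i)) * x ^ (-((g + 1 : ℕ) : ℤ)) - ((1 : ℚ) : K)) +
        ((κ : K) - (v : K)⁻¹) * x ^ (-((g + 1 : ℕ) : ℤ)) := by
    have h4 : (v : K) = (c * ∏ i, (x - a i) + κ) - (v : K)⁻¹ := by
      rw [← H.eq]
      ring
    rw [Rat.cast_intCast, Rat.cast_one]
    linear_combination (x ^ (-((g + 1 : ℕ) : ℤ))) * h4
  rw [h3]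
  refine Valuation.map_add_lt _ ?_ ?_
  · rw [map_mul]
    exact (mul_le_of_le_one_left' (hq1 O hO hv c)).trans_lt h2
  · rw [map_mul, map_zpow₀]
    have h4 : O.valuation ((κ : K) - (v : K)⁻¹) ≤ 1 := by
      rw [O.valuation_le_one_iff]
      refine sub_mem (intCast_mem O κ) ?_
      rw [← O.valuation_le_one_iff, map_inv₀]
      exact inv_le_one_of_one_le₀ hv.le
    exact (mul_le_of_le_one_left' h4).trans_lt (zpow_lt_one_of_neg₀ hx1 (by omega))

private theorem Inf_pow {K : Type} [Field K] [CharZero K] {x : K} {v : Kˣ} {t : K} {m : ℤ} {q : ℚ}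
    (h : InfLd x v t m q) (n : ℕ) (hx : ∀ O : ValuationSubring K, IsPl O →
      1 < O.valuation (v : K) → 1 < O.valuation x) : InfLd x v (t ^ n) (m * n) (q ^ n) := by
  induction n with
  | zero =>
    refine ⟨by simp, fun O hO hv => ⟨hx O hO hv, ?_⟩⟩
    simp
  | succ n ih =>
    have h1 := Inf_mul ih h
    rw [← pow_succ, ← pow_succ] at h1
    convert h1 using 1
    push_cast
    ring

/-- elements of `ℚ(v)` -/
private theorem Inf_L {g : ℕ} {a : Fin (g + 1) → ℤ} {c κ : ℤ} {K : Type} [Field K] [CharZero K]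
    {x : K} {v : Kˣ} (H : Crv a c κ x v) {s : K}
    (hs : s ∈ IntermediateField.adjoin ℚ {(v : K)}) (hs0 : s ≠ 0) :
    ∃ (n : ℤ) (q : ℚ), InfLd x v s ((g + 1 : ℕ) * n) q := by
  have hxt : x ≠ 0 := fun h => H.tr (h ▸ isAlgebraic_zero)
  have hpol : ∀ r : ℚ[X], r ≠ 0 → ∃ (n : ℤ) (q : ℚ),
      InfLd x v (aeval (v : K) r) ((g + 1 : ℕ) * n) q := by
    intro r hr
    rw [aeval_eq_sum_range]
    have h1 : ∀ i ∈ Finset.range (r.natDegree + 1), r.coeff i • (v : K) ^ i ≠ 0 →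
        InfLd x v (r.coeff i • (v : K) ^ i) (((g + 1 : ℕ) : ℤ) * i) (r.coeff i * (c : ℚ) ^ i) := by
      intro i _ hi
      have h2 : r.coeff i ≠ 0 := by
        intro h
        rw [h, zero_smul] at hi
        exact hi rfl
      have h3 : InfLd x v ((r.coeff i : ℚ) : K) 0 (r.coeff i) := by
        refine ⟨h2, fun O hO hv => ⟨Inf_x H hv, ?_⟩⟩
        simp
      have h4 := Inf_mul h3 (Inf_pow (Inf_v H) i fun O _ hv => Inf_x H hv)
      rw [zero_add] at h4
      rw [Algebra.smul_def, eq_ratCast]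
      exact h4
    obtain ⟨i, -, -, h2⟩ := Inf_sum hxt h1 (by
      intro i _ j _ _ _ hij
      have h3 : ((g + 1 : ℕ) : ℤ) ≠ 0 := by positivity
      exact_mod_cast mul_left_cancel₀ h3 hij) ⟨r.natDegree, by simp, by
        rw [Algebra.smul_def]
        refine mul_ne_zero ?_ (pow_ne_zero _ v.ne_zero)
        rw [eq_ratCast, Rat.cast_ne_zero]
        exact leadingCoeff_ne_zero.2 hr⟩
    exact ⟨i, _, h2⟩
  obtain ⟨r, r', rfl⟩ := (IntermediateField.mem_adjoin_simple_iff ℚ s).1 hs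
  have hr : aeval (v : K) r ≠ 0 := fun h => hs0 (by rw [h, zero_div])
  have hr' : aeval (v : K) r' ≠ 0 := fun h => hs0 (by rw [h, div_zero])
  obtain ⟨n, q, h1⟩ := hpol r fun h => hr (by rw [h, map_zero])
  obtain ⟨n', q', h2⟩ := hpol r' fun h => hr' (by rw [h, map_zero])
  refine ⟨n - n', q * q'⁻¹, ?_⟩
  rw [div_eq_mul_inv]
  convert Inf_mul h1 (Inf_inv hr' h2) using 1
  ring

/-- every element is `∑ j < g + 1, r_j x ^ j` with `r_j` in `ℚ(v)` -/
private theorem Inf_red {g : ℕ} {a : Fin (g + 1) → ℤ} {c κ : ℤ} {K : Type} [Field K] [CharZero K]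
    {x : K} {v : Kˣ} (H : Crv a c κ x v) (t : K) :
    ∃ r : ℕ → K, (∀ j, r j ∈ IntermediateField.adjoin ℚ {(v : K)}) ∧
      t = ∑ j ∈ Finset.range (g + 1), r j * x ^ j := by
  set L := IntermediateField.adjoin ℚ {(v : K)} with hL
  have hvL : (v : K) ∈ L := IntermediateField.mem_adjoin_simple_self ℚ (v : K)
  have hc : (c : K) ≠ 0 := by exact_mod_cast H.c0
  have hwL : (c : K)⁻¹ * ((κ : K) - (v : K) - (v : K)⁻¹) ∈ L :=
    mul_mem (inv_mem (intCast_mem L c)) (sub_mem (sub_mem (intCast_mem L κ) hvL) (inv_mem hvL))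
  let w : L := ⟨_, hwL⟩
  let P : L[X] := ∏ i, (X - C ((a i : ℤ) : L))
  have hP : P.Monic := monic_prod_of_monic _ _ fun i _ => monic_X_sub_C _
  have hPd : P.natDegree = g + 1 := by
    rw [natDegree_prod_of_monic _ _ fun i _ => monic_X_sub_C _]
    have h1 : ∀ i : Fin (g + 1), (X - C ((a i : ℤ) : L)).natDegree = 1 :=
      fun i => natDegree_X_sub_C _
    rw [Finset.sum_congr rfl fun i _ => h1 i, Finset.sum_const, Finset.card_univ,
      Fintype.card_fin, smul_eq_mul, mul_one]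
  have hdeg : (C w).degree < P.degree := by
    rw [degree_eq_natDegree hP.ne_zero, hPd]
    exact degree_C_le.trans_lt (by exact_mod_cast Nat.succ_pos g)
  have hQ : (P + C w).Monic := hP.add_of_left hdeg
  have hQd : (P + C w).natDegree = g + 1 := by
    rw [natDegree_add_C, hPd]
  have hQx : aeval x (P + C w) = 0 := by
    rw [map_add, aeval_C, map_prod]
    have h1 : ∀ i, aeval x (X - C ((a i : ℤ) : L)) = x - (a i : K) := by
      intro i
      rw [map_sub, aeval_X, aeval_C, map_intCast]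
    rw [Finset.prod_congr rfl fun i _ => h1 i]
    change ∏ i, (x - (a i : K)) + (c : K)⁻¹ * ((κ : K) - (v : K) - (v : K)⁻¹) = 0
    have h2 := H.eq
    have h3 : (c : K) * (∏ i, (x - (a i : K)) +
        (c : K)⁻¹ * ((κ : K) - (v : K) - (v : K)⁻¹)) = 0 := by
      rw [mul_add, ← mul_assoc, mul_inv_cancel₀ hc, one_mul]
      linear_combination -h2
    exact (mul_eq_zero.1 h3).resolve_left hc
  have hint : IsIntegral L x := ⟨_, hQ, hQx⟩
  have htop : t ∈ IntermediateField.adjoin L {x} := by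
    have h1 : (IntermediateField.adjoin L {x}).restrictScalars ℚ =
        IntermediateField.adjoin ℚ {(v : K), x} :=
      IntermediateField.adjoin_simple_adjoin_simple ℚ (v : K) x
    rw [Set.pair_comm, H.top] at h1
    have h2 : t ∈ (IntermediateField.adjoin L {x}).restrictScalars ℚ := by
      rw [h1]
      exact IntermediateField.mem_top
    exact h2
  have ht : t ∈ Algebra.adjoin L {x} := by
    rw [← IntermediateField.adjoin_simple_toSubalgebra_of_isAlgebraic hint.isAlgebraic]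
    exact htop
  rw [Algebra.adjoin_singleton_eq_range_aeval] at ht
  obtain ⟨R, hR⟩ := ht
  have hR' : aeval x (R %ₘ (P + C w)) = t := by
    rw [aeval_modByMonic_eq_self_of_root hQx]
    exact hR
  refine ⟨fun j => ((R %ₘ (P + C w)).coeff j : K), fun j => SetLike.coe_mem _, ?_⟩
  rw [← hR', aeval_eq_sum_range' (n := g + 1)]
  · rfl
  · rw [← hQd]
    exact natDegree_modByMonic_lt _ hQ (fun h => by
      rw [h, natDegree_one] at hQd
      omega)

theorem Crv.inf_rep {g : ℕ} {a : Fin (g + 1) → ℤ} {c κ : ℤ} {K : Type} [Field K] [CharZero K]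
    {x : K} {v : Kˣ} (H : Crv a c κ x v) {t : K} (ht : t ≠ 0) :
    ∃ (k : ℤ) (q : ℚ), q ≠ 0 ∧ ∀ O : ValuationSubring K, IsPl O → 1 < O.valuation (v : K) →
      1 < O.valuation x ∧ O.valuation (t * x ^ (-k) - q) < 1 := by
  classical
  have hxt : x ≠ 0 := fun h => H.tr (h ▸ isAlgebraic_zero)
  obtain ⟨r, hr, hrt⟩ := Inf_red H t
  have hch : ∀ j, ∃ (n : ℤ) (q : ℚ), r j ≠ 0 → InfLd x v (r j) ((g + 1 : ℕ) * n) q := by
    intro j
    by_cases h : r j = 0
    · exact ⟨0, 0, fun h' => absurd h h'⟩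
    · obtain ⟨n, q, h1⟩ := Inf_L H (hr j) h
      exact ⟨n, q, fun _ => h1⟩
  choose n q hnq using hch
  have hx1 : InfLd x v x 1 1 := by
    refine ⟨one_ne_zero, fun O hO hv => ⟨Inf_x H hv, ?_⟩⟩
    rw [zpow_neg, zpow_one, mul_inv_cancel₀ hxt, Rat.cast_one, sub_self, map_zero]
    exact zero_lt_one
  have hT : ∀ j ∈ Finset.range (g + 1), r j * x ^ j ≠ 0 →
      InfLd x v (r j * x ^ j) ((g + 1 : ℕ) * n j + j) (q j) := by
    intro j _ hj
    have h1 := Inf_mul (hnq j (left_ne_zero_of_mul hj))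
      (Inf_pow hx1 j fun O _ hv => Inf_x H hv)
    rw [one_pow, mul_one, one_mul] at h1
    exact h1
  have hne : ∃ j ∈ Finset.range (g + 1), r j * x ^ j ≠ 0 := by
    by_contra hcon
    push Not at hcon
    exact ht (by rw [hrt]; exact Finset.sum_eq_zero hcon)
  obtain ⟨j, -, -, h2⟩ := Inf_sum hxt hT (by
    intro i hi j hj _ _ hij
    rw [Finset.mem_range] at hi hj
    have h3 : (((g + 1 : ℕ) : ℤ) * n i + i) % ((g + 1 : ℕ) : ℤ) =
        (((g + 1 : ℕ) : ℤ) * n j + j) % ((g + 1 : ℕ) : ℤ) := by rw [hij]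
    rw [Int.mul_add_emod_self_left, Int.mul_add_emod_self_left,
      Int.emod_eq_of_lt (by omega) (by omega), Int.emod_eq_of_lt (by omega) (by omega)] at h3
    exact_mod_cast h3) hne
  rw [← hrt] at h2
  exact ⟨_, _, h2⟩

theorem Crv.inf_unique {g : ℕ} {a : Fin (g + 1) → ℤ} {c κ : ℤ} {K : Type} [Field K] [CharZero K]
    {x : K} {v : Kˣ} (H : Crv a c κ x v) {O O' : ValuationSubring K} (hO : IsPl O)
    (hO' : IsPl O') (h : 1 < O.valuation (v : K)) (h' : 1 < O'.valuation (v : K)) : O = O' := by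
  have key : ∀ O : ValuationSubring K, IsPl O → 1 < O.valuation (v : K) → ∀ (t : K) (k : ℤ) (q : ℚ),
      q ≠ 0 → (∀ O : ValuationSubring K, IsPl O → 1 < O.valuation (v : K) →
        1 < O.valuation x ∧ O.valuation (t * x ^ (-k) - q) < 1) → (t ∈ O ↔ k ≤ 0) := by
    intro O hO h t k q hq hk
    obtain ⟨h1, h2⟩ := hk O hO h
    rw [← O.valuation_le_one_iff, Inf_val hO hq h1 h2]
    constructor
    · intro h3
      by_contra h4
      exact absurd (one_lt_zpow₀ h1 (not_le.1 h4)) (not_lt.2 h3)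
    · intro h3
      exact zpow_le_one_of_nonpos₀ h1.le h3
  ext t
  by_cases ht : t = 0
  · rw [ht]
    exact ⟨fun _ => O'.zero_mem, fun _ => O.zero_mem⟩
  · obtain ⟨k, q, hq, hk⟩ := H.inf_rep ht
    rw [key O hO h t k q hq hk, key O' hO' h' t k q hq hk]

theorem Crv.zero_unique {g : ℕ} {a : Fin (g + 1) → ℤ} {c κ : ℤ} {K : Type} [Field K] [CharZero K]
    {x : K} {v : Kˣ} (H : Crv a c κ x v) {O O' : ValuationSubring K} (hO : IsPl O)
    (hO' : IsPl O') (h : O.valuation (v : K) < 1) (h' : O'.valuation (v : K) < 1) : O = O' := by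
  have key : ∀ O : ValuationSubring K, O.valuation (v : K) < 1 →
      1 < O.valuation ((v⁻¹ : Kˣ) : K) := by
    intro O h
    rw [Units.val_inv_eq_inv_val, map_inv₀]
    exact (one_lt_inv₀ (zero_lt_iff.2 ((O.valuation.ne_zero_iff).2 v.ne_zero))).2 h
  exact H.inv.inf_unique hO hO' (key O h) (key O' h')

private theorem Inf_alg {K : Type} [Field K] [CharZero K] {O : ValuationSubring K}
    (hO : IsPl O) {b : K} (hb : IsAlgebraic ℚ b) : b ∈ O := by
  obtain ⟨p, hp, hpb⟩ := hb.isIntegral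
  have hφ : ∀ q : ℚ, algebraMap ℚ K q ∈ O.toSubring := fun q => hO.2 q
  have h1 : IsIntegral O b := by
    refine ⟨p.map ((algebraMap ℚ K).codRestrict O.toSubring hφ), hp.map _, ?_⟩
    rw [eval₂_map]
    exact hpb
  obtain ⟨y, hy⟩ := IsIntegrallyClosed.isIntegral_iff.1 h1
  rw [← hy]
  exact y.2

private theorem Inf_unit {K : Type} [Field K] [CharZero K] {O : ValuationSubring K}
    (hO : IsPl O) {b : K} (hb : IsAlgebraic ℚ b) (h0 : b ≠ 0) : O.valuation b = 1 := by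
  have h1 : O.valuation b ≤ 1 := (O.valuation_le_one_iff _).2 (Inf_alg hO hb)
  have h2 : O.valuation b⁻¹ ≤ 1 :=
    (O.valuation_le_one_iff _).2 (Inf_alg hO (IsAlgebraic.inv_iff.2 hb))
  rw [map_inv₀] at h2
  have h3 : O.valuation b ≠ 0 := (O.valuation.ne_zero_iff).2 h0
  exact le_antisymm h1 ((inv_le_one₀ (zero_lt_iff.2 h3)).1 h2)

theorem Crv.cst {g : ℕ} {a : Fin (g + 1) → ℤ} {c κ : ℤ} {K : Type} [Field K] [CharZero K]
    {x : K} {v : Kˣ} (H : Crv a c κ x v) :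
    ∀ t : K, IsAlgebraic ℚ t → ∃ q : ℚ, (q : K) = t := by
  intro t ht
  by_cases ht0 : t = 0
  · exact ⟨0, by rw [ht0, Rat.cast_zero]⟩
  have hv1 : Transcendental ℚ (v : K)⁻¹ := fun e => H.tr_v (IsAlgebraic.inv_iff.1 e)
  obtain ⟨O, hO, hOv⟩ := exists_zero hv1 (finite_of_transcendental H.fin hv1)
  have hv : 1 < O.valuation (v : K) := by
    rw [map_inv₀] at hOv
    exact (inv_lt_one₀ (zero_lt_iff.2 ((O.valuation.ne_zero_iff).2 v.ne_zero))).1 hOv
  obtain ⟨k, q, hq, hk⟩ := H.inf_rep ht0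
  obtain ⟨h1, h2⟩ := hk O hO hv
  have h3 := Inf_val hO hq h1 h2
  rw [Inf_unit hO ht ht0] at h3
  have hk0 : k = 0 := by
    rcases lt_trichotomy k 0 with h | h | h
    · exact absurd h3 (zpow_lt_one_of_neg₀ h1 h).ne'
    · exact h
    · exact absurd h3 (one_lt_zpow₀ h1 h).ne
  rw [hk0, neg_zero, zpow_zero, mul_one] at h2
  refine ⟨q, ?_⟩
  by_contra hne
  have h4 : t - (q : K) ≠ 0 := fun h => hne (sub_eq_zero.1 h).symm
  have h5 : IsAlgebraic ℚ (t - (q : K)) := ht.sub (isAlgebraic_algebraMap q)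
  exact absurd (Inf_unit hO h5 h4) h2.ne

end Pool.Agent.ETI
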