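import Pool.Agent.ETI.Geo
import Pool.Agent.ETI.Prm
import Pool.Agent.ETI.Bpg
import Pool.Agent.CS2.Stm

/-!
# The theorem

The conditions `Prm` on the two primes come from `exists_prm` for the family `X, f 0, .., f (s - 1)`. The isomorphism
`eK K` maps the slices, `ratSlice` and the unramified part to `slM`, `LP` and `geomM`, where `Crv.geo` applies; the
converse inclusion and the regulators come from `Crv.int` and `Crv.reg`.
-/

open scoped BigOperators Polynomial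
open Polynomial

namespace Pool.Agent.ETI

open Pool.Agent.ETU Pool.Agent.CST Pool.Agent.ISG Pool.Agent.CS2

private theorem Main_quot {K : Type} [Field K] [CharZero K] {g : K} (hg : Transcendental ℚ g)
    {a : Kˣ} (ha : (a : K) ∈ IntermediateField.adjoin ℚ {g}) :
    ∃ p q : ℚ[X], p ≠ 0 ∧ q ≠ 0 ∧ a * ISI.pq g q = ISI.pq g p := by
  obtain ⟨p, q, h⟩ := IntermediateField.mem_adjoin_simple_iff ℚ _ |>.1 ha
  have hq : q ≠ 0 := by
    rintro rfl
    rw [map_zero, div_zero] at h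
    exact a.ne_zero h
  have hp : p ≠ 0 := by
    rintro rfl
    rw [map_zero, zero_div] at h
    exact a.ne_zero h
  refine ⟨p, q, hp, hq, ?_⟩
  apply Units.ext
  rw [Units.val_mul, ISI.pq_val hg hq, ISI.pq_val hg hp, h, div_mul_cancel₀ _ (ISI.aeval_ne hg hq)]

private theorem Main_sy {K : Type} [Field K] [CharZero K] {g : K} (hg : Transcendental ℚ g)
    {a b : Kˣ} (ha : (a : K) ∈ IntermediateField.adjoin ℚ {g})
    (hb : (b : K) ∈ IntermediateField.adjoin ℚ {g}) : Helper11.sy a b ∈ ISI.LP g := by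
  obtain ⟨p, q, hp, hq, h1⟩ := Main_quot hg ha
  obtain ⟨r, s, hr, hs, h2⟩ := Main_quot hg hb
  have h3 : ∀ (u : Kˣ) (p' q' : ℚ[X]), b * ISI.pq g q' = ISI.pq g p' →
      Helper11.sy u b = Helper11.sy u (ISI.pq g p') - Helper11.sy u (ISI.pq g q') := by
    intro u p' q' h
    rw [← h, Helper11.sy_mul_right]
    abel
  have h4 : ∀ u : Kˣ, Helper11.sy a u = Helper11.sy (ISI.pq g p) u - Helper11.sy (ISI.pq g q) u := by
    intro u
    rw [Helper11.sy_anti, ← neg_sub_neg, ← Helper11.sy_anti u (ISI.pq g p),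
      ← Helper11.sy_anti u (ISI.pq g q), ← h1, Helper11.sy_mul_right]
    abel
  have h5 : ∀ p' q' : ℚ[X], p' ≠ 0 → q' ≠ 0 → Helper11.sy (ISI.pq g p') (ISI.pq g q') ∈ ISI.LP g :=
    fun p' q' hp' hq' => Submodule.subset_span ⟨p', q', hp', hq', rfl⟩
  rw [h3 a r s h2, h4, h4]
  exact Submodule.sub_mem _ (Submodule.sub_mem _ (h5 _ _ hp hr) (h5 _ _ hq hr))
    (Submodule.sub_mem _ (h5 _ _ hp hs) (h5 _ _ hq hs))

private theorem Main_span {K : Type} [Field K] (O : ValuationSubring K) (z : ISG.K2Q K)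
    (h : z ∈ Submodule.span ℚ
      {z | ∃ u v : Kˣ, u ∈ O.unitGroup ∧ v ∈ O.unitGroup ∧ z = sb u v}) :
    eK K z ∈ Helper11.unrM O 2 := by
  have h1 := mem_span_iff (fun u v => u ∈ O.unitGroup ∧ v ∈ O.unitGroup) z
  have h2 : {z : ISG.K2Q K | ∃ u v : Kˣ, u ∈ O.unitGroup ∧ v ∈ O.unitGroup ∧ z = sb u v} =
      {z | ∃ u v : Kˣ, (u ∈ O.unitGroup ∧ v ∈ O.unitGroup) ∧ z = sb u v} := by
    ext z
    simp only [and_assoc]
  rw [h2] at h
  have h3 := h1.1 h
  unfold Helper11.unrM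
  refine Submodule.span_mono ?_ h3
  rintro _ ⟨u, v, ⟨hu, hv⟩, rfl⟩
  refine ⟨![u, v], fun m => ?_, rfl⟩
  fin_cases m
  · exact hu
  · exact hv

private theorem Main_geom {K : Type} [Field K] [CharZero K] {z : ISG.K2Q K}
    (h : z ∈ unramifiedK2 K) : eK K z ∈ geomM K := by
  unfold geomM
  simp only [Submodule.mem_iInf]
  intro O hO
  refine Main_span O z ?_
  unfold unramifiedK2 at h
  simp only [Submodule.mem_iInf] at h
  exact h O hO.1 hO.2

/-- the isomorphism between the two versions of `K₂ ⊗ ℚ` respects spans of symbols -/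
private theorem Main_eK {K : Type} [Field K] (p : Kˣ → Kˣ → Prop)
    (M : Submodule ℚ (Helper11.KMQ K 2))
    (hM : ∀ u v, p u v → Helper11.sy u v ∈ M) {z : ISG.K2Q K}
    (h : z ∈ Submodule.span ℚ {z | ∃ u v : Kˣ, p u v ∧ z = sb u v}) : eK K z ∈ M := by
  have h1 := (mem_span_iff p z).1 h
  refine (Submodule.span_le.2 ?_) h1
  rintro _ ⟨u, v, huv, rfl⟩
  exact hM u v huv

private theorem Main_slice {K : Type} [Field K] [CharZero K] {g : Kˣ} {z : ISG.K2Q K}
    (h : z ∈ slice g) : eK K z ∈ slM g := by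
  refine Main_eK (fun u _ => u = g) _ ?_ (Submodule.span_mono ?_ h)
  · rintro u v rfl
    exact Submodule.subset_span ⟨v, rfl⟩
  · rintro _ ⟨v, rfl⟩
    exact ⟨g, v, rfl, rfl⟩

private theorem Main_rat {K : Type} [Field K] [CharZero K] {g : Kˣ}
    (hg : Transcendental ℚ (g : K)) {z : ISG.K2Q K} (h : z ∈ ratSlice g) :
    eK K z ∈ ISI.LP (g : K) := by
  refine Main_eK (fun u v => (u : K) ∈ IntermediateField.adjoin ℚ {(g : K)} ∧
    (v : K) ∈ IntermediateField.adjoin ℚ {(g : K)}) _ ?_ (Submodule.span_mono ?_ h)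
  · rintro u v ⟨hu1, hv1⟩
    exact Main_sy hg hu1 hv1
  · rintro _ ⟨u, v, hu1, hv1, rfl⟩
    exact ⟨u, v, ⟨hu1, hv1⟩, rfl⟩

private theorem Main_map {K : Type} [Field K] [CharZero K] {s : ℕ} {v : Kˣ} {u : Fin s → Kˣ}
    (hv : Transcendental ℚ (v : K)) {z : ISG.K2Q K}
    (h : z ∈ slice v ⊔ (⨆ j, slice (u j)) ⊔ ratSlice v) :
    eK K z ∈ (⨆ i, slM ((Fin.cons v u : Fin (s + 1) → Kˣ) i)) ⊔ ISI.LP (v : K) := by
  have h1 : slice v ⊔ (⨆ j, slice (u j)) ⊔ ratSlice v ≤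
      ((⨆ i, slM ((Fin.cons v u : Fin (s + 1) → Kˣ) i)) ⊔ ISI.LP (v : K)).comap
        (eK K).toLinearMap := by
    refine sup_le (sup_le ?_ (iSup_le fun j => ?_)) ?_
    · intro y hy
      exact Submodule.mem_sup_left
        (Submodule.mem_iSup_of_mem (0 : Fin (s + 1)) (Main_slice hy))
    · intro y hy
      exact Submodule.mem_sup_left (Submodule.mem_iSup_of_mem j.succ (Main_slice hy))
    · intro y hy
      exact Submodule.mem_sup_right (Main_rat hv hy)
  exact h1 h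

private theorem Main_back {K : Type} [Field K] {g : ℕ} {t : Fin g → Kˣ} {v : Kˣ}
    {z : ISG.K2Q K}
    (h : eK K z ∈ Submodule.span ℚ (Set.range fun i : Fin g => Helper11.sy (t i) v)) :
    z ∈ Submodule.span ℚ (Set.range fun i : Fin g => sb (t i) v) := by
  have h1 : (Submodule.span ℚ (Set.range fun i : Fin g => sb (t i) v)).map
      (eK K).toLinearMap = Submodule.span ℚ (Set.range fun i : Fin g => Helper11.sy (t i) v) := by
    rw [Submodule.map_span, ← Set.range_comp]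
    rfl
  rw [← h1] at h
  obtain ⟨y, hy, hyz⟩ := h
  have h2 : y = z := (eK K).injective hyz
  rwa [← h2]

private theorem Main_swap {K : Type} [Field K] (t v : Kˣ) : sb t v ∈ slice v := by
  have h1 : sb t v = -sb v t := by
    apply (eK K).injective
    rw [map_neg, eK_sb, eK_sb]
    exact Helper11.sy_anti _ _
  rw [h1]
  exact Submodule.neg_mem _ (Submodule.subset_span ⟨t, rfl⟩)

private theorem Main_w {g : ℕ} {a : Fin (g + 1) → ℤ} {c κ : ℤ} (hc : c ≠ 0) {K : Type} [Field K]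
    [CharZero K] {x w : K} (hx : Transcendental ℚ x)
    (hw : w + w⁻¹ = c * ∏ i, (x - a i) + κ) : w ≠ 0 := by
  rintro rfl
  rw [inv_zero, add_zero] at hw
  have h1 : (0 : K) = aeval x (C (c : ℚ) * ∏ i, (X - C (a i : ℚ)) + C (κ : ℚ) : ℚ[X]) := by
    rw [hw]
    simp [map_prod]
  have hc' : (c : ℚ) ≠ 0 := Int.cast_ne_zero.2 hc
  have h2 : (C (c : ℚ) * ∏ i, (X - C (a i : ℚ)) + C (κ : ℚ) : ℚ[X]).natDegree = g + 1 := by
    rw [natDegree_add_C, natDegree_C_mul hc',
      natDegree_prod_of_monic _ _ fun i _ => monic_X_sub_C _,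
      Finset.sum_congr rfl fun i _ => natDegree_X_sub_C _]
    simp
  have h3 : (C (c : ℚ) * ∏ i, (X - C (a i : ℚ)) + C (κ : ℚ) : ℚ[X]) ≠ 0 := by
    intro h
    rw [h] at h2
    simp at h2
  exact hx ⟨_, h3, h1.symm⟩

theorem main {g s : ℕ} (hg : 0 < g) (a : Fin (g + 1) → ℤ) (ha : Function.Injective a) (κ : ℤ)
    (hκ : |κ| ≤ 2) (f : Fin s → ℤ[X]) (hf : ∀ j, (f j).Monic ∧ 0 < (f j).natDegree)
    (hsq : Squarefree ((X * ∏ j, f j).map (Int.castRingHom ℚ)))
    (hcop : IsCoprime ((∏ j, f j).map (Int.castRingHom ℚ)) (X ^ 2 - C (κ : ℚ) * X + 1)) :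
    ∃ C₀ : ℕ, ∀ c : ℤ, (∃ p q : ℕ, p.Prime ∧ q.Prime ∧ p ≠ q ∧ C₀ < p ∧ C₀ < q ∧
        (g + 1).Coprime ((p - 1) * padicValInt p c) ∧
        (g + 1).Coprime ((q - 1) * padicValInt q c)) →
      ∀ (K : Type) [Field K] [CharZero K] (x w : K), Transcendental ℚ x →
        IntermediateField.adjoin ℚ {x, w} = ⊤ → w + w⁻¹ = c * ∏ i, (x - a i) + κ →
        ∃ (v : Kˣ) (u : Fin s → Kˣ) (t : Fin g → Kˣ), (v : K) = w ∧
          (∀ j, (u j : K) = aeval w (f j)) ∧ (∀ i, (t i : K) = (x - a i.succ) / (x - a 0)) ∧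
          (slice v ⊔ (⨆ j, slice (u j)) ⊔ ratSlice v) ⊓ unramifiedK2 K =
            Submodule.span ℚ (Set.range fun i => sb (t i) v) ∧
          (∀ i, sb (t i) v ∈ integralK2 K) ∧
          ∃ (n : ℕ) (R : Fin n → (K2Q K →ₗ[ℚ] ℝ)),
            (∀ j, ∃ γ : K →+* Helper11.LoopRing, ∀ s t : Kˣ,
              R j (sb s t) = Helper11.regInt (γ (s : K) : ℝ → ℂ) (γ (t : K) : ℝ → ℂ)) ∧
            LinearIndependent ℝ fun (i : Fin g) (j : Fin n) => R j (sb (t i) v) := by
  have hm : ∀ i, ((Fin.cons X f : Fin (s + 1) → ℤ[X]) i).Monic := by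
    intro i
    refine Fin.cases ?_ (fun j => ?_) i
    · exact monic_X
    · exact (hf j).1
  have hpos : ∀ i, 0 < ((Fin.cons X f : Fin (s + 1) → ℤ[X]) i).natDegree := by
    intro i
    refine Fin.cases ?_ (fun j => ?_) i
    · rw [Fin.cons_zero, natDegree_X]
      exact one_pos
    · exact (hf j).2
  have hsqF : Squarefree ((∏ i, (Fin.cons X f : Fin (s + 1) → ℤ[X]) i).map
      (Int.castRingHom ℚ)) := by
    rw [Fin.prod_univ_succ]
    exact hsq
  have hcopF : ∀ i, i ≠ 0 → IsCoprime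
      (((Fin.cons X f : Fin (s + 1) → ℤ[X]) i).map (Int.castRingHom ℚ))
      ((Dq κ).map (Int.castRingHom ℚ)) := by
    intro i
    refine Fin.cases (fun h => absurd rfl h) (fun j _ => ?_) i
    have h1 : (Dq κ).map (Int.castRingHom ℚ) = X ^ 2 - C (κ : ℚ) * X + 1 := by
      unfold Dq
      simp
    rw [h1, Fin.cons_succ]
    rw [Polynomial.map_prod, IsCoprime.prod_left_iff] at hcop
    exact hcop j (Finset.mem_univ j)
  obtain ⟨C₁, hC⟩ := exists_prm ha κ hm hpos hsqF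
  refine ⟨C₁ + g + 5, ?_⟩
  rintro c ⟨p, q, hp, hq, hpq, hCp, hCq, hcp, hcq⟩ K _ _ x w hx htop hw
  have := Fact.mk hp
  have := Fact.mk hq
  have hcopr : ∀ l : ℕ, l.Prime → C₁ + g + 5 < l → (g + 1).Coprime l := by
    intro l hl h
    rw [Nat.coprime_comm, hl.coprime_iff_not_dvd]
    exact fun h2 => absurd (Nat.le_of_dvd (Nat.succ_pos g) h2) (by omega)
  have hν : padicValInt p c ≠ 0 := by
    intro h
    rw [h, mul_zero, Nat.coprime_zero_right] at hcp
    omega
  have hc0 : c ≠ 0 := by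
    rintro rfl
    exact hν padicValInt.zero
  have hp₁ : Prm p a c κ (Fin.cons X f : Fin (s + 1) → ℤ[X]) :=
    hC p c (by omega) (Nat.Coprime.mul_right (hcopr p hp hCp) hcp.coprime_mul_right_right)
      hcp.coprime_mul_left_right
  have hp₂ : Prm q a c κ (Fin.cons X f : Fin (s + 1) → ℤ[X]) :=
    hC q c (by omega) (Nat.Coprime.mul_right (hcopr q hq hCq) hcq.coprime_mul_right_right)
      hcq.coprime_mul_left_right
  have hw0 : w ≠ 0 := Main_w hc0 hx hw
  have H : Crv a c κ x (Units.mk0 w hw0) := ⟨ha, hg, hc0, hκ, hx, htop, hw⟩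
  have hu : ∀ j, ((ISI.pz w (f j) : Kˣ) : K) = aeval w (f j) := fun j =>
    ISI.pz_val H.tr_v (hf j).1.ne_zero
  refine ⟨Units.mk0 w hw0, fun j => ISI.pz w (f j), xr x a, rfl, hu, fun i => ?_, ?_, H.int, ?_⟩
  · rw [xr, Units.val_div_eq_div_val, xa_val hx, xa_val hx]
  · apply le_antisymm
    · rintro z ⟨hz, hzu⟩
      apply Main_back
      refine H.geo hpq hm rfl hp₁ hp₂ hcopF (u := Fin.cons (Units.mk0 w hw0) fun j => ISI.pz w (f j))
        (fun i => ?_) (Main_map H.tr_v hz) (Main_geom hzu)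
      refine Fin.cases ?_ (fun j => ?_) i
      · rw [Fin.cons_zero, Fin.cons_zero, aeval_X]
      · rw [Fin.cons_succ, Fin.cons_succ]
        exact hu j
    · rw [Submodule.span_le]
      rintro _ ⟨i, rfl⟩
      exact ⟨Submodule.mem_sup_left (Submodule.mem_sup_left (Main_swap _ _)),
        integral_le K (H.int i)⟩
  · refine H.reg hν ?_ (by omega)
    exact fun h2 => absurd (Nat.le_of_dvd (Nat.succ_pos g) h2) (by omega)

end Pool.Agent.ETI
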