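import Pool.Agent.ETI.Main
import Pool.Agent.ETI.DisB

/-!
# The theorem, with the discriminant
-/

open scoped BigOperators Polynomial
open Polynomial

namespace Pool.Agent.ETI

open Pool.Agent.ETU Pool.Agent.CST Pool.Agent.ISG Pool.Agent.CS2

theorem main2 {g s : ℕ} (hg : 0 < g) (a : Fin (g + 1) → ℤ) (ha : Function.Injective a) (κ : ℤ)
    (hκ : |κ| ≤ 2) (f : Fin s → ℤ[X]) (hf : ∀ j, (f j).Monic ∧ 0 < (f j).natDegree)
    (hsq : Squarefree ((X * ∏ j, f j).map (Int.castRingHom ℚ)))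
    (hcop : IsCoprime ((∏ j, f j).map (Int.castRingHom ℚ)) (X ^ 2 - C (κ : ℚ) * X + 1)) :
    ∃ C₀ : ℕ, ∀ c : ℤ, (∃ p q : ℕ, p.Prime ∧ q.Prime ∧ p ≠ q ∧ C₀ < p ∧ C₀ < q ∧
        (g + 1).Coprime ((p - 1) * padicValInt p c) ∧
        (g + 1).Coprime ((q - 1) * padicValInt q c)) →
      Squarefree (((C c * ∏ i, (X - C (a i)) + C κ) ^ 2 - 4 : ℤ[X]).map (Int.castRingHom ℚ)) ∧
      ∀ (K : Type) [Field K] [CharZero K] (x w : K), Transcendental ℚ x →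
        IntermediateField.adjoin ℚ {x, w} = ⊤ → w + w⁻¹ = c * ∏ i, (x - a i) + κ →
        ∃ (v : Kˣ) (u : Fin s → Kˣ) (t : Fin g → Kˣ), (v : K) = w ∧
          (∀ j, (u j : K) = aeval w (f j)) ∧ (∀ i, (t i : K) = (x - a i.succ) / (x - a 0)) ∧
          (slice v ⊔ (⨆ j, slice (u j)) ⊔ ratSlice v) ⊓ unramifiedK2 K =
            Submodule.span ℚ (Set.range fun i => sb (t i) v) ∧
          (∀ i, sb (t i) v ∈ integralK2 K) ∧
          ∃ (n : ℕ) (R : Fin n → (K2Q K →ₗ[ℚ] ℝ)),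
            (∀ j, ∃ γ : K →+* Helper11.LoopRing, ∀ s t : Kˣ,
              R j (sb s t) = Helper11.regInt (γ (s : K) : ℝ → ℂ) (γ (t : K) : ℝ → ℂ)) ∧
            LinearIndependent ℝ fun (i : Fin g) (j : Fin n) => R j (sb (t i) v) := by
  obtain ⟨C₀, h⟩ := main hg a ha κ hκ f hf hsq hcop
  refine ⟨max C₀ (g + 5), fun c hc => ?_⟩
  obtain ⟨p, q, hp, hq, hpq, hCp, hCq, hp1, hq1⟩ := hc
  refine ⟨?_, h c ⟨p, q, hp, hq, hpq, (le_max_left _ _).trans_lt hCp,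
    (le_max_left _ _).trans_lt hCq, hp1, hq1⟩⟩
  haveI : Fact p.Prime := ⟨hp⟩
  have h1 : g + 5 < p := (le_max_right _ _).trans_lt hCp
  have hν : padicValInt p c ≠ 0 := by
    intro h0
    rw [h0, mul_zero, Nat.coprime_zero_right] at hp1
    omega
  refine disc_sqf hg ha ?_ hκ hν ?_ (by omega)
  · rintro rfl
    exact hν (by simp)
  · intro hd
    have := Nat.le_of_dvd (Nat.succ_pos g) hd
    omega

end Pool.Agent.ETI
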