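import Pool.Agent.ETI.Mn2
import Pool.Agent.ETI.Stm

/-!
# The theorem, with the definitions of the statement
-/

open scoped BigOperators Polynomial
open Polynomial

namespace Pool.Agent.ETI

open Pool.Agent.ETU Pool.Agent.CST Pool.Agent.ISG Pool.Agent.CS2

theorem main3 {g s : ℕ} (hg : 0 < g) (a : Fin (g + 1) → ℤ) (ha : Function.Injective a) (κ : ℤ)
    (hκ : |κ| ≤ 2) (f : Fin s → ℤ[X]) (hf : ∀ j, (f j).Monic ∧ 0 < (f j).natDegree)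
    (hsq : Squarefree ((X * ∏ j, f j).map (Int.castRingHom ℚ)))
    (hcop : IsCoprime ((∏ j, f j).map (Int.castRingHom ℚ)) (X ^ 2 - C (κ : ℚ) * X + 1)) :
    ∃ C₀ : ℕ, ∀ c : ℤ, (∃ p q : ℕ, p ≠ q ∧ C₀ < p ∧ C₀ < q ∧ GoodPrime g c p ∧
        GoodPrime g c q) →
      Squarefree (((C c * ∏ i, (X - C (a i)) + C κ) ^ 2 - 4 : ℤ[X]).map (Int.castRingHom ℚ)) ∧
      ∀ (K : Type) [Field K] [CharZero K] (x w : K), Transcendental ℚ x →
        IntermediateField.adjoin ℚ {x, w} = ⊤ → w + w⁻¹ = c * ∏ i, (x - a i) + κ →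
        ∃ (v : Kˣ) (t : Fin g → Kˣ), (v : K) = w ∧
          (∀ i, (t i : K) = (x - a i.succ) / (x - a 0)) ∧
          wSlices w f ⊓ unramifiedK2 K = Submodule.span ℚ (Set.range fun i => sb (t i) v) ∧
          (∀ i, sb (t i) v ∈ integralK2 K) ∧ IndependentRegulators fun i => sb (t i) v := by
  obtain ⟨C₀, h⟩ := main2 hg a ha κ hκ f hf hsq hcop
  refine ⟨C₀, fun c hc => ?_⟩
  obtain ⟨p, q, hpq, hCp, hCq, hp, hq⟩ := hc
  obtain ⟨h1, h2⟩ := h c ⟨p, q, hp.1, hq.1, hpq, hCp, hCq, hp.2, hq.2⟩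
  refine ⟨h1, fun K _ _ x w hx hK hw => ?_⟩
  obtain ⟨v, u, t, hv, hu, ht, h3, h4, h5⟩ := h2 K x w hx hK hw
  subst hv
  exact ⟨v, t, rfl, ht, by rw [wSlices_eq f v u hu]; exact h3, h4, h5⟩

end Pool.Agent.ETI
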