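import Pool.Agent.ETI.Defs

/-!
# A given point is nice at all large primes

`P` is coprime to `X`, to `D` and to `P'` over `ℚ`. At a prime larger than all denominators in the Bezout relations the
zeros `α` of `P` have `‖α‖ ≤ 1` and the values of the second terms are units.
-/

open scoped BigOperators Polynomial
open Polynomial

namespace Pool.Agent.ETI

private theorem Nic_norm {p : ℕ} [Fact p.Prime] (q : ℚ) : ‖((q : ℚ) : PadicAlgCl p)‖ = ‖(q : ℚ_[p])‖ := by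
  have h1 : ((q : ℚ) : PadicAlgCl p) = algebraMap ℚ_[p] (PadicAlgCl p) (q : ℚ_[p]) := by
    rw [map_ratCast]
  rw [h1]
  exact PadicAlgCl.norm_extends p (q : ℚ_[p])

private theorem Nic_coef (q : ℚ[X]) : ∃ C : ℕ, ∀ (p : ℕ) [Fact p.Prime], C < p →
    ∀ i, ‖((q.coeff i : ℚ) : PadicAlgCl p)‖ ≤ 1 := by
  refine ⟨∑ i ∈ q.support, (q.coeff i).den, fun p _ hp i => ?_⟩
  rw [Nic_norm]
  by_cases hi : i ∈ q.support
  · refine Padic.norm_rat_le_one fun hd => ?_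
    have h1 : (q.coeff i).den ≤ ∑ i ∈ q.support, (q.coeff i).den :=
      Finset.single_le_sum (f := fun i => (q.coeff i).den) (fun _ _ => Nat.zero_le _) hi
    have h2 := Nat.le_of_dvd (q.coeff i).den_pos hd
    omega
  · rw [notMem_support_iff.1 hi, Rat.cast_zero, norm_zero]
    exact zero_le_one

private theorem Nic_val {p : ℕ} [Fact p.Prime] {q : ℚ[X]} (hq : ∀ i, ‖((q.coeff i : ℚ) : PadicAlgCl p)‖ ≤ 1)
    {α : PadicAlgCl p} (hα : ‖α‖ ≤ 1) : ‖aeval α q‖ ≤ 1 := by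
  rw [aeval_eq_sum_range]
  refine IsUltrametricDist.norm_sum_le_of_forall_le_of_nonneg zero_le_one fun i _ => ?_
  rw [Algebra.smul_def, eq_ratCast, norm_mul, norm_pow]
  exact mul_le_one₀ (hq i) (by positivity) (pow_le_one₀ (norm_nonneg _) hα)

private theorem Nic_int {p : ℕ} [Fact p.Prime] {P : ℚ[X]} (hP : P.Monic)
    (hq : ∀ i, ‖((P.coeff i : ℚ) : PadicAlgCl p)‖ ≤ 1) {α : PadicAlgCl p} (hα : aeval α P = 0) : ‖α‖ ≤ 1 := by
  by_contra hc'
  have hc : 1 < ‖α‖ := not_le.1 hc'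
  have h0 : 0 < P.natDegree := by
    by_contra h
    have h1 : P = 1 := eq_one_of_monic_natDegree_zero hP (by omega)
    rw [h1, map_one] at hα
    exact one_ne_zero hα
  have h1 : α ^ P.natDegree = -∑ i ∈ Finset.range P.natDegree, ((P.coeff i : ℚ) : PadicAlgCl p) * α ^ i := by
    rw [aeval_eq_sum_range, Finset.sum_range_succ, hP.coeff_natDegree, one_smul] at hα
    simp only [Algebra.smul_def, eq_ratCast] at hα
    linear_combination hα
  have h2 : ‖∑ i ∈ Finset.range P.natDegree, ((P.coeff i : ℚ) : PadicAlgCl p) * α ^ i‖ ≤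
      ‖α‖ ^ (P.natDegree - 1) := by
    refine IsUltrametricDist.norm_sum_le_of_forall_le_of_nonneg (by positivity) fun i hi => ?_
    rw [norm_mul, norm_pow]
    have hi' := Finset.mem_range.1 hi
    calc ‖((P.coeff i : ℚ) : PadicAlgCl p)‖ * ‖α‖ ^ i ≤ 1 * ‖α‖ ^ (P.natDegree - 1) :=
          mul_le_mul (hq i) (pow_le_pow_right₀ hc.le (by omega)) (by positivity) zero_le_one
      _ = ‖α‖ ^ (P.natDegree - 1) := one_mul _
  have h3 : ‖α‖ ^ P.natDegree ≤ ‖α‖ ^ (P.natDegree - 1) := by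
    rw [← norm_pow, h1, norm_neg]
    exact h2
  have h4 : ‖α‖ ^ (P.natDegree - 1) < ‖α‖ ^ P.natDegree := pow_lt_pow_right₀ hc (by omega)
  linarith

private theorem Nic_cop {P Q : ℚ[X]} (h : IsCoprime P Q) : ∃ C : ℕ, ∀ (p : ℕ) [Fact p.Prime], C < p →
    ∀ α : PadicAlgCl p, ‖α‖ ≤ 1 → aeval α P = 0 → ‖aeval α Q‖ = 1 := by
  obtain ⟨U, V, hUV⟩ := h
  obtain ⟨C1, h1⟩ := Nic_coef Q
  obtain ⟨C2, h2⟩ := Nic_coef V
  refine ⟨max C1 C2, fun p _ hp α hα hP => ?_⟩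
  have h3 := Nic_val (h1 p (lt_of_le_of_lt (le_max_left _ _) hp)) hα
  have h4 := Nic_val (h2 p (lt_of_le_of_lt (le_max_right _ _) hp)) hα
  have h5 : aeval α V * aeval α Q = 1 := by
    have h6 := congrArg (aeval α) hUV
    rw [map_add, map_mul, map_mul, hP, mul_zero, zero_add, map_one] at h6
    exact h6
  have h6 : ‖aeval α V‖ * ‖aeval α Q‖ = 1 := by rw [← norm_mul, h5, norm_one]
  refine le_antisymm h3 ?_
  nlinarith [norm_nonneg (aeval α V), norm_nonneg (aeval α Q)]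

theorem nice_of_large (κ : ℤ) {P : ℚ[X]} (hP : P.Monic) (hP' : Irreducible P) (hX : ¬ P ∣ X)
    (hD : ¬ P ∣ (Dq κ).map (Int.castRingHom ℚ)) :
    ∃ C : ℕ, ∀ (p : ℕ) [Fact p.Prime], C < p → Nice p κ P := by
  obtain ⟨C0, h0⟩ := Nic_coef P
  obtain ⟨C1, h1⟩ := Nic_cop (hP'.coprime_iff_not_dvd.2 hX)
  obtain ⟨C2, h2⟩ := Nic_cop (hP'.coprime_iff_not_dvd.2 hD)
  obtain ⟨C3, h3⟩ := Nic_cop hP'.separable
  refine ⟨C0 + C1 + C2 + C3, fun p _ hp => ⟨h0 p (by omega), fun α hα => ?_⟩⟩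
  have hi := Nic_int hP (h0 p (by omega)) hα
  have e1 := h1 p (by omega) α hi hα
  have e2 := h2 p (by omega) α hi hα
  have e3 := h3 p (by omega) α hi hα
  rw [aeval_X] at e1
  refine ⟨e1, ?_, e3⟩
  rw [← e2]
  congr 1
  exact (aeval_map_algebraMap ℚ α (Dq κ)).symm

end Pool.Agent.ETI
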