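import Pool.Agent.ETI.Uni
import Pool.Agent.ETU.Cor
import Pool.Agent.ETU.Sup

/-!
# The corrected functions are units outside `w = 0, ∞`, `D(w) = 0`

At a place over the monic irreducible `P`, where `v` and `D(v)` are units, the corrected functions of
`correct` have order `0`: if one of them has not, then `P` divides some `f j`, or a monomial in the
`f j` is a root of unity at the zeros of `P` (`support`); in both cases there is only one place over
`P` (`Crv.uniq`), the one chosen by `correct`.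
-/

open scoped BigOperators Polynomial
open Polynomial

namespace Pool.Agent.ETI

open Pool.Agent.ETU Pool.Agent.CST Pool.Agent.Helper11 Pool.Agent.ISI

private theorem Off_rat {K : Type} [Field K] [CharZero K] {O : ValuationSubring K}
    (hO : IsPl O) {c : ℚ} (hc0 : c ≠ 0) : O.valuation (c : K) = 1 := by
  have h4 := (O.valuation_le_one_iff _).2 (hO.2 c)
  have h5 := (O.valuation_le_one_iff _).2 (hO.2 c⁻¹)
  refine le_antisymm h4 ?_
  by_contra h6
  push Not at h6
  have h7 : O.valuation ((c : K) * ((c⁻¹ : ℚ) : K)) = 1 := by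
    rw [Rat.cast_inv, mul_inv_cancel₀ (by exact_mod_cast hc0), map_one]
  rw [map_mul] at h7
  have h8 : O.valuation (c : K) * O.valuation ((c⁻¹ : ℚ) : K) < 1 :=
    (mul_le_of_le_one_right' h5).trans_lt h6
  exact absurd h7 h8.ne

private theorem Off_pol {K : Type} [Field K] [CharZero K] {O : ValuationSubring K} (hO : IsPl O)
    {x : K} (hx : x ∈ O) (P : ℚ[X]) : aeval x P ∈ O := by
  rw [aeval_eq_sum_range]
  refine sum_mem fun i _ => ?_
  rw [Algebra.smul_def, eq_ratCast]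
  exact mul_mem (hO.2 _) (pow_mem hx _)

private theorem Off_factor {K : Type} [Field K] [CharZero K] {O : ValuationSubring K}
    (hO : IsPl O) {h : K} (hh : h ∈ O) (P : ℚ[X]) : P ≠ 0 → O.valuation (aeval h P) < 1 →
      ∃ π : ℚ[X], π.Monic ∧ Irreducible π ∧ O.valuation (aeval h π) < 1 := by
  induction P using WfDvdMonoid.induction_on_irreducible with
  | zero => exact fun h0 => absurd rfl h0
  | unit u hu =>
    intro _ hv
    obtain ⟨c, hc, rfl⟩ := Polynomial.isUnit_iff.1 hu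
    rw [aeval_C, eq_ratCast, Off_rat hO hc.ne_zero] at hv
    exact absurd hv (lt_irrefl _)
  | mul a i ha hi ih =>
    intro _ hv
    rw [map_mul, map_mul] at hv
    have h1 : O.valuation (aeval h i) ≤ 1 := (O.valuation_le_one_iff _).2 (Off_pol hO hh i)
    rcases h1.lt_or_eq with h3 | h3
    · have hlc : i.leadingCoeff ≠ 0 := leadingCoeff_ne_zero.2 hi.ne_zero
      refine ⟨C i.leadingCoeff⁻¹ * i, ?_, ?_, ?_⟩
      · rw [Monic, leadingCoeff_mul, leadingCoeff_C, inv_mul_cancel₀ hlc]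
      · have hu : IsUnit (C i.leadingCoeff⁻¹) :=
          Polynomial.isUnit_C.2 (isUnit_iff_ne_zero.2 (inv_ne_zero hlc))
        exact (irreducible_isUnit_mul hu).2 hi
      · rw [map_mul, map_mul, aeval_C, eq_ratCast, Off_rat hO (inv_ne_zero hlc), one_mul]
        exact h3
    · rw [h3, one_mul] at hv
      exact ih ha hv

private theorem Off_center {K : Type} [Field K] [CharZero K] {x : K}
    (hK : FiniteDimensional (IntermediateField.adjoin ℚ {x}) K) {O : ValuationSubring K}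
    (hO : IsPl O) (hxO : x ∈ O) :
    ∃ π : ℚ[X], π.Monic ∧ Irreducible π ∧ O.valuation (aeval x π) < 1 := by
  have h1 : Algebra.IsAlgebraic (Algebra.adjoin ℚ {x}) K := by
    have h2 : Algebra.IsAlgebraic (IntermediateField.adjoin ℚ {x}) K := inferInstance
    open scoped IntermediateField.algebraAdjoinAdjoin in
    exact (IsFractionRing.comap_isAlgebraic_iff (A := Algebra.adjoin ℚ {x})
      (K := IntermediateField.adjoin ℚ {x}) (C := K)).2 h2
  -- a non unit
  obtain ⟨y, hy0, hy⟩ : ∃ y : K, y ≠ 0 ∧ O.valuation y < 1 := by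
    have := hO.1
    obtain ⟨p, hp⟩ := IsDiscreteValuationRing.exists_irreducible O
    refine ⟨(p : K), fun h => hp.ne_zero (Subtype.ext h), ?_⟩
    exact (O.valuation_lt_one_iff p).1 ((IsLocalRing.mem_maximalIdeal _).2 hp.not_isUnit)
  obtain ⟨q, hq0, hq⟩ := (h1.isAlgebraic y).exists_nonzero_coeff_and_aeval_eq_zero
    (mem_nonZeroDivisors_of_ne_zero hy0)
  have hpol : ∀ a : Algebra.adjoin ℚ {x}, ∃ p : ℚ[X], aeval x p = (a : K) := by
    intro a
    have h2 : (a : K) ∈ (aeval x : ℚ[X] →ₐ[ℚ] K).range := by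
      rw [← Algebra.adjoin_singleton_eq_range_aeval]
      exact a.2
    exact h2
  obtain ⟨p, hp⟩ := hpol (q.coeff 0)
  have hp0 : p ≠ 0 := by
    rintro rfl
    rw [map_zero] at hp
    exact hq0 (Subtype.ext hp.symm)
  refine Off_factor hO hxO p hp0 ?_
  have h3 : aeval y q = aeval y q.divX * y + (q.coeff 0 : K) := by
    conv_lhs => rw [← divX_mul_X_add q]
    rw [map_add, map_mul, aeval_X, aeval_C]
    rfl
  rw [hq] at h3
  have h4 : aeval x p = -(aeval y q.divX * y) := by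
    rw [hp]
    linear_combination -h3
  rw [h4, Valuation.map_neg, map_mul]
  have h5 : aeval y q.divX ∈ O := by
    rw [aeval_eq_sum_range]
    refine sum_mem fun i _ => ?_
    rw [Algebra.smul_def]
    refine mul_mem ?_ (pow_mem ((O.valuation_le_one_iff _).1 hy.le) _)
    obtain ⟨r, hr⟩ := hpol (q.divX.coeff i)
    have h6 : algebraMap (Algebra.adjoin ℚ {x}) K (q.divX.coeff i) = aeval x r := by
      rw [hr]
      rfl
    rw [h6]
    exact Off_pol hO hxO r
  exact (mul_le_of_le_one_left' ((O.valuation_le_one_iff _).2 h5)).trans_lt hy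

theorem Crv.off {g : ℕ} {a : Fin (g + 1) → ℤ} {c κ : ℤ} {K : Type} [Field K] [CharZero K]
    {x : K} {v : Kˣ} (H : Crv a c κ x v) {p₁ p₂ : ℕ} [Fact p₁.Prime] [Fact p₂.Prime]
    (h12 : p₁ ≠ p₂) {r : ℕ} {f : Fin r → ℤ[X]} (hf : ∀ i, (f i).Monic)
    (hp₁ : Prm p₁ a c κ f) (hp₂ : Prm p₂ a c κ f)
    {u : Fin r → Kˣ} (hu : ∀ i, (u i : K) = aeval (v : K) (f i)) {z : KMQ K 2}
    (hz : z ∈ (⨆ i, slM (u i)) ⊔ LP (v : K)) (hzg : z ∈ geomM K) :
    ∃ (N : ℕ) (h : Fin r → Kˣ) (β : KMQ K 2), 0 < N ∧ β ∈ LP (v : K) ∧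
      (N : ℚ) • z = ∑ i, sy (u i) (h i) + β ∧
      ∀ O : ValuationSubring K, IsPl O → O.valuation (v : K) = 1 →
        O.valuation (aeval (v : K) (Dq κ)) = 1 → ∀ i, vo O (h i) = 0 := by
  have hf0 : ∀ i, f i ≠ 0 := fun i => (hf i).ne_zero
  have hg0 : ∀ i, (f i).map (Int.castRingHom ℚ) ≠ 0 := fun i => map_ne (hf0 i)
  have hgu : ∀ i, (u i : K) = aeval (v : K) ((f i).map (Int.castRingHom ℚ)) := fun i => by
    rw [aeval_map, hu i]
  obtain ⟨N, h, β, Q, hN, hβ, hNz, hQ⟩ := correct H.tr_v H.fin hg0 hgu hz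
  refine ⟨N, h, β, hN, hβ, hNz, ?_⟩
  intro O hO hv1 hD1 i
  by_contra hne
  have hvO : (v : K) ∈ O := (O.valuation_le_one_iff _).1 hv1.le
  obtain ⟨P, hP, hP', hPv⟩ := Off_center H.fin hO hvO
  have hdvd : ∀ R : ℚ[X], O.valuation (aeval (v : K) R) = 1 → ¬ P ∣ R := by
    rintro R h1 ⟨g, rfl⟩
    rw [map_mul, map_mul] at h1
    have h2 : O.valuation (aeval (v : K) g) ≤ 1 :=
      (O.valuation_le_one_iff _).2 (Off_pol hO hvO g)
    have h3 : O.valuation (aeval (v : K) P) * O.valuation (aeval (v : K) g) < 1 :=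
      (mul_le_of_le_one_right' h2).trans_lt hPv
    exact absurd h1 h3.ne
  have hX : ¬ P ∣ X := hdvd X (by rw [aeval_X]; exact hv1)
  have hD : ¬ P ∣ (Dq κ).map (Int.castRingHom ℚ) := hdvd _ (by rw [aeval_map]; exact hD1)
  obtain ⟨hQ1, hQ2, hQ3, hQ4⟩ := hQ P hP hP'
  have hor : (∃ j, P ∣ (f j).map (Int.castRingHom ℚ)) ∨ ∃ b : Fin r → ℤ, Prim b ∧ Rel f b P := by
    by_cases hj : ∃ j, P ∣ (f j).map (Int.castRingHom ℚ)
    · exact Or.inl hj
    · exact Or.inr (support H.tr_v hf0 hu hNz hzg hβ hP hP' (fun j hd => hj ⟨j, hd⟩) hQ1 hQ2 hQ3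
        hQ4 hO hvO hPv ⟨i, hne⟩)
  have hOQ := H.uniq h12 hp₁ hp₂ hP hP' hX hD hor hO hQ1 hPv hQ3
  exact hne (by rw [hOQ]; exact hQ4 i)

end Pool.Agent.ETI
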