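import Pool.Agent.ETI.CvA

/-!
# MODULE ETI-Pla : the places over `D(w) = 0` are the places over `x = a_l`, one for each `l`

`pla_over`: if `v` is a unit at `O` and `D(v)` is not, then `∏ (x - a_l)` is small (`Crv.prod`), so `x ∈ O` and some `x - a_l` is small.
`pla_unique`: put `π = x - a_l`. At `O` over `a_l`: `x ∈ O`, `v ∈ O` unit with `D(v)` small (`c v ∏ (x - a_i) = D(v)`, `v` integral over `ℚ[x]`: `v² - (c ∏ + κ) v + 1 = 0`).
Case `|κ| < 2`: `D` is irreducible over `ℚ`. Every `t ≠ 0` is `A(x) + B(x) v` with `A, B ∈ ℚ(x)`; divide by the power `π ^ k` such that `A, B` have no pole at `a_l` and are not both zero there: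
`A(a_l) + B(a_l) v` is not small since `D` has no rational zero. So `O.valuation t = O.valuation π ^ k`.
Case `κ = 2 ε`, `ε = ± 1`: `D = (T - ε)²`, `(v - ε)² = c v π ∏_{i ≠ l} (x - a_i)`: valuation of `(v - ε)²` = valuation of `π`. `t = A(x) + B(x) (v - ε)`, valuations of `A²` is an even power of
`O.valuation π`, of `(B (v - ε))²` an odd power. In both cases `O.valuation t ^ 2 = O.valuation π ^ k` with `k` independent of `O`: `pla_rep`; `t ∈ O` iff `0 ≤ k`, so `O = O'`.
-/

open scoped BigOperators Polynomial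
open Polynomial

namespace Pool.Agent.ETI

open Pool.Agent.ETU Pool.Agent.CST Pool.Agent.Helper11 Pool.Agent.ISI

section lead

variable {K : Type} [Field K] [CharZero K]

private theorem Pla_rle {O : ValuationSubring K} (hO : IsPl O) (q : ℚ) :
    O.valuation (q : K) ≤ 1 := (O.valuation_le_one_iff _).2 (hO.2 q)

private theorem Pla_rat {O : ValuationSubring K} (hO : IsPl O) {q : ℚ} (hq : q ≠ 0) :
    O.valuation (q : K) = 1 := by
  have h1 := Pla_rle hO q
  have h2 : O.valuation ((q : K)⁻¹) ≤ 1 := by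
    have := Pla_rle (K := K) hO q⁻¹
    rwa [Rat.cast_inv] at this
  rw [map_inv₀] at h2
  have h3 : O.valuation (q : K) ≠ 0 := (O.valuation.ne_zero_iff).2 (Rat.cast_ne_zero.2 hq)
  exact le_antisymm h1 ((inv_le_one₀ (zero_lt_iff.2 h3)).1 h2)

private theorem Pla_int {O : ValuationSubring K} (hO : IsPl O) {n : ℤ} (hn : n ≠ 0) :
    O.valuation (n : K) = 1 := by
  have h1 := Pla_rat hO (q := (n : ℚ)) (Int.cast_ne_zero.2 hn)
  rwa [Rat.cast_intCast] at h1

/-- `t = q (x - b) ^ k (1 + small)` at all places over `b` -/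
private def PlaLd (x : K) (b : ℤ) (t : K) (k : ℤ) (q : ℚ) : Prop :=
  q ≠ 0 ∧ ∀ O : ValuationSubring K, IsPl O → O.valuation (x - b) < 1 →
    O.valuation (t * (x - b) ^ (-k) - q) < 1

private theorem Pla_one {x : K} {b : ℤ} {O : ValuationSubring K} (hO : IsPl O) {t : K} {k : ℤ}
    {q : ℚ} (hq : q ≠ 0) (h : O.valuation (t * (x - b) ^ (-k) - q) < 1) :
    O.valuation (t * (x - b) ^ (-k)) = 1 := by
  have h1 : t * (x - b) ^ (-k) = (t * (x - b) ^ (-k) - q) + (q : K) := by ring
  rw [h1, Valuation.map_add_eq_of_lt_right, Pla_rat hO hq]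
  rwa [Pla_rat hO hq]

private theorem Pla_val {x : K} {b : ℤ} (hx : x - b ≠ 0) {O : ValuationSubring K} (hO : IsPl O)
    {t : K} {k : ℤ} {q : ℚ} (hq : q ≠ 0) (h : O.valuation (t * (x - b) ^ (-k) - q) < 1) :
    O.valuation t = O.valuation (x - b) ^ k := by
  have h1 := Pla_one hO hq h
  rw [map_mul, map_zpow₀, zpow_neg] at h1
  have h2 : O.valuation (x - b) ^ k ≠ 0 := zpow_ne_zero _ ((O.valuation.ne_zero_iff).2 hx)
  exact (mul_inv_eq_one₀ h2).1 h1

private theorem Pla_mul {x : K} {b : ℤ} (hx : x - b ≠ 0) {t t' : K} {k k' : ℤ} {q q' : ℚ}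
    (h : PlaLd x b t k q) (h' : PlaLd x b t' k' q') :
    PlaLd x b (t * t') (k + k') (q * q') := by
  refine ⟨mul_ne_zero h.1 h'.1, fun O hO hv => ?_⟩
  have h1 := h.2 O hO hv
  have h2 := h'.2 O hO hv
  have h3 : t * t' * (x - b) ^ (-(k + k')) - ((q * q' : ℚ) : K) =
      (t * (x - b) ^ (-k) - q) * (t' * (x - b) ^ (-k')) +
        (q : K) * (t' * (x - b) ^ (-k') - q') := by
    rw [neg_add, zpow_add₀ hx]
    push_cast
    ring
  rw [h3]
  refine Valuation.map_add_lt _ ?_ ?_
  · rw [map_mul, Pla_one hO h'.1 h2, mul_one]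
    exact h1
  · rw [map_mul, Pla_rat hO h.1, one_mul]
    exact h2

private theorem Pla_inv {x : K} {b : ℤ} (hx : x - b ≠ 0) {t : K} {k : ℤ} {q : ℚ} (ht : t ≠ 0)
    (h : PlaLd x b t k q) : PlaLd x b t⁻¹ (-k) q⁻¹ := by
  refine ⟨inv_ne_zero h.1, fun O hO hv => ?_⟩
  have h1 := h.2 O hO hv
  have hq : (q : K) ≠ 0 := Rat.cast_ne_zero.2 h.1
  have hk : (x - b) ^ k ≠ 0 := zpow_ne_zero _ hx
  have h3 : t⁻¹ * (x - b) ^ (-(-k)) - ((q⁻¹ : ℚ) : K) =
      -((t * (x - b) ^ (-k) - q) * (t * (x - b) ^ (-k))⁻¹ * ((q⁻¹ : ℚ) : K)) := by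
    rw [neg_neg, zpow_neg]
    push_cast
    field_simp
    ring
  rw [h3, Valuation.map_neg, map_mul, map_mul, map_inv₀, Pla_one hO h.1 h1, inv_one, mul_one,
    Pla_rat hO (inv_ne_zero h.1), mul_one]
  exact h1

omit [CharZero K] in
private theorem Pla_mem {x : K} {b : ℤ} {O : ValuationSubring K}
    (h : O.valuation (x - b) < 1) : x ∈ O := by
  have h1 : x = (x - b) + (b : K) := by ring
  rw [h1]
  exact add_mem ((O.valuation_le_one_iff _).1 h.le) (intCast_mem O b)

private theorem Pla_aeval {x : K} {O : ValuationSubring K} (hO : IsPl O) (hx : x ∈ O)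
    (p : ℚ[X]) : aeval x p ∈ O := by
  rw [aeval_eq_sum_range]
  refine sum_mem fun i _ => ?_
  rw [Algebra.smul_def, eq_ratCast]
  exact mul_mem (hO.2 _) (pow_mem hx _)

private theorem Pla_pol {x : K} {b : ℤ} (hx : x - b ≠ 0) {r : ℚ[X]} (hr : r ≠ 0) :
    ∃ (n : ℤ) (q : ℚ), PlaLd x b (aeval x r) n q := by
  obtain ⟨s, hs, hs'⟩ := exists_eq_pow_rootMultiplicity_mul_and_not_dvd r hr (b : ℚ)
  have h0 : s.eval (b : ℚ) ≠ 0 := fun h => hs' (dvd_iff_isRoot.2 h)
  refine ⟨(rootMultiplicity (b : ℚ) r : ℕ), s.eval (b : ℚ), h0, fun O hO hv => ?_⟩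
  have h1 : aeval x r = (x - b) ^ (rootMultiplicity (b : ℚ) r) * aeval x s := by
    conv_lhs => rw [hs]
    rw [map_mul, map_pow, map_sub, aeval_X, aeval_C, eq_ratCast, Rat.cast_intCast]
  have h2 : aeval x r * (x - b) ^ (-((rootMultiplicity (b : ℚ) r : ℕ) : ℤ)) = aeval x s := by
    rw [h1, zpow_neg, zpow_natCast]
    field_simp
  have h3 : aeval x s - ((s.eval (b : ℚ) : ℚ) : K) = (x - b) * aeval x (s /ₘ (X - C (b : ℚ))) := by
    have h4 := modByMonic_add_div s (X - C (b : ℚ))
    rw [modByMonic_X_sub_C_eq_C_eval] at h4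
    have h5 := congrArg (aeval x) h4
    rw [map_add, map_mul, map_sub, aeval_X, aeval_C, aeval_C, eq_ratCast, eq_ratCast,
      Rat.cast_intCast] at h5
    rw [← h5]
    ring
  rw [h2, h3, map_mul]
  exact (mul_le_of_le_one_right' ((O.valuation_le_one_iff _).2
    (Pla_aeval hO (Pla_mem hv) _))).trans_lt hv

private theorem Pla_L {x : K} {b : ℤ} (hx : x - b ≠ 0) {s : K}
    (hs : s ∈ IntermediateField.adjoin ℚ {x}) (hs0 : s ≠ 0) :
    ∃ (n : ℤ) (q : ℚ), PlaLd x b s n q := by
  obtain ⟨r, r', rfl⟩ := (IntermediateField.mem_adjoin_simple_iff ℚ s).1 hs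
  have hr : aeval x r ≠ 0 := fun h => hs0 (by rw [h, zero_div])
  have hr' : aeval x r' ≠ 0 := fun h => hs0 (by rw [h, div_zero])
  obtain ⟨n, q, h1⟩ := Pla_pol hx (r := r) fun h => hr (by rw [h, map_zero])
  obtain ⟨n', q', h2⟩ := Pla_pol hx (r := r') fun h => hr' (by rw [h, map_zero])
  exact ⟨_, _, by
    rw [div_eq_mul_inv]
    exact Pla_mul hx h1 (Pla_inv hx hr' h2)⟩

end lead

section curve

variable {g : ℕ} {a : Fin (g + 1) → ℤ} {c κ : ℤ} {K : Type} [Field K] [CharZero K]
  {x : K} {v : Kˣ}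

private theorem Pla_ne (H : Crv a c κ x v) (b : ℤ) : x - b ≠ 0 := by
  intro h
  apply H.tr
  rw [sub_eq_zero.1 h]
  exact isAlgebraic_intCast b

/-- `v` is a unit over `a l` -/
private theorem Pla_v (H : Crv a c κ x v) {b : ℤ} {O : ValuationSubring K}
    (h : O.valuation (x - b) < 1) : O.valuation (v : K) = 1 := by
  have hx := Pla_mem h
  have h1 : (v : K) + (v : K)⁻¹ ∈ O := by
    rw [H.eq]
    exact add_mem (mul_mem (intCast_mem O c)
      (prod_mem fun i _ => sub_mem hx (intCast_mem O (a i)))) (intCast_mem O κ)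
  have hv0 := v.ne_zero
  have key : ∀ y : K, y ≠ 0 → y + y⁻¹ ∈ O → ¬ 1 < O.valuation y := by
    intro y hy h2 h3
    have h4 : O.valuation y⁻¹ < 1 := by
      rw [map_inv₀]
      exact inv_lt_one_of_one_lt₀ h3
    have h5 : O.valuation (y + y⁻¹) = O.valuation y :=
      Valuation.map_add_eq_of_lt_left _ (h4.trans h3)
    rw [← O.valuation_le_one_iff, h5] at h2
    exact absurd h3 (not_lt.2 h2)
  have h2 := key (v : K) hv0 h1
  have h3 := key (v : K)⁻¹ (inv_ne_zero hv0) (by rwa [inv_inv, add_comm])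
  rw [map_inv₀] at h3
  have h4 : O.valuation (v : K) ≠ 0 := (O.valuation.ne_zero_iff).2 hv0
  refine le_antisymm (not_lt.1 h2) ?_
  by_contra h5
  exact h3 ((one_lt_inv₀ (zero_lt_iff.2 h4)).2 (not_le.1 h5))

/-- `x - a i` is a unit over `a l`, `i ≠ l` -/
private theorem Pla_i {b d : ℤ} (hbd : b ≠ d) {O : ValuationSubring K} (hO : IsPl O)
    (h : O.valuation (x - b) < 1) : O.valuation (x - d) = 1 := by
  have h1 : x - (d : K) = (x - b) + ((b - d : ℤ) : K) := by
    push_cast
    ring
  have h2 := Pla_int hO (sub_ne_zero.2 hbd)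
  rw [h1, Valuation.map_add_eq_of_lt_right, h2]
  rwa [h2]

/-- the valuation of `D(v)` over `a l` -/
private theorem Pla_D (H : Crv a c κ x v) {l : Fin (g + 1)} {O : ValuationSubring K}
    (hO : IsPl O) (h : O.valuation (x - a l) < 1) :
    O.valuation (aeval (v : K) (Dq κ)) = O.valuation (x - a l) := by
  classical
  rw [← H.prod, map_mul, map_mul, Pla_int hO H.c0, Pla_v H h, one_mul, one_mul, map_prod,
    ← Finset.mul_prod_erase Finset.univ _ (Finset.mem_univ l)]
  rw [Finset.prod_eq_one, mul_one]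
  intro i hi
  exact Pla_i (fun hh => (Finset.mem_erase.1 hi).1 (H.inj hh).symm) hO h

/-- every element is `A + B v` with `A, B` in `ℚ(x)` -/
private theorem Pla_red (H : Crv a c κ x v) (t : K) :
    ∃ A ∈ IntermediateField.adjoin ℚ {x}, ∃ B ∈ IntermediateField.adjoin ℚ {x},
      t = A + B * (v : K) := by
  set L := IntermediateField.adjoin ℚ {x} with hL
  have hxL : x ∈ L := IntermediateField.mem_adjoin_simple_self ℚ x
  have hwL : (v : K) + (v : K)⁻¹ ∈ L := by
    rw [H.eq]
    exact add_mem (mul_mem (intCast_mem L c) (prod_mem fun i _ => sub_mem hxL (intCast_mem L _)))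
      (intCast_mem L κ)
  let w : L := ⟨_, hwL⟩
  have hQ : (X ^ 2 - C w * X + C 1 : L[X]).Monic := by monicity!
  have hQd : (X ^ 2 - C w * X + C 1 : L[X]).natDegree = 2 := by compute_degree!
  have hQx : aeval (v : K) (X ^ 2 - C w * X + C 1 : L[X]) = 0 := by
    rw [map_add, map_sub, map_mul, map_pow, aeval_X, aeval_C, aeval_C, map_one]
    change (v : K) ^ 2 - ((v : K) + (v : K)⁻¹) * (v : K) + 1 = 0
    have hv0 := v.ne_zero
    field_simp
    ring
  have hint : IsIntegral L (v : K) := ⟨_, hQ, hQx⟩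
  have htop : t ∈ IntermediateField.adjoin L {(v : K)} := by
    have h1 : (IntermediateField.adjoin L {(v : K)}).restrictScalars ℚ =
        IntermediateField.adjoin ℚ {x, (v : K)} :=
      IntermediateField.adjoin_simple_adjoin_simple ℚ x (v : K)
    rw [H.top] at h1
    have h2 : t ∈ (IntermediateField.adjoin L {(v : K)}).restrictScalars ℚ := by
      rw [h1]
      exact IntermediateField.mem_top
    exact h2
  have ht : t ∈ Algebra.adjoin L {(v : K)} := by
    rw [← IntermediateField.adjoin_simple_toSubalgebra_of_isAlgebraic hint.isAlgebraic]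
    exact htop
  rw [Algebra.adjoin_singleton_eq_range_aeval] at ht
  obtain ⟨R, hR⟩ := ht
  have hR' : aeval (v : K) (R %ₘ (X ^ 2 - C w * X + C 1)) = t := by
    rw [aeval_modByMonic_eq_self_of_root hQx]
    exact hR
  refine ⟨((R %ₘ (X ^ 2 - C w * X + C 1)).coeff 0 : L), SetLike.coe_mem _,
    ((R %ₘ (X ^ 2 - C w * X + C 1)).coeff 1 : L), SetLike.coe_mem _, ?_⟩
  rw [← hR', aeval_eq_sum_range' (n := 2)]
  · rw [Finset.sum_range_succ, Finset.sum_range_one, pow_zero, pow_one, Algebra.smul_def,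
      Algebra.smul_def, mul_one]
    rfl
  · exact (natDegree_modByMonic_lt _ hQ (fun h => by
      rw [h, natDegree_one] at hQd
      omega)).trans_eq hQd

end curve

theorem Crv.pla_over {g : ℕ} {a : Fin (g + 1) → ℤ} {c κ : ℤ} {K : Type} [Field K] [CharZero K]
    {x : K} {v : Kˣ} (H : Crv a c κ x v) {O : ValuationSubring K} (hO : IsPl O)
    (h1 : O.valuation (v : K) = 1) (h2 : O.valuation (aeval (v : K) (Dq κ)) < 1) :
    ∃ l, O.valuation (x - a l) < 1 := by
  rw [← H.prod, map_mul, map_mul, Pla_int hO H.c0, h1, one_mul, one_mul, map_prod] at h2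
  by_contra h3
  push Not at h3
  exact absurd (Finset.one_le_prod' fun i _ => h3 i) (not_le.2 h2)

/-- the valuation of `s + v`, `s` in `ℚ(x)` -/
private theorem Pla_sv {g : ℕ} {a : Fin (g + 1) → ℤ} {c κ : ℤ} {K : Type} [Field K] [CharZero K]
    {x : K} {v : Kˣ} (H : Crv a c κ x v) (l : Fin (g + 1)) {s : K}
    (hs : s ∈ IntermediateField.adjoin ℚ {x}) :
    ∃ k : ℤ, ∀ O : ValuationSubring K, IsPl O → O.valuation (x - a l) < 1 →
      O.valuation (s + v) ^ 2 = O.valuation (x - a l) ^ k := by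
  have hx0 := Pla_ne H (a l)
  by_cases hκ : |κ| < 2
  · by_cases hs0 : s = 0
    · refine ⟨0, fun O hO h => ?_⟩
      rw [hs0, zero_add, Pla_v H h, one_pow, zpow_zero]
    · obtain ⟨n, q, hq, hn⟩ := Pla_L hx0 (b := a l) hs hs0
      rcases lt_trichotomy n 0 with h0 | h0 | h0
      · refine ⟨2 * n, fun O hO h => ?_⟩
        have h1 := Pla_val hx0 hO hq (hn O hO h)
        have hp : 0 < O.valuation (x - a l) := zero_lt_iff.2 ((O.valuation.ne_zero_iff).2 hx0)
        have h2 : 1 < O.valuation s := by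
          rw [h1]
          exact one_lt_zpow_of_neg₀ hp h h0
        rw [Valuation.map_add_eq_of_lt_left _ (by rwa [Pla_v H h]), h1, mul_comm, zpow_mul]
        norm_cast
      · refine ⟨0, fun O hO h => ?_⟩
        have h1 := hn O hO h
        rw [h0, neg_zero, zpow_zero, mul_one] at h1
        have hsO : s ∈ O := by
          have h2 : s = (s - q) + (q : K) := by ring
          rw [h2]
          exact add_mem ((O.valuation_le_one_iff _).1 h1.le) (hO.2 q)
        have hvO : (v : K) ∈ O := (O.valuation_le_one_iff _).1 (Pla_v H h).le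
        have h2 : O.valuation (s + v) ≤ 1 := (O.valuation_le_one_iff _).2 (add_mem hsO hvO)
        rw [zpow_zero]
        rcases h2.lt_or_eq with h3 | h3
        · exfalso
          -- `D(-q)` is small
          have h4 : O.valuation ((v : K) + q) < 1 := by
            have h5 : (v : K) + q = (s + v) + -(s - q) := by ring
            rw [h5]
            exact Valuation.map_add_lt _ h3 (by rwa [Valuation.map_neg])
          have h5 : ((q ^ 2 + κ * q + 1 : ℚ) : K) =
              aeval (v : K) (Dq κ) + ((v : K) + q) * ((q : K) - v + κ) := by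
            unfold Dq
            simp only [map_add, map_sub, map_mul, map_pow, aeval_X, aeval_C, map_one]
            simp only [eq_intCast]
            push_cast
            ring
          have h6 : O.valuation ((q ^ 2 + κ * q + 1 : ℚ) : K) < 1 := by
            rw [h5]
            refine Valuation.map_add_lt _ (by rwa [Pla_D H hO h]) ?_
            rw [map_mul]
            exact (mul_le_of_le_one_right' ((O.valuation_le_one_iff _).2
              (add_mem (sub_mem (hO.2 q) hvO) (intCast_mem O κ)))).trans_lt h4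
          have h7 : (q ^ 2 + κ * q + 1 : ℚ) = 0 := by
            by_contra h8
            rw [Pla_rat hO h8] at h6
            exact lt_irrefl _ h6
          have h8 : (κ : ℚ) ^ 2 < 4 := by
            have h9 : κ ^ 2 < 4 := by
              have := abs_lt.1 hκ
              nlinarith
            exact_mod_cast h9
          nlinarith [sq_nonneg (2 * q + κ)]
        · rw [h3, one_pow]
      · refine ⟨0, fun O hO h => ?_⟩
        have h1 := Pla_val hx0 hO hq (hn O hO h)
        have h2 : O.valuation s < 1 := by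
          rw [h1]
          exact zpow_lt_one₀ (zero_lt_iff.2 ((O.valuation.ne_zero_iff).2 hx0)) h h0
        rw [Valuation.map_add_eq_of_lt_right _ (by rwa [Pla_v H h]), Pla_v H h, one_pow,
          zpow_zero]
  · have hε : ∃ ε : ℤ, κ = 2 * ε ∧ ε ^ 2 = 1 := by
      have h1 : |κ| = 2 := le_antisymm H.κ2 (not_lt.1 hκ)
      rcases (abs_eq (by norm_num)).1 h1 with h | h
      · exact ⟨1, by omega, by norm_num⟩
      · exact ⟨-1, by omega, by norm_num⟩
    obtain ⟨ε, rfl, hε⟩ := hε
    have hu : ∀ O : ValuationSubring K, IsPl O → O.valuation (x - a l) < 1 →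
        O.valuation ((v : K) - ε) ^ 2 = O.valuation (x - a l) := by
      intro O hO h
      rw [← Pla_D H hO h, ← map_pow]
      congr 1
      unfold Dq
      simp only [map_add, map_sub, map_mul, map_pow, aeval_X, aeval_C, map_one]
      simp only [eq_intCast]
      have h2 : (ε : K) ^ 2 = 1 := by exact_mod_cast hε
      push_cast
      linear_combination h2
    have hsv : s + v = (s + ε) + ((v : K) - ε) := by ring
    by_cases hs0 : s + ε = 0
    · refine ⟨1, fun O hO h => ?_⟩
      rw [hsv, hs0, zero_add, hu O hO h, zpow_one]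
    · obtain ⟨n, q, hq, hn⟩ := Pla_L hx0 (b := a l) (add_mem hs (intCast_mem _ ε)) hs0
      have hn2 : ∀ O : ValuationSubring K, IsPl O → O.valuation (x - a l) < 1 →
          O.valuation (s + ε) ^ 2 = O.valuation (x - a l) ^ (2 * n) := by
        intro O hO h
        rw [Pla_val hx0 hO hq (hn O hO h), mul_comm, zpow_mul]
        norm_cast
      rcases lt_or_ge n 1 with h0 | h0
      · refine ⟨2 * n, fun O hO h => ?_⟩
        have hp : 0 < O.valuation (x - a l) := zero_lt_iff.2 ((O.valuation.ne_zero_iff).2 hx0)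
        have h1 : O.valuation ((v : K) - ε) ^ 2 < O.valuation (s + ε) ^ 2 := by
          rw [hu O hO h, hn2 O hO h]
          conv_lhs => rw [← zpow_one (O.valuation (x - a l))]
          exact zpow_lt_zpow_right_of_lt_one₀ hp h (by omega)
        have h2 := lt_of_pow_lt_pow_left₀ 2 zero_le h1
        rw [hsv, Valuation.map_add_eq_of_lt_left _ h2, hn2 O hO h]
      · refine ⟨1, fun O hO h => ?_⟩
        have hp : 0 < O.valuation (x - a l) := zero_lt_iff.2 ((O.valuation.ne_zero_iff).2 hx0)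
        have h1 : O.valuation (s + ε) ^ 2 < O.valuation ((v : K) - ε) ^ 2 := by
          rw [hu O hO h, hn2 O hO h]
          conv_rhs => rw [← zpow_one (O.valuation (x - a l))]
          exact zpow_lt_zpow_right_of_lt_one₀ hp h (by omega)
        have h2 := lt_of_pow_lt_pow_left₀ 2 zero_le h1
        rw [hsv, Valuation.map_add_eq_of_lt_right _ h2, hu O hO h, zpow_one]

theorem Crv.pla_rep {g : ℕ} {a : Fin (g + 1) → ℤ} {c κ : ℤ} {K : Type} [Field K] [CharZero K]
    {x : K} {v : Kˣ} (H : Crv a c κ x v) (l : Fin (g + 1)) {t : K} (ht : t ≠ 0) :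
    ∃ k : ℤ, ∀ O : ValuationSubring K, IsPl O → O.valuation (x - a l) < 1 →
      O.valuation t ^ 2 = O.valuation (x - a l) ^ k := by
  have hx0 := Pla_ne H (a l)
  obtain ⟨A, hA, B, hB, rfl⟩ := Pla_red H t
  have hL : ∀ s ∈ IntermediateField.adjoin ℚ {x}, s ≠ 0 → ∃ n : ℤ,
      ∀ O : ValuationSubring K, IsPl O → O.valuation (x - a l) < 1 →
      O.valuation s ^ 2 = O.valuation (x - a l) ^ n := by
    intro s hs hs0
    obtain ⟨n, q, hq, hn⟩ := Pla_L hx0 (b := a l) hs hs0
    refine ⟨2 * n, fun O hO h => ?_⟩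
    rw [Pla_val hx0 hO hq (hn O hO h), mul_comm, zpow_mul]
    norm_cast
  by_cases hB0 : B = 0
  · rw [hB0, zero_mul, add_zero] at ht ⊢
    exact hL A hA ht
  · obtain ⟨n, hn⟩ := hL B hB hB0
    obtain ⟨m, hm⟩ := Pla_sv H l (div_mem hA hB)
    refine ⟨n + m, fun O hO h => ?_⟩
    have h1 : A + B * (v : K) = B * (A / B + v) := by
      field_simp
    have hp : O.valuation (x - a l) ≠ 0 := (O.valuation.ne_zero_iff).2 hx0
    rw [h1, map_mul, mul_pow, hn O hO h, hm O hO h, zpow_add₀ hp]

theorem Crv.pla_unique {g : ℕ} {a : Fin (g + 1) → ℤ} {c κ : ℤ} {K : Type} [Field K] [CharZero K]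
    {x : K} {v : Kˣ} (H : Crv a c κ x v) {l : Fin (g + 1)} {O O' : ValuationSubring K}
    (hO : IsPl O) (hO' : IsPl O') (h : O.valuation (x - a l) < 1)
    (h' : O'.valuation (x - a l) < 1) : O = O' := by
  have hx0 := Pla_ne H (a l)
  have key : ∀ O : ValuationSubring K, IsPl O → O.valuation (x - a l) < 1 → ∀ (t : K) (k : ℤ),
      (∀ O : ValuationSubring K, IsPl O → O.valuation (x - a l) < 1 →
        O.valuation t ^ 2 = O.valuation (x - a l) ^ k) → (t ∈ O ↔ 0 ≤ k) := by
    intro O hO h t k hk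
    have h1 := hk O hO h
    have hp : 0 < O.valuation (x - a l) := zero_lt_iff.2 ((O.valuation.ne_zero_iff).2 hx0)
    rw [← O.valuation_le_one_iff, ← pow_le_one_iff_of_nonneg zero_le two_ne_zero, h1]
    constructor
    · intro h3
      by_contra h4
      exact absurd (one_lt_zpow_of_neg₀ hp h (not_le.1 h4)) (not_lt.2 h3)
    · intro h3
      exact zpow_le_one₀ hp h.le h3
  ext t
  by_cases ht : t = 0
  · rw [ht]
    exact ⟨fun _ => O'.zero_mem, fun _ => O.zero_mem⟩
  · obtain ⟨k, hk⟩ := H.pla_rep l ht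
    rw [key O hO h t k hk, key O' hO' h' t k hk]

/-- `x - a l` has its zeros over `a l` only, its poles where `w = 0, ∞` -/
theorem Crv.pla_unit {g : ℕ} {a : Fin (g + 1) → ℤ} {c κ : ℤ} {K : Type} [Field K] [CharZero K]
    {x : K} {v : Kˣ} (H : Crv a c κ x v) (l : Fin (g + 1)) {O : ValuationSubring K}
    (hO : IsPl O) (h1 : O.valuation (v : K) = 1) (h2 : ¬ O.valuation (x - a l) < 1) :
    O.valuation (x - a l) = 1 := by
  refine le_antisymm ?_ (not_lt.1 h2)
  by_contra h3
  rw [not_le] at h3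
  -- all `x - a i` have the same valuation, larger than `1`
  have h4 : ∀ i, 1 < O.valuation (x - a i) := by
    intro i
    have h5 : x - (a i : K) = (x - a l) + ((a l - a i : ℤ) : K) := by
      push_cast
      ring
    have h6 : O.valuation ((a l - a i : ℤ) : K) ≤ 1 :=
      (O.valuation_le_one_iff _).2 (intCast_mem O _)
    rw [h5, Valuation.map_add_eq_of_lt_left _ (h6.trans_lt h3)]
    exact h3
  have h5 : O.valuation (aeval (v : K) (Dq κ)) ≤ 1 := by
    rw [O.valuation_le_one_iff]
    have hv : (v : K) ∈ O := (O.valuation_le_one_iff _).1 h1.le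
    unfold Dq
    simp only [map_add, map_sub, map_mul, map_pow, aeval_X, aeval_C, map_one]
    simp only [eq_intCast]
    exact add_mem (sub_mem (pow_mem hv _) (mul_mem (intCast_mem O κ) hv)) (one_mem _)
  rw [← H.prod, map_mul, map_mul, Pla_int hO H.c0, h1, one_mul, one_mul, map_prod] at h5
  classical
  rw [← Finset.mul_prod_erase Finset.univ _ (Finset.mem_univ l)] at h5
  have h6 : 1 ≤ ∏ i ∈ Finset.univ.erase l, O.valuation (x - a i) :=
    Finset.one_le_prod' fun i _ => (h4 i).le
  exact absurd h5 (not_le.2 (h3.trans_le (le_mul_of_one_le_right' h6)))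

end Pool.Agent.ETI
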